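import Pool.Agent.Work.MP_77d073_nt.Q4.Bb.Sem

/-!
MODULE Bb/Axi (M, Mathlib only, real numbers).  The shortest vector has two positive and two negative values, and after a
permutation and a change of sign it lies in a small box.

Proof.  None of the `x i` is zero.  Signs: the sum is zero, so not all are equal.  If exactly one has a sign different
from the other three, say (up to `ε`) `x = s > 0` and `- r1, - r2, - r3 < 0` with `r1 + r2 + r3 = s`: `r1 r2 r3 ≤ (s/3)^3`,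
so `1 ≤ s^4 / 27`, and `Σ x² ≥ s² + s²/3 = 4 s² / 3 ≥ 4 sqrt 27 / 3 = 6.928 > 6.6`: contradiction.  So two are positive and
two negative; let `y 0` be the one of largest absolute value, with sign changed to positive (`ε = ± 1`), `y 3` the other
positive one, `y 1 ≥ y 2` the negative ones.  Then `0 < y 3 ≤ y 0`, `y 2 ≤ y 1 < 0`, `- y 2 ≤ y 0`.
With `u = y 0 + y 1`, `v = y 0 + y 2`, `w = y 0 + y 3` (so `2 y 0 = u + v + w`, `2 y 1 = u - v - w`, `2 y 2 = - u + v - w`,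
`2 y 3 = - u - v + w`, `Σ y² = u² + v² + w²`): `0 ≤ v ≤ u`, `0 < w`, `u + v < w`;
`16 ≤ 16 |∏ y| = (w² - (u+v)²)(w² - (u-v)²) = (w² - u² - v²)² - 4 u² v²`, so `w² ≥ 4 + u² + v²`; with `u² + v² + w² ≤ 6.59824`:
`w ≤ 2.5688`, `w ≥ 2`, `u² + v² ≤ 1.2992`, `u ≤ 1.1399`, `v² ≤ 0.6496`, `v ≤ 0.806`.
-/

set_option autoImplicit false

namespace Pool.Agent.Work.MP_77d073_nt.Q4.Bb

private lemma amgm3 {p q r : ℝ} (hp : 0 < p) (hq : 0 < q) (hr : 0 < r) :
    27 * (p * q * r) ≤ (p + q + r) ^ 3 := by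
  nlinarith [mul_nonneg hp.le (sq_nonneg (q - r)), mul_nonneg hq.le (sq_nonneg (p - r)),
    mul_nonneg hr.le (sq_nonneg (p - q)), mul_nonneg hp.le (sq_nonneg (p - q)),
    mul_nonneg hp.le (sq_nonneg (p - r)), mul_nonneg hq.le (sq_nonneg (q - p)),
    mul_nonneg hq.le (sq_nonneg (q - r)), mul_nonneg hr.le (sq_nonneg (r - p)),
    mul_nonneg hr.le (sq_nonneg (r - q))]

private lemma three_one {s p q r : ℝ} (hp : 0 < p) (hq : 0 < q) (hr : 0 < r) (hs : s = p + q + r)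
    (h1 : 1 ≤ s * (p * q * r)) (h2 : s ^ 2 + p ^ 2 + q ^ 2 + r ^ 2 ≤ 66 / 10) : False := by
  have h3 := amgm3 hp hq hr
  rw [← hs] at h3
  have hs0 : 0 < s := by rw [hs]; positivity
  have h4 : s ^ 2 ≤ 3 * (p ^ 2 + q ^ 2 + r ^ 2) := by
    rw [hs]
    nlinarith [sq_nonneg (p - q), sq_nonneg (q - r), sq_nonneg (p - r)]
  have h5 : s ^ 2 ≤ 495 / 100 := by linarith
  have h6 : 27 ≤ s ^ 4 := by
    calc (27 : ℝ) ≤ 27 * (s * (p * q * r)) := by linarith
      _ = s * (27 * (p * q * r)) := by ring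
      _ ≤ s * s ^ 3 := by gcongr
      _ = s ^ 4 := by ring
  nlinarith [sq_nonneg s, sq_nonneg (s ^ 2)]

private lemma box {a b c d : ℝ} (h0 : a + b + c + d = 0) (ha : 0 < a) (hb : b < 0) (hc : c < 0)
    (hd : 0 < d) (hac : 0 ≤ a + c) (hcb : c ≤ b) (h1 : 1 ≤ a * b * c * d)
    (h2 : a ^ 2 + b ^ 2 + c ^ 2 + d ^ 2 ≤ 65983 / 10000) :
    a + b ≤ 115 / 100 ∧ a + c ≤ 81 / 100 ∧ 2 ≤ a + d ∧ a + d ≤ 257 / 100 := by
  obtain ⟨u, hu⟩ : ∃ u, u = a + b := ⟨_, rfl⟩
  obtain ⟨v, hv⟩ : ∃ v, v = a + c := ⟨_, rfl⟩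
  obtain ⟨w, hw⟩ : ∃ w, w = a + d := ⟨_, rfl⟩
  rw [← hu, ← hv, ← hw]
  have ea : a = (u + v + w) / 2 := by linarith
  have eb : b = (u - v - w) / 2 := by linarith
  have ec : c = (-u + v - w) / 2 := by linarith
  have ed : d = (-u - v + w) / 2 := by linarith
  have h3 : u ^ 2 + v ^ 2 + w ^ 2 ≤ 65983 / 10000 := by
    rw [ea, eb, ec, ed] at h2
    nlinarith
  have h4 : 16 ≤ (w ^ 2 - u ^ 2 - v ^ 2) ^ 2 - 4 * (u * v) ^ 2 := by
    rw [ea, eb, ec, ed] at h1
    nlinarith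
  have hv0 : 0 ≤ v := by rw [hv]; exact hac
  have huv : v ≤ u := by linarith
  have hw0 : 0 < w := by linarith
  have hwuv : u + v < w := by linarith
  have h5 : 0 < w ^ 2 - u ^ 2 - v ^ 2 := by nlinarith [mul_nonneg hv0 (hv0.trans huv)]
  have h6 : 4 ≤ w ^ 2 - u ^ 2 - v ^ 2 := by
    by_contra hc
    push Not at hc
    nlinarith [sq_nonneg (u * v)]
  have h7 : u ^ 2 + v ^ 2 ≤ 12992 / 10000 := by linarith
  refine ⟨?_, ?_, ?_, ?_⟩
  · nlinarith [sq_nonneg v]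
  · nlinarith
  · nlinarith [sq_nonneg u, sq_nonneg v]
  · nlinarith [sq_nonneg u, sq_nonneg v]

private def permA : Equiv.Perm (Fin 4) := ⟨![3, 1, 0, 2], ![2, 1, 3, 0], by decide, by decide⟩
private def permB : Equiv.Perm (Fin 4) := ⟨![0, 2, 3, 1], ![0, 3, 1, 2], by decide, by decide⟩

theorem axis (x : Fin 4 → ℝ) (h0 : ∑ i, x i = 0) (h1 : 1 ≤ |∏ i, x i|) (h2 : 4096 ^ 2 * ∑ i, x i ^ 2 ≤ 110700000) :
    ∃ (σ : Equiv.Perm (Fin 4)) (ε : ℤ), (ε = 1 ∨ ε = -1) ∧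
      0 < ε * x (σ 0) ∧ ε * x (σ 1) < 0 ∧ ε * x (σ 2) < 0 ∧ 0 < ε * x (σ 3) ∧
      0 ≤ ε * x (σ 0) + ε * x (σ 2) ∧ ε * x (σ 0) + ε * x (σ 2) ≤ ε * x (σ 0) + ε * x (σ 1) ∧
      ε * x (σ 0) + ε * x (σ 1) ≤ 115 / 100 ∧ ε * x (σ 0) + ε * x (σ 2) ≤ 81 / 100 ∧
      2 ≤ ε * x (σ 0) + ε * x (σ 3) ∧ ε * x (σ 0) + ε * x (σ 3) ≤ 257 / 100 := by
  set s := Tuple.sort x with hs
  have hmono := Tuple.monotone_sort x
  obtain ⟨y0, e0⟩ : ∃ y, y = x (s 0) := ⟨_, rfl⟩
  obtain ⟨y1, e1⟩ : ∃ y, y = x (s 1) := ⟨_, rfl⟩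
  obtain ⟨y2, e2⟩ : ∃ y, y = x (s 2) := ⟨_, rfl⟩
  obtain ⟨y3, e3⟩ : ∃ y, y = x (s 3) := ⟨_, rfl⟩
  have m01 : y0 ≤ y1 := by rw [e0, e1]; exact hmono (by decide)
  have m12 : y1 ≤ y2 := by rw [e1, e2]; exact hmono (by decide)
  have m23 : y2 ≤ y3 := by rw [e2, e3]; exact hmono (by decide)
  have t0 : y0 + y1 + y2 + y3 = 0 := by
    rw [← Equiv.sum_comp s, Fin.sum_univ_four] at h0
    rw [e0, e1, e2, e3]
    exact h0
  have t1 : 1 ≤ |y0 * y1 * y2 * y3| := by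
    rw [← Equiv.prod_comp s, Fin.prod_univ_four] at h1
    rw [e0, e1, e2, e3]
    exact h1
  have t2 : y0 ^ 2 + y1 ^ 2 + y2 ^ 2 + y3 ^ 2 ≤ 65983 / 10000 := by
    rw [← Equiv.sum_comp s, Fin.sum_univ_four] at h2
    rw [← e0, ← e1, ← e2, ← e3] at h2
    norm_num at h2
    linarith
  have hne : y0 * y1 * y2 * y3 ≠ 0 := by
    intro h
    rw [h, abs_zero] at t1
    linarith
  have n0 : y0 ≠ 0 := fun h => hne (by rw [h]; ring)
  have n1 : y1 ≠ 0 := fun h => hne (by rw [h]; ring)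
  have n2 : y2 ≠ 0 := fun h => hne (by rw [h]; ring)
  have n3 : y3 ≠ 0 := fun h => hne (by rw [h]; ring)
  have s0 : y0 < 0 := by
    rcases lt_or_gt_of_ne n0 with h | h
    · exact h
    · linarith
  have s3 : 0 < y3 := by
    rcases lt_or_gt_of_ne n3 with h | h
    · linarith
    · exact h
  have s1 : y1 < 0 := by
    rcases lt_or_gt_of_ne n1 with h | h
    · exact h
    · exfalso
      have h' : 0 < y2 := lt_of_lt_of_le h m12
      apply three_one (s := -y0) h h' s3 (by linarith) _ (by nlinarith)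
      have h5 : |y0 * y1 * y2 * y3| = -y0 * (y1 * y2 * y3) := by
        rw [abs_of_neg]
        · ring
        · have : 0 < y1 * y2 * y3 := by positivity
          nlinarith
      rw [← h5]
      exact t1
  have s2 : 0 < y2 := by
    rcases lt_or_gt_of_ne n2 with h | h
    · exfalso
      apply three_one (s := y3) (p := -y0) (q := -y1) (r := -y2) (by linarith) (by linarith)
        (by linarith) (by linarith) _ (by nlinarith)
      have h5 : |y0 * y1 * y2 * y3| = y3 * (-y0 * -y1 * -y2) := by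
        have h6 : 0 < (-y0) * (-y1) * (-y2) := by
          have a0 : 0 < -y0 := by linarith
          have a1 : 0 < -y1 := by linarith
          have a2 : 0 < -y2 := by linarith
          positivity
        rw [abs_of_neg]
        · ring
        · nlinarith
      rw [← h5]
      exact t1
    · exact h
  have hpos : 0 < y0 * y1 * y2 * y3 := by
    have h5 : 0 < (-y0) * (-y1) := mul_pos (by linarith) (by linarith)
    have h6 : 0 < y2 * y3 := mul_pos s2 s3
    nlinarith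
  rw [abs_of_pos hpos] at t1
  rcases le_or_gt 0 (y3 + y0) with hc | hc
  · have h5 := box (a := y3) (b := y1) (c := y0) (d := y2) (by linarith) s3 s1 s0 s2 hc m01
      (by linarith) (by linarith)
    refine ⟨permA.trans s, 1, Or.inl rfl, ?_⟩
    have f0 : x ((permA.trans s) 0) = y3 := by rw [e3]; rfl
    have f1 : x ((permA.trans s) 1) = y1 := by rw [e1]; rfl
    have f2 : x ((permA.trans s) 2) = y0 := by rw [e0]; rfl
    have f3 : x ((permA.trans s) 3) = y2 := by rw [e2]; rfl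
    rw [f0, f1, f2, f3]
    push_cast
    simp only [one_mul]
    exact ⟨s3, s1, s0, s2, hc, by linarith, h5.1, h5.2.1, h5.2.2.1, h5.2.2.2⟩
  · have h5 := box (a := -y0) (b := -y2) (c := -y3) (d := -y1) (by linarith) (by linarith)
      (by linarith) (by linarith) (by linarith) (by linarith) (by linarith)
      (by linarith) (by linarith [sq_abs y0, neg_sq y0, neg_sq y1, neg_sq y2, neg_sq y3])
    refine ⟨permB.trans s, -1, Or.inr rfl, ?_⟩
    have f0 : x ((permB.trans s) 0) = y0 := by rw [e0]; rfl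
    have f1 : x ((permB.trans s) 1) = y2 := by rw [e2]; rfl
    have f2 : x ((permB.trans s) 2) = y3 := by rw [e3]; rfl
    have f3 : x ((permB.trans s) 3) = y1 := by rw [e1]; rfl
    rw [f0, f1, f2, f3]
    push_cast
    simp only [neg_mul, one_mul]
    exact ⟨by linarith, by linarith, by linarith, by linarith, by linarith, by linarith, h5.1,
      h5.2.1, h5.2.2.1, h5.2.2.2⟩

end Pool.Agent.Work.MP_77d073_nt.Q4.Bb
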