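import Pool.Agent.Work.MP_77d073_nt.Q4.Bb.Snd
import Pool.Agent.Work.MP_77d073_nt.Q4.Bb.K.Top
import Pool.Agent.Work.MP_77d073_nt.Q4.Bb.K.K01
import Pool.Agent.Work.MP_77d073_nt.Q4.Bb.K.K02
import Pool.Agent.Work.MP_77d073_nt.Q4.Bb.K.K03
import Pool.Agent.Work.MP_77d073_nt.Q4.Bb.K.K04
import Pool.Agent.Work.MP_77d073_nt.Q4.Bb.K.K05
import Pool.Agent.Work.MP_77d073_nt.Q4.Bb.K.K06
import Pool.Agent.Work.MP_77d073_nt.Q4.Bb.K.K07
import Pool.Agent.Work.MP_77d073_nt.Q4.Bb.K.K08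
import Pool.Agent.Work.MP_77d073_nt.Q4.Bb.K.K09
import Pool.Agent.Work.MP_77d073_nt.Q4.Bb.K.K10
import Pool.Agent.Work.MP_77d073_nt.Q4.Bb.K.K11
import Pool.Agent.Work.MP_77d073_nt.Q4.Bb.K.K12
import Pool.Agent.Work.MP_77d073_nt.Q4.Bb.K.K13
import Pool.Agent.Work.MP_77d073_nt.Q4.Bb.K.K14
import Pool.Agent.Work.MP_77d073_nt.Q4.Bb.K.K15
import Pool.Agent.Work.MP_77d073_nt.Q4.Bb.K.K16
import Pool.Agent.Work.MP_77d073_nt.Q4.Bb.K.K17
import Pool.Agent.Work.MP_77d073_nt.Q4.Bb.K.K18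
import Pool.Agent.Work.MP_77d073_nt.Q4.Bb.K.K19
import Pool.Agent.Work.MP_77d073_nt.Q4.Bb.K.K20
import Pool.Agent.Work.MP_77d073_nt.Q4.Bb.K.K21
import Pool.Agent.Work.MP_77d073_nt.Q4.Bb.K.K22
import Pool.Agent.Work.MP_77d073_nt.Q4.Bb.K.K23
import Pool.Agent.Work.MP_77d073_nt.Q4.Bb.K.K24
import Pool.Agent.Work.MP_77d073_nt.Q4.Bb.K.K25
import Pool.Agent.Work.MP_77d073_nt.Q4.Bb.K.K26

/-!
The branch and bound theorem: under the hypotheses `Dom` only two small boxes around the two positions of the critical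
lattice are left.  The certificate is in the folder `K` (31000 steps, checked by the kernel).
-/

set_option autoImplicit false

namespace Pool.Agent.Work.MP_77d073_nt.Q4.Bb

/-- Bounds of the nine coordinates. -/
def InL (z : ℕ → ℝ) (a b : List ℤ) : Prop :=
  ∀ k, k < 9 → ((32768 + a.getD k 0 : ℤ) : ℝ) ≤ z k ∧ z k ≤ ((32768 + b.getD k 0 : ℤ) : ℝ)

private theorem inL_of_win {z : ℕ → ℝ} {A B L H : ℕ} {a b : List ℤ}
    (ha : ∀ j, j < 9 → (dg A j : ℤ) = 32768 + a.getD j 0) (hb : ∀ j, j < 9 → (dg B j : ℤ) = 32768 + b.getD j 0)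
    (hw : win A B L H 9 = true) (hB : InB z L H) : InL z a b := by
  intro k hk
  obtain ⟨h1, h2⟩ := win_sound hw k hk
  obtain ⟨h3, h4⟩ := hB k (by omega)
  rw [← ha k hk, ← hb k hk]
  constructor
  · refine le_trans ?_ h3
    have : (dg A k : ℝ) ≤ (dg L k : ℝ) := by exact_mod_cast h1
    simpa using this
  · refine le_trans h4 ?_
    have : (dg H k : ℝ) ≤ (dg B k : ℝ) := by exact_mod_cast h2
    simpa using this

private theorem hlc_sound {z : ℕ → ℝ} {i L H SP SM : ℕ} (h : hlc i L H SP SM = true) (hB : InB z L H) :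
    InL z [786, -4, 8176, 8725, -60, -3232, -4452, 9445, 1526] [906, 285, 8296, 8845, 60, -3112, -4332, 9565, 1646] ∨
      InL z [786, -4, 8176, 8725, -60, -3232, 4332, 9445, -1646]
        [906, 60, 8296, 8845, 60, -3112, 4452, 9565, -1526] := by
  unfold hlc at h
  by_cases h0 : i = 0
  · left
    subst h0
    refine inL_of_win (A := A0) (B := B0) ?_ ?_ h hB
    · intro j hj
      interval_cases j <;> rfl
    · intro j hj
      interval_cases j <;> rfl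
  · right
    have h0' : Nat.beq i 0 = false := by
      cases hh : Nat.beq i 0
      · rfl
      · exact absurd (Nat.eq_of_beq_eq_true hh) h0
    by_cases h1 : i = 1
    · subst h1
      refine inL_of_win (A := A1) (B := B1) ?_ ?_ h hB
      · intro j hj
        interval_cases j <;> rfl
      · intro j hj
        interval_cases j <;> rfl
    · exfalso
      have h1' : Nat.beq i 1 = false := by
        cases hh : Nat.beq i 1
        · rfl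
        · exact absurd (Nat.eq_of_beq_eq_true hh) h1
      change cond (Nat.beq i 0) _ (cond (Nat.beq i 1) _ false) = true at h
      rw [h0', h1'] at h
      exact absurd h (by simp)

private theorem pieces : ∀ s ∈ K.hs, ∃ T : Tr, chk C0 hlc T s.1 s.2.1 s.2.2.1 s.2.2.2 = true := by
  unfold K.hs
  exact List.forall_mem_cons.2 ⟨⟨_, K.k000⟩,
    List.forall_mem_cons.2 ⟨⟨_, K.k001⟩,
    List.forall_mem_cons.2 ⟨⟨_, K.k002⟩,
    List.forall_mem_cons.2 ⟨⟨_, K.k003⟩,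
    List.forall_mem_cons.2 ⟨⟨_, K.k004⟩,
    List.forall_mem_cons.2 ⟨⟨_, K.k005⟩,
    List.forall_mem_cons.2 ⟨⟨_, K.k006⟩,
    List.forall_mem_cons.2 ⟨⟨_, K.k007⟩,
    List.forall_mem_cons.2 ⟨⟨_, K.k008⟩,
    List.forall_mem_cons.2 ⟨⟨_, K.k009⟩,
    List.forall_mem_cons.2 ⟨⟨_, K.k010⟩,
    List.forall_mem_cons.2 ⟨⟨_, K.k011⟩,
    List.forall_mem_cons.2 ⟨⟨_, K.k012⟩,
    List.forall_mem_cons.2 ⟨⟨_, K.k013⟩,
    List.forall_mem_cons.2 ⟨⟨_, K.k014⟩,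
    List.forall_mem_cons.2 ⟨⟨_, K.k015⟩,
    List.forall_mem_cons.2 ⟨⟨_, K.k016⟩,
    List.forall_mem_cons.2 ⟨⟨_, K.k017⟩,
    List.forall_mem_cons.2 ⟨⟨_, K.k018⟩,
    List.forall_mem_cons.2 ⟨⟨_, K.k019⟩,
    List.forall_mem_cons.2 ⟨⟨_, K.k020⟩,
    List.forall_mem_cons.2 ⟨⟨_, K.k021⟩,
    List.forall_mem_cons.2 ⟨⟨_, K.k022⟩,
    List.forall_mem_cons.2 ⟨⟨_, K.k023⟩,
    List.forall_mem_cons.2 ⟨⟨_, K.k024⟩,
    List.forall_mem_cons.2 ⟨⟨_, K.k025⟩,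
    List.forall_mem_cons.2 ⟨⟨_, K.k026⟩,
    List.forall_mem_cons.2 ⟨⟨_, K.k027⟩,
    List.forall_mem_cons.2 ⟨⟨_, K.k028⟩,
    List.forall_mem_cons.2 ⟨⟨_, K.k029⟩,
    List.forall_mem_cons.2 ⟨⟨_, K.k030⟩,
    List.forall_mem_cons.2 ⟨⟨_, K.k031⟩,
    List.forall_mem_cons.2 ⟨⟨_, K.k032⟩,
    List.forall_mem_cons.2 ⟨⟨_, K.k033⟩,
    List.forall_mem_cons.2 ⟨⟨_, K.k034⟩,
    List.forall_mem_cons.2 ⟨⟨_, K.k035⟩,
    List.forall_mem_cons.2 ⟨⟨_, K.k036⟩,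
    List.forall_mem_cons.2 ⟨⟨_, K.k037⟩,
    List.forall_mem_cons.2 ⟨⟨_, K.k038⟩,
    List.forall_mem_cons.2 ⟨⟨_, K.k039⟩,
    List.forall_mem_nil _⟩⟩⟩⟩⟩⟩⟩⟩⟩⟩⟩⟩⟩⟩⟩⟩⟩⟩⟩⟩⟩⟩⟩⟩⟩⟩⟩⟩⟩⟩⟩⟩⟩⟩⟩⟩⟩⟩⟩⟩

theorem bb {z : ℕ → ℝ} (hD : Dom z) (hB : InB z L0 H0) (hP : SgP z SP0) (hM : SgM z SM0) :
    InL z [786, -4, 8176, 8725, -60, -3232, -4452, 9445, 1526] [906, 285, 8296, 8845, 60, -3112, -4332, 9565, 1646] ∨
      InL z [786, -4, 8176, 8725, -60, -3232, 4332, 9445, -1646] [906, 60, 8296, 8845, 60, -3112, 4452, 9565, -1526] := by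
  refine chk_sound hD (hl := K.hlt) ?_ K.Top hB hP hM K.top
  intro i L H SP SM h hB' hP' hM'
  unfold K.hlt at h
  by_cases h2 : Nat.beq i 2 = true
  · change cond (Nat.beq i 2) _ _ = true at h
    rw [h2] at h
    change (K.hs.any fun s => Nat.beq s.1 L && (Nat.beq s.2.1 H && (Nat.beq s.2.2.1 SP && Nat.beq s.2.2.2 SM))) =
      true at h
    obtain ⟨s, hs, h3⟩ := List.any_eq_true.1 h
    rw [Bool.and_eq_true, Bool.and_eq_true, Bool.and_eq_true] at h3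
    obtain ⟨e1, e2, e3, e4⟩ := h3
    have f1 := Nat.eq_of_beq_eq_true e1
    have f2 := Nat.eq_of_beq_eq_true e2
    have f3 := Nat.eq_of_beq_eq_true e3
    have f4 := Nat.eq_of_beq_eq_true e4
    obtain ⟨T, hT⟩ := pieces s hs
    rw [f1, f2, f3, f4] at hT
    exact chk_sound hD (fun i L H SP SM h' hB'' _ _ => hlc_sound h' hB'') T hB' hP' hM' hT
  · have h2' : Nat.beq i 2 = false := by
      cases hh : Nat.beq i 2 <;> simp_all
    change cond (Nat.beq i 2) _ _ = true at h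
    rw [h2'] at h
    exact hlc_sound (SP := SP) (SM := SM) h hB'

end Pool.Agent.Work.MP_77d073_nt.Q4.Bb
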