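/-!
Branch and bound certificate for the three dimensional problem: the checker.  It uses raw operations on natural
numbers only (they are fast in the kernel).  The soundness proof is in the files `Dig`, `Geo`, `FStp`, ... `Snd`.

State: `L`, `H` = packed lower and upper bounds of the twelve variables (24 bit digits), `SP`, `SM` = packed masks of
the known signs (digit number `4 t + i` is nonzero if the sign of `T_i(p_t)` is known to be `≥ 0` resp. `≤ 0`).
-/

set_option autoImplicit false
set_option maxRecDepth 100000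

namespace Pool.Agent.Work.MP_77d073_nt.Q4.Bb

/-- the 24-bit digit number `k` -/
def dg (x k : Nat) : Nat := Nat.mod (Nat.shiftRight x (Nat.mul (nat_lit 24) k)) (nat_lit 16777216)

/-- the 48-bit digit number `k` -/
def dh (x k : Nat) : Nat := Nat.mod (Nat.shiftRight x (Nat.mul (nat_lit 48) k)) (nat_lit 281474976710656)

/-- `m` at the 48-bit digit number `k` -/
def at_ (m k : Nat) : Nat := Nat.shiftLeft m (Nat.mul (nat_lit 48) k)

/-- force evaluation -/
noncomputable def ev (n : Nat) (k : Nat → Bool) : Bool :=
  Nat.rec (motive := fun _ => Bool) (k (nat_lit 0)) (fun m _ => k (Nat.succ m)) n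

/-- bit `i` of `a` -/
def bt (a i : Nat) : Nat := Nat.land (Nat.shiftRight a i) (nat_lit 1)

/-- bound of variable `k`, side `β` (0 lower, otherwise upper) -/
def bd (L H β k : Nat) : Nat := dg (cond (Nat.beq β (nat_lit 0)) L H) k

/-- subtract `m` times the corner form of `x * y` (corner values `cx`, `cy`) -/
def pS (m x y cx cy P N cp cm : Nat) (k : Nat → Nat → Nat → Nat → Bool) : Bool :=
  k (Nat.add P (Nat.mul (Nat.mul m (nat_lit 32768)) (Nat.add (at_ (nat_lit 1) x) (at_ (nat_lit 1) y))))
    (Nat.add N (Nat.mul m (Nat.add (at_ cx y) (at_ cy x))))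
    (Nat.add cp (Nat.mul m (Nat.mul cx cy)))
    (Nat.add cm (Nat.mul m (nat_lit 1073741824)))

/-- add `m` times the corner form of `x * y` -/
def pA (m x y cx cy P N cp cm : Nat) (k : Nat → Nat → Nat → Nat → Bool) : Bool :=
  k (Nat.add P (Nat.mul m (Nat.add (at_ cx y) (at_ cy x))))
    (Nat.add N (Nat.mul (Nat.mul m (nat_lit 32768)) (Nat.add (at_ (nat_lit 1) x) (at_ (nat_lit 1) y))))
    (Nat.add cp (Nat.mul m (nat_lit 1073741824)))
    (Nat.add cm (Nat.mul m (Nat.mul cx cy)))

/-- `s = 0`: lower form subtracted (corners `β β`); otherwise: upper form added (corners `β, 1 - β`) -/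
def pr (s L H β m x y P N cp cm : Nat) (k : Nat → Nat → Nat → Nat → Bool) : Bool :=
  cond (Nat.beq s (nat_lit 0))
    (pS m x y (bd L H β x) (bd L H β y) P N cp cm k)
    (pA m x y (bd L H β x) (bd L H (Nat.sub (nat_lit 1) β) y) P N cp cm k)

/-- determinant entry -/
def eD (D2 L H a m P N cp cm : Nat) (k : Nat → Nat → Nat → Nat → Bool) : Bool :=
  (fun s => pr s L H (bt a (nat_lit 1)) m (nat_lit 6) (nat_lit 9) P N (Nat.add cp (Nat.mul m D2)) cm
    fun P N cp cm => pr s L H (bt a (nat_lit 2)) m (nat_lit 7) (nat_lit 10) P N cp cm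
    fun P N cp cm => pr s L H (bt a (nat_lit 3)) m (nat_lit 8) (nat_lit 11) P N cp cm k) (bt a (nat_lit 0))

/-- entry of the relation `4096 (v) = x * y - z * w` -/
def eMx (x y z w v L H a m P N cp cm : Nat) (k : Nat → Nat → Nat → Nat → Bool) : Bool :=
  (fun s => pr s L H (bt a (nat_lit 3)) m x y P N cp cm
    fun P N cp cm => pr (Nat.sub (nat_lit 1) s) L H (bt a (nat_lit 4)) m z w P N cp cm
    fun P N cp cm => cond (Nat.beq s (nat_lit 0))
        (k (Nat.add P (at_ (Nat.mul m (nat_lit 4096)) v)) N cp (Nat.add cm (Nat.mul m (nat_lit 134217728))))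
        (k P (Nat.add N (at_ (Nat.mul m (nat_lit 4096)) v)) (Nat.add cp (Nat.mul m (nat_lit 134217728))) cm))
  (bt a (nat_lit 2))

/-- entry of the relation of the `M` variables -/
def eM (L H a m P N cp cm : Nat) (k : Nat → Nat → Nat → Nat → Bool) : Bool :=
  (fun j => cond (Nat.beq j (nat_lit 0))
      (eMx (nat_lit 1) (nat_lit 5) (nat_lit 2) (nat_lit 4) (nat_lit 9) L H a m P N cp cm k)
    (cond (Nat.beq j (nat_lit 1))
      (eMx (nat_lit 2) (nat_lit 3) (nat_lit 0) (nat_lit 5) (nat_lit 10) L H a m P N cp cm k)
      (eMx (nat_lit 0) (nat_lit 4) (nat_lit 1) (nat_lit 3) (nat_lit 11) L H a m P N cp cm k)))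
  (Nat.land a (nat_lit 3))

/-- secant upper bound of the square of the variable `x`, added -/
def sq (L H m x P N cp cm : Nat) (k : Nat → Nat → Nat → Nat → Bool) : Bool :=
  k (Nat.add P (at_ (Nat.mul m (Nat.add (dg L x) (dg H x))) x))
    (Nat.add N (at_ (Nat.mul m (nat_lit 65536)) x))
    (Nat.add cp (Nat.mul m (nat_lit 1073741824)))
    (Nat.add cm (Nat.mul m (Nat.mul (dg L x) (dg H x))))

/-- tangent lower bound (at `z`) of the square of the variable `x`, subtracted -/
def tg (m x z P N cp cm : Nat) (k : Nat → Nat → Nat → Nat → Bool) : Bool :=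
  k (Nat.add P (at_ (Nat.mul m (nat_lit 65536)) x))
    (Nat.add N (at_ (Nat.mul m (Nat.mul (nat_lit 2) z)) x))
    (Nat.add cp (Nat.mul m (Nat.mul z z)))
    (Nat.add cm (Nat.mul m (nat_lit 1073741824)))

/-- entry of `|b_i|² ± 2 b_i b_j ≥ 0`, with `x = 3 i`, `y = 3 j` -/
def eQx (x y L H a m P N cp cm : Nat) (k : Nat → Nat → Nat → Nat → Bool) : Bool :=
  (fun s m2 =>
    sq L H m x P N cp cm fun P N cp cm =>
    sq L H m (Nat.add x (nat_lit 1)) P N cp cm fun P N cp cm =>
    sq L H m (Nat.add x (nat_lit 2)) P N cp cm fun P N cp cm =>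
    pr s L H (bt a (nat_lit 3)) m2 x y P N cp cm fun P N cp cm =>
    pr s L H (bt a (nat_lit 4)) m2 (Nat.add x (nat_lit 1)) (Nat.add y (nat_lit 1)) P N cp cm fun P N cp cm =>
    pr s L H (bt a (nat_lit 5)) m2 (Nat.add x (nat_lit 2)) (Nat.add y (nat_lit 2)) P N cp cm k)
  (Nat.sub (nat_lit 1) (bt a (nat_lit 2))) (Nat.mul (nat_lit 2) m)

def eQ (L H a m P N cp cm : Nat) (k : Nat → Nat → Nat → Nat → Bool) : Bool :=
  (fun j => cond (Nat.beq j (nat_lit 0)) (eQx (nat_lit 0) (nat_lit 3) L H a m P N cp cm k)
    (cond (Nat.beq j (nat_lit 1)) (eQx (nat_lit 0) (nat_lit 6) L H a m P N cp cm k)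
      (eQx (nat_lit 3) (nat_lit 6) L H a m P N cp cm k))) (Nat.land a (nat_lit 3))

/-- tangents at three centers -/
def t3 (e x m P N cp cm : Nat) (k : Nat → Nat → Nat → Nat → Bool) : Bool :=
  tg m x (Nat.land (Nat.shiftRight e (nat_lit 32)) (nat_lit 65535)) P N cp cm fun P N cp cm =>
  tg m (Nat.add x (nat_lit 1)) (Nat.land (Nat.shiftRight e (nat_lit 48)) (nat_lit 65535)) P N cp cm
    fun P N cp cm =>
  tg m (Nat.add x (nat_lit 2)) (Nat.land (Nat.shiftRight e (nat_lit 64)) (nat_lit 65535)) P N cp cm k

/-- entry of `|b_j|² ≤ Q_j` -/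
def eB (Q0 Q1 Q2 e a m P N cp cm : Nat) (k : Nat → Nat → Nat → Nat → Bool) : Bool :=
  cond (Nat.beq a (nat_lit 0)) (t3 e (nat_lit 0) m P N (Nat.add cp (Nat.mul m Q0)) cm k)
  (cond (Nat.beq a (nat_lit 1)) (t3 e (nat_lit 3) m P N (Nat.add cp (Nat.mul m Q1)) cm k)
    (t3 e (nat_lit 6) m P N (Nat.add cp (Nat.mul m Q2)) cm k))

/-- entry of `|b_j|² ≤ |b_{j+1}|²`, `x = 3 j` -/
def eOx (x L H e m P N cp cm : Nat) (k : Nat → Nat → Nat → Nat → Bool) : Bool :=
  t3 e x m P N cp cm fun P N cp cm =>
    sq L H m (Nat.add x (nat_lit 3)) P N cp cm fun P N cp cm =>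
    sq L H m (Nat.add x (nat_lit 4)) P N cp cm fun P N cp cm =>
    sq L H m (Nat.add x (nat_lit 5)) P N cp cm k

def eO (L H e a m P N cp cm : Nat) (k : Nat → Nat → Nat → Nat → Bool) : Bool :=
  cond (Nat.beq a (nat_lit 0)) (eOx (nat_lit 0) L H e m P N cp cm k) (eOx (nat_lit 3) L H e m P N cp cm k)

/-- the constants of the problem -/
structure Cst where
  D2 : Nat
  Q0 : Nat
  Q1 : Nat
  Q2 : Nat

/-- one nonlinear entry: kind 3 bits, data 13 bits, multiplier 16 bits, centers 3 times 16 bits -/
def eN (C : Cst) (L H e P N cp cm : Nat) (k : Nat → Nat → Nat → Nat → Bool) : Bool :=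
  (fun kd a m =>
    cond (Nat.beq kd (nat_lit 1)) (eM L H a m P N cp cm k)
    (cond (Nat.beq kd (nat_lit 2)) (eQ L H a m P N cp cm k)
    (cond (Nat.beq kd (nat_lit 0)) (eD C.D2 L H a m P N cp cm k)
    (cond (Nat.beq kd (nat_lit 3)) (eB C.Q0 C.Q1 C.Q2 e (Nat.land a (nat_lit 3)) m P N cp cm k)
    (cond (Nat.beq kd (nat_lit 4)) (eO L H e (Nat.land a (nat_lit 1)) m P N cp cm k)
      (k (Nat.add P (Nat.mul m (nat_lit 4096))) (Nat.add N (at_ (Nat.mul m (nat_lit 4096)) (nat_lit 1))) cp cm))))))
  (Nat.land e (nat_lit 7)) (Nat.land (Nat.shiftRight e (nat_lit 3)) (nat_lit 8191))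
    (Nat.land (Nat.shiftRight e (nat_lit 16)) (nat_lit 65535))

/-- all nonlinear entries (stride 120 bits) -/
noncomputable def goN (C : Cst) (c L H : Nat) (k : Nat → Nat → Nat → Nat → Bool) (n : Nat) :
    Nat → Nat → Nat → Nat → Bool :=
  Nat.rec (motive := fun _ => Nat → Nat → Nat → Nat → Bool) k
    (fun j ih P N cp cm => eN C L H (Nat.shiftRight c (Nat.mul (nat_lit 120) j)) P N cp cm ih) n

/-- four 16 bit blocks at the 24-bit digits -/
def M16 : Nat := nat_lit 0xffff00ffff00ffff00ffff

/-- the positive coordinates of the vector number `t` (0 or 1 at the 96-bit digits 0, 1, 2) -/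
def TP : Nat :=
  nat_lit 0x1000000000000000000000001000000000000000000000001000000000000000000000000000000000000000000000001000000000000000000000001000000000000000000000001000000000000000000000000000000000000000000000001000000000000000000000000000000000000000000000000000000000000000000000001000000000000000000000000000000000000000000000001000000000000000000000001000000000000000000000001000000000000000000000000000000000000000000000001000000000000000000000000000000000000000000000000000000000000000000000001000000000000000000000000000000000000000000000000000000000000000000000001000000000000000000000001000000000000000000000001000000000000000000000000000000000000000000000000000000000000000000000001000000000000000000000000000000000000000000000000000000000000000000000000000000000000000000000001000000000000000000000000000000000000000000000001000000000000000000000000000000000000000000000001000000000000000000000000000000000000000000000000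

/-- the negative coordinates of the vector number `t` -/
def TN : Nat :=
  nat_lit 0x1000000000000000000000000000000000000000000000000000000000000000000000000000000000000000000000001000000000000000000000000000000000000000000000001000000000000000000000001000000000000000000000000000000000000000000000000000000000000000000000000000000000000000000000000000000000000000000000000000000000000000000000000000000000000000000000000000000000000000000000001000000000000000000000000000000000000000000000000000000000000000000000000000000000000000000000001000000000000000000000000000000000000000000000000000000000000000000000000000000000000000000000000000000000000000000000001000000000000000000000000000000000000000000000000000000000000000000000000000000000000000000000000000000000000000000000000000000000000000000000000000000000000000000000000000000000000000000000000000000000000000000000000000000000000000000000000000000000000000000000000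

/-- the step of one linear entry; fields: `t` 4 bits, `lam` 16 bits, `alpha` 4 times 24 bits -/
def fS (SP SM e PF NF lam : Nat) (k : Nat → Nat → Nat → Bool) : Bool :=
  (fun t al =>
    (fun ap am pp pn =>
      cond (Nat.beq (Nat.add ap am) al)
        (cond (Nat.ble (Nat.pow (Nat.land (Nat.shiftRight e (nat_lit 4)) (nat_lit 65535)) (nat_lit 4))
            (Nat.mul (Nat.mul (dg al (nat_lit 0)) (dg al (nat_lit 1)))
              (Nat.mul (dg al (nat_lit 2)) (dg al (nat_lit 3)))))
          (k (Nat.add PF (Nat.add (Nat.mul ap pp) (Nat.mul am pn)))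
              (Nat.add NF (Nat.add (Nat.mul ap pn) (Nat.mul am pp)))
              (Nat.add lam (Nat.land (Nat.shiftRight e (nat_lit 4)) (nat_lit 65535))))
          false)
        false)
    (Nat.land al (Nat.shiftRight SP (Nat.mul (nat_lit 96) t)))
    (Nat.land al (Nat.shiftRight SM (Nat.mul (nat_lit 96) t)))
    (Nat.mod (Nat.shiftRight TP (Nat.mul (nat_lit 288) t)) (Nat.pow (nat_lit 2) (nat_lit 288)))
    (Nat.mod (Nat.shiftRight TN (Nat.mul (nat_lit 288) t)) (Nat.pow (nat_lit 2) (nat_lit 288))))
  (Nat.land e (nat_lit 15))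
  (Nat.land (Nat.shiftRight e (nat_lit 20)) M16)

/-- all linear entries (stride 120 bits) -/
noncomputable def goF (c SP SM : Nat) (k : Nat → Nat → Nat → Bool) (n : Nat) : Nat → Nat → Nat → Bool :=
  Nat.rec (motive := fun _ => Nat → Nat → Nat → Bool) k
    (fun j ih PF NF lam => fS SP SM (Nat.shiftRight c (Nat.mul (nat_lit 120) j)) PF NF lam ih) n

/-- coefficients of the coordinates of the vector number `j` from the digits `4 j, ..., 4 j + 3` -/
def blk (PF NF j : Nat) (k : Nat → Nat → Nat → Nat → Nat → Nat → Bool) : Bool :=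
  (fun a b =>
    (fun a1 a2 a3 a4 b1 b2 b3 b4 =>
      k (Nat.add (Nat.add a1 a2) (Nat.add b3 b4)) (Nat.add (Nat.add b1 b2) (Nat.add a3 a4))
        (Nat.add (Nat.add a1 a3) (Nat.add b2 b4)) (Nat.add (Nat.add b1 b3) (Nat.add a2 a4))
        (Nat.add (Nat.add a1 a4) (Nat.add b2 b3)) (Nat.add (Nat.add b1 b4) (Nat.add a2 a3)))
    (dg a (nat_lit 0)) (dg a (nat_lit 1)) (dg a (nat_lit 2)) (dg a (nat_lit 3))
    (dg b (nat_lit 0)) (dg b (nat_lit 1)) (dg b (nat_lit 2)) (dg b (nat_lit 3)))
  (Nat.shiftRight PF (Nat.mul (nat_lit 96) j)) (Nat.shiftRight NF (Nat.mul (nat_lit 96) j))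

/-- add one block, multiplied by 4096, to the accumulators -/
def addblk (PF NF j P N cp cm : Nat) (k : Nat → Nat → Nat → Nat → Bool) : Bool :=
  blk PF NF j fun pu nu pv nv pw nw =>
    k (Nat.add P (Nat.shiftLeft (Nat.add pu (Nat.add (Nat.shiftLeft pv (nat_lit 48)) (Nat.shiftLeft pw (nat_lit 96))))
        (Nat.add (Nat.mul (nat_lit 144) j) (nat_lit 12))))
      (Nat.add N (Nat.shiftLeft (Nat.add nu (Nat.add (Nat.shiftLeft nv (nat_lit 48)) (Nat.shiftLeft nw (nat_lit 96))))
        (Nat.add (Nat.mul (nat_lit 144) j) (nat_lit 12))))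
      (Nat.add cp (Nat.mul (nat_lit 134217728) (Nat.add nu (Nat.add nv nw))))
      (Nat.add cm (Nat.mul (nat_lit 134217728) (Nat.add pu (Nat.add pv pw))))

/-- sum over all variables except `k0` of the maximal contributions -/
noncomputable def rest (L H P N k0 : Nat) (k : Nat → Nat → Bool) (n : Nat) : Nat → Nat → Bool :=
  Nat.rec (motive := fun _ => Nat → Nat → Bool) k
    (fun j ih U V => cond (Nat.beq j k0) (ih U V)
      ((fun p q => ih (Nat.add U (Nat.mul (Nat.sub p q) (dg H j))) (Nat.add V (Nat.mul (Nat.sub q p) (dg L j))))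
        (dh P j) (dh N j))) n

/-- replace a digit -/
def setd (X k v : Nat) : Nat :=
  Nat.sub (Nat.add X (Nat.shiftLeft v (Nat.mul (nat_lit 24) k))) (Nat.shiftLeft (dg X k) (Nat.mul (nat_lit 24) k))

/-- accumulate everything of one step -/
noncomputable def acc (C : Cst) (c L H SP SM : Nat) (k : Nat → Nat → Nat → Nat → Bool) : Bool :=
  goF (Nat.shiftRight c (nat_lit 16)) SP SM
    (fun PF NF lam =>
      addblk PF NF (nat_lit 0) (nat_lit 0) (nat_lit 0) (nat_lit 0) (Nat.mul lam (nat_lit 134217728))
        fun P N cp cm => addblk PF NF (nat_lit 1) P N cp cm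
        fun P N cp cm => addblk PF NF (nat_lit 2) P N cp cm
        fun P N cp cm => goN C (Nat.shiftRight c (Nat.add (nat_lit 16) (Nat.mul (nat_lit 120) (Nat.land c (nat_lit 15)))))
          L H k (Nat.land (Nat.shiftRight c (nat_lit 4)) (nat_lit 15)) P N cp cm)
    (Nat.land c (nat_lit 15)) (nat_lit 0) (nat_lit 0) (nat_lit 0)

/-- closing step -/
noncomputable def close (C : Cst) (c L H SP SM : Nat) : Bool :=
  acc C c L H SP SM fun P N cp cm =>
    rest L H P N (nat_lit 12) (fun U V => Nat.ble (Nat.succ (Nat.add U cp)) (Nat.add V cm)) (nat_lit 12)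
      (nat_lit 0) (nat_lit 0)

/-- tightening step: the new lower (`sd = 0`) or upper bound of the variable `k0` -/
noncomputable def tight (C : Cst) (c L H SP SM : Nat) (kk : Nat → Nat → Bool) : Bool :=
  (fun k0 sd => acc C c L H SP SM fun P N cp cm =>
    rest L H P N k0 (fun U V =>
      cond (Nat.beq sd (nat_lit 0))
        (cond (Nat.ble (dh P k0) (dh N k0)) false
          ((fun v => cond (Nat.ble v (nat_lit 65535)) (ev (setd L k0 v) fun L' => kk L' H) false)
            (Nat.div (Nat.sub (Nat.add V cm) (Nat.add U cp)) (Nat.sub (dh P k0) (dh N k0)))))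
        (cond (Nat.ble (dh N k0) (dh P k0)) false
          ((fun v => cond (Nat.ble v (nat_lit 65535)) (ev (setd H k0 v) fun H' => kk L H') false)
            (Nat.succ (Nat.div (Nat.sub (Nat.add U cp) (Nat.add V cm)) (Nat.sub (dh N k0) (dh P k0)))))))
      (nat_lit 12) (nat_lit 0) (nat_lit 0))
  (Nat.land (Nat.shiftRight c (nat_lit 8)) (nat_lit 15)) (Nat.land (Nat.shiftRight c (nat_lit 12)) (nat_lit 1))

/-- Certificates: closing step, tightening step, split of a sign (first child `≥ 0`, second child `≤ 0`), split of a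
variable (first child below), leaf of another kind. -/
inductive Tr where
  | cl : Nat → Tr
  | st : Nat → Tr → Tr
  | sp : Nat → Tr → Tr → Tr
  | bx : Nat → Nat → Tr → Tr → Tr
  | lc : Nat → Tr

/-- the mask of the sign number `q` -/
def sgb (q : Nat) : Nat := Nat.shiftLeft (nat_lit 16777215) (Nat.mul (nat_lit 24) q)

/-- the check; `hl` handles the leaves `lc` -/
noncomputable def chk (C : Cst) (hl : Nat → Nat → Nat → Nat → Nat → Bool) (T : Tr) : Nat → Nat → Nat → Nat → Bool :=
  Tr.rec (motive := fun _ => Nat → Nat → Nat → Nat → Bool)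
    (fun c L H SP SM => close C c L H SP SM)
    (fun c _ ih L H SP SM => tight C c L H SP SM fun L' H' => ih L' H' SP SM)
    (fun q _ _ ih1 ih2 L H SP SM => cond (Nat.ble (nat_lit 52) q) false
      (cond (ev (setd SP q (nat_lit 16777215)) fun SP' => ih1 L H SP' SM)
        (ev (setd SM q (nat_lit 16777215)) fun SM' => ih2 L H SP SM') false))
    (fun k v _ _ ih1 ih2 L H SP SM => cond (Nat.ble v (nat_lit 65535))
      (cond (ev (setd H k v) fun H' => ih1 L H' SP SM) (ev (setd L k v) fun L' => ih2 L' H SP SM) false) false)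
    (fun i L H SP SM => hl i L H SP SM) T

/-- the nine first digits of `L`, `H` lie between those of `A` and `B` -/
noncomputable def win (A B L H n : Nat) : Bool :=
  Nat.rec (motive := fun _ => Bool) true
    (fun j ih => cond (Nat.ble (dg A j) (dg L j)) (cond (Nat.ble (dg H j) (dg B j)) ih false) false) n

/-- The constants: bound of the determinant and of the squares of the lengths. -/
def C0 : Cst := ⟨nat_lit 174130725, nat_lit 110700000, nat_lit 142180000, nat_lit 213830000⟩

/-- the lower bounds of the first box -/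
def L0 : Nat := nat_lit 0x8000008000008000046e10080000046e100516c00516c00800000a000008000008000

/-- the upper bounds of the first box -/
def H0 : Nat := nat_lit 0xf80000f80000f80000b91f00b91f00b91f00ae9400ae9400ae9400a91f008cf6009267

/-- the first positive signs -/
def SP0 : Nat := nat_lit 0xffffff000000000000ffffff000000000000000000000000000000000000000000000000

/-- the first negative signs -/
def SM0 : Nat := nat_lit 0xffffffffffff000000000000000000000000000000000000000000000000000000

end Pool.Agent.Work.MP_77d073_nt.Q4.Bb
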