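import Pool.Agent.Work.MP_77d073_nt.Q4.Bb.Prd

/-!
MODULE Bb/Ent (M).  Soundness of one nonlinear entry `eN` and of all of them.

Every entry is a chain of the steps of `Bb/Prd`, ending with the lower bound `≥ 0` by the corresponding hypothesis of
`Dom`; `m = (e >>> 16) &&& 65535 < 2^16`; the coefficients increase by less than `2^44` in total.
`eD` (kind 0): `cp + m D2` (`IR_cp`), three `pr` with `s = bt a 0`, `(6,9), (7,10), (8,11)`: the bound is
`m (D2 ∓ Σ)`, `≥ 0` by `Dom.D`.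
`eM` (kind 1): `pr s (x,y)`, `pr (1 - s) (z,w)` and the term of `v`; `s = bt a 2 ∈ {0, 1}`; for `s = 0`:
`- m XY + m ZW + 4096 m (z v - 32768) = 0` by `Dom.M0`, `M1`, `M2`; for `s = 1` the opposite.
`(x,y,z,w,v) = (1,5,2,4,9), (2,3,0,5,10), (0,4,1,3,11)`.
`eQ` (kind 2): three `sq` and three `pr` with the multiplier `2 m`: `m (nq x ∓ 2 ip x y) ≥ 0` by `Dom.P01`, `P02`,
`P12`; `(x,y) = (0,3), (0,6), (3,6)`; `s' = 1 - bt a 2`.
`eB` (kind 3): `m (Q_j - nq (3j)) ≥ 0`.  `eO` (kind 4): `m (nq (x+3) - nq x) ≥ 0`.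
otherwise: `4096 m (z 0 - z 1) ≥ 0` (`Nat.mul m 4096 = at_ (m * 4096) 0`).
Increase of the coefficients: `eQ`, `eO`: `6 m 2^25 ≤ 6 * 2^41 < 2^44`.
`goN_sound`: induction on `n` (`goN ... (n+1) = eN ... (goN ... n)` by `rfl`).
-/

set_option autoImplicit false

namespace Pool.Agent.Work.MP_77d073_nt.Q4.Bb

/-- the conclusion of one step -/
private def Cn (z : ℕ → ℝ) (w : ℕ) (k : ℕ → ℕ → ℕ → ℕ → Bool) : Prop :=
  ∃ P' N' cp' cm', IA z w P' N' cp' cm' ∧ k P' N' cp' cm' = true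

private theorem ent_fin {z : ℕ → ℝ} {w w' P N cp cm : ℕ} {r : ℝ} {k : ℕ → ℕ → ℕ → ℕ → Bool}
    (hk : k P N cp cm = true) (h : IR z w P N cp cm r) (hw : w ≤ w') (hr : 0 ≤ r) : Cn z w' k :=
  ⟨P, N, cp, cm, IR_zero.1 (IR_mono h hw hr), hk⟩

private theorem ent_bt (a i : ℕ) : bt a i = 0 ∨ bt a i = 1 := by
  have h : bt a i = (a >>> i) % 2 := Nat.and_one_is_mod _
  omega

private theorem ent_D {z : ℕ → ℝ} (hD : Dom z) {L H : ℕ} (hB : InB z L H) {a m w P N cp cm : ℕ}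
    {k : ℕ → ℕ → ℕ → ℕ → Bool} (hm : m < 2 ^ 16) (h : IA z w P N cp cm)
    (hk : eD C0.D2 L H a m P N cp cm k = true) : Cn z (w + 2 ^ 44) k := by
  have h1 := IR_cp (IR_zero.2 h) (m * C0.D2)
  change pr (bt a 0) L H (bt a 1) m 6 9 P N (cp + m * C0.D2) cm
    (fun P N cp cm => pr (bt a 0) L H (bt a 2) m 7 10 P N cp cm
    (fun P N cp cm => pr (bt a 0) L H (bt a 3) m 8 11 P N cp cm k)) = true at hk
  obtain ⟨P1, N1, cp1, cm1, hk1, h2⟩ := pr_sound hB (by norm_num) (by norm_num) (by norm_num) h1 hk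
  obtain ⟨P2, N2, cp2, cm2, hk2, h3⟩ := pr_sound hB (by norm_num) (by norm_num) (by norm_num) h2 hk1
  obtain ⟨P3, N3, cp3, cm3, hk3, h4⟩ := pr_sound hB (by norm_num) (by norm_num) (by norm_num) h3 hk2
  refine ent_fin hk3 h4 (by norm_num at hm ⊢; omega) ?_
  have hd := hD.D
  rw [abs_le] at hd
  have hm0 : (0 : ℝ) ≤ m := Nat.cast_nonneg m
  push_cast
  by_cases hs : bt a 0 = 0
  · simp only [hs, if_true]
    nlinarith [mul_nonneg hm0 (sub_nonneg.2 hd.2)]
  · simp only [hs, if_false]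
    nlinarith [mul_nonneg hm0 (sub_nonneg.2 hd.1)]

private theorem ent_Mx {z : ℕ → ℝ} {L H : ℕ} (hB : InB z L H) {x y x' y' v a m w P N cp cm : ℕ}
    {k : ℕ → ℕ → ℕ → ℕ → Bool} (hx : x < 12) (hy : y < 12) (hxy : x ≠ y) (hx' : x' < 12) (hy' : y' < 12)
    (hxy' : x' ≠ y') (hv : v < 12) (hm : m < 2 ^ 16)
    (hr : 4096 * (z v - 32768) = (z x - 32768) * (z y - 32768) - (z x' - 32768) * (z y' - 32768))
    (h : IA z w P N cp cm) (hk : eMx x y x' y' v L H a m P N cp cm k = true) : Cn z (w + 2 ^ 44) k := by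
  change pr (bt a 2) L H (bt a 3) m x y P N cp cm
    (fun P N cp cm => pr (1 - bt a 2) L H (bt a 4) m x' y' P N cp cm
    (fun P N cp cm => cond (Nat.beq (bt a 2) 0)
        (k (P + at_ (m * 4096) v) N cp (cm + m * 134217728))
        (k P (N + at_ (m * 4096) v) (cp + m * 134217728) cm))) = true at hk
  obtain ⟨P1, N1, cp1, cm1, hk1, h2⟩ := pr_sound hB hx hy hxy (IR_zero.2 h) hk
  obtain ⟨P2, N2, cp2, cm2, hk2, h3⟩ := pr_sound hB hx' hy' hxy' h2 hk1
  rcases ent_bt a 2 with hs | hs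
  · rw [hs] at hk2 h3
    change k (P2 + at_ (m * 4096) v) N2 cp2 (cm2 + m * 134217728) = true at hk2
    have h4 := IR_cm (IR_P h3 (m * 4096) hv) (m * 134217728)
    refine ent_fin hk2 h4 (by norm_num at hm ⊢; omega) ?_
    have e2 : (m : ℝ) * (4096 * (z v - 32768)) =
        m * ((z x - 32768) * (z y - 32768) - (z x' - 32768) * (z y' - 32768)) := by rw [hr]
    push_cast
    simp
    linarith
  · rw [hs] at hk2 h3
    change k P2 (N2 + at_ (m * 4096) v) (cp2 + m * 134217728) cm2 = true at hk2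
    have h4 := IR_cp (IR_N h3 (m * 4096) hv) (m * 134217728)
    refine ent_fin hk2 h4 (by norm_num at hm ⊢; omega) ?_
    have e2 : (m : ℝ) * (4096 * (z v - 32768)) =
        m * ((z x - 32768) * (z y - 32768) - (z x' - 32768) * (z y' - 32768)) := by rw [hr]
    push_cast
    simp
    linarith

private theorem ent_M {z : ℕ → ℝ} (hD : Dom z) {L H : ℕ} (hB : InB z L H) {a m w P N cp cm : ℕ}
    {k : ℕ → ℕ → ℕ → ℕ → Bool} (hm : m < 2 ^ 16) (h : IA z w P N cp cm)
    (hk : eM L H a m P N cp cm k = true) : Cn z (w + 2 ^ 44) k := by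
  change cond (Nat.beq (Nat.land a 3) 0) (eMx 1 5 2 4 9 L H a m P N cp cm k)
    (cond (Nat.beq (Nat.land a 3) 1) (eMx 2 3 0 5 10 L H a m P N cp cm k)
      (eMx 0 4 1 3 11 L H a m P N cp cm k)) = true at hk
  cases h0 : Nat.beq (Nat.land a 3) 0 with
  | true =>
    rw [h0] at hk
    exact ent_Mx hB (by norm_num) (by norm_num) (by norm_num) (by norm_num) (by norm_num) (by norm_num)
      (by norm_num) hm hD.M0 h hk
  | false =>
    rw [h0] at hk
    change cond (Nat.beq (Nat.land a 3) 1) (eMx 2 3 0 5 10 L H a m P N cp cm k)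
      (eMx 0 4 1 3 11 L H a m P N cp cm k) = true at hk
    cases h1 : Nat.beq (Nat.land a 3) 1 with
    | true =>
      rw [h1] at hk
      exact ent_Mx hB (by norm_num) (by norm_num) (by norm_num) (by norm_num) (by norm_num) (by norm_num)
        (by norm_num) hm hD.M1 h hk
    | false =>
      rw [h1] at hk
      exact ent_Mx hB (by norm_num) (by norm_num) (by norm_num) (by norm_num) (by norm_num) (by norm_num)
        (by norm_num) hm hD.M2 h hk

private theorem ent_Qx {z : ℕ → ℝ} {L H : ℕ} (hB : InB z L H) {x y a m w P N cp cm : ℕ}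
    {k : ℕ → ℕ → ℕ → ℕ → Bool} (hx : x + 2 < 12) (hy : y + 2 < 12) (hxy : x ≠ y) (hm : m < 2 ^ 16)
    (hr : |2 * ip z x y| ≤ nq z x)
    (h : IA z w P N cp cm) (hk : eQx x y L H a m P N cp cm k = true) : Cn z (w + 2 ^ 44) k := by
  change sq L H m x P N cp cm
    (fun P N cp cm => sq L H m (x + 1) P N cp cm
    (fun P N cp cm => sq L H m (x + 2) P N cp cm
    (fun P N cp cm => pr (1 - bt a 2) L H (bt a 3) (2 * m) x y P N cp cm
    (fun P N cp cm => pr (1 - bt a 2) L H (bt a 4) (2 * m) (x + 1) (y + 1) P N cp cm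
    (fun P N cp cm => pr (1 - bt a 2) L H (bt a 5) (2 * m) (x + 2) (y + 2) P N cp cm k))))) = true at hk
  obtain ⟨P1, N1, cp1, cm1, hk1, h1⟩ := sq_sound hB (by omega) (IR_zero.2 h) hk
  obtain ⟨P2, N2, cp2, cm2, hk2, h2⟩ := sq_sound hB (by omega) h1 hk1
  obtain ⟨P3, N3, cp3, cm3, hk3, h3⟩ := sq_sound hB (by omega) h2 hk2
  obtain ⟨P4, N4, cp4, cm4, hk4, h4⟩ := pr_sound hB (by omega) (by omega) (by omega) h3 hk3
  obtain ⟨P5, N5, cp5, cm5, hk5, h5⟩ := pr_sound hB (by omega) (by omega) (by omega) h4 hk4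
  obtain ⟨P6, N6, cp6, cm6, hk6, h6⟩ := pr_sound hB (by omega) (by omega) (by omega) h5 hk5
  refine ent_fin hk6 h6 (by norm_num at hm ⊢; omega) ?_
  rw [abs_le] at hr
  unfold ip nq at hr
  have hm0 : (0 : ℝ) ≤ m := Nat.cast_nonneg m
  push_cast
  by_cases hs : 1 - bt a 2 = 0
  · simp only [hs, if_true]
    nlinarith [mul_nonneg hm0 (sub_nonneg.2 hr.2)]
  · simp only [hs, if_false]
    nlinarith [mul_nonneg hm0 (sub_nonneg.2 hr.1)]

private theorem ent_Q {z : ℕ → ℝ} (hD : Dom z) {L H : ℕ} (hB : InB z L H) {a m w P N cp cm : ℕ}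
    {k : ℕ → ℕ → ℕ → ℕ → Bool} (hm : m < 2 ^ 16) (h : IA z w P N cp cm)
    (hk : eQ L H a m P N cp cm k = true) : Cn z (w + 2 ^ 44) k := by
  change cond (Nat.beq (Nat.land a 3) 0) (eQx 0 3 L H a m P N cp cm k)
    (cond (Nat.beq (Nat.land a 3) 1) (eQx 0 6 L H a m P N cp cm k)
      (eQx 3 6 L H a m P N cp cm k)) = true at hk
  cases h0 : Nat.beq (Nat.land a 3) 0 with
  | true =>
    rw [h0] at hk
    exact ent_Qx hB (by norm_num) (by norm_num) (by norm_num) hm hD.P01 h hk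
  | false =>
    rw [h0] at hk
    change cond (Nat.beq (Nat.land a 3) 1) (eQx 0 6 L H a m P N cp cm k)
      (eQx 3 6 L H a m P N cp cm k) = true at hk
    cases h1 : Nat.beq (Nat.land a 3) 1 with
    | true =>
      rw [h1] at hk
      exact ent_Qx hB (by norm_num) (by norm_num) (by norm_num) hm hD.P02 h hk
    | false =>
      rw [h1] at hk
      exact ent_Qx hB (by norm_num) (by norm_num) (by norm_num) hm hD.P12 h hk

private theorem ent_t3 {z : ℕ → ℝ} {e m x Q w P N cp cm : ℕ} (hx : x + 2 < 12)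
    {k : ℕ → ℕ → ℕ → ℕ → Bool} (hm : m < 2 ^ 16) (hr : nq z x ≤ (Q : ℝ)) (h : IA z w P N cp cm)
    (hk : t3 e x m P N (cp + m * Q) cm k = true) : Cn z (w + 2 ^ 44) k := by
  obtain ⟨P1, N1, cp1, cm1, hk1, h1⟩ := t3_sound hx (IR_cp (IR_zero.2 h) (m * Q)) hk
  refine ent_fin hk1 h1 (by norm_num at hm ⊢; omega) ?_
  have hm0 : (0 : ℝ) ≤ m := Nat.cast_nonneg m
  push_cast
  nlinarith [mul_nonneg hm0 (sub_nonneg.2 hr)]

private theorem ent_B {z : ℕ → ℝ} (hD : Dom z) {e a m w P N cp cm : ℕ}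
    {k : ℕ → ℕ → ℕ → ℕ → Bool} (hm : m < 2 ^ 16) (h : IA z w P N cp cm)
    (hk : eB C0.Q0 C0.Q1 C0.Q2 e a m P N cp cm k = true) : Cn z (w + 2 ^ 44) k := by
  change cond (Nat.beq a 0) (t3 e 0 m P N (cp + m * C0.Q0) cm k)
    (cond (Nat.beq a 1) (t3 e 3 m P N (cp + m * C0.Q1) cm k)
      (t3 e 6 m P N (cp + m * C0.Q2) cm k)) = true at hk
  cases h0 : Nat.beq a 0 with
  | true =>
    rw [h0] at hk
    exact ent_t3 (by norm_num) hm hD.B0 h hk
  | false =>
    rw [h0] at hk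
    change cond (Nat.beq a 1) (t3 e 3 m P N (cp + m * C0.Q1) cm k)
      (t3 e 6 m P N (cp + m * C0.Q2) cm k) = true at hk
    cases h1 : Nat.beq a 1 with
    | true =>
      rw [h1] at hk
      exact ent_t3 (by norm_num) hm hD.B1 h hk
    | false =>
      rw [h1] at hk
      exact ent_t3 (by norm_num) hm hD.B2 h hk

private theorem ent_Ox {z : ℕ → ℝ} {L H : ℕ} (hB : InB z L H) {e x m w P N cp cm : ℕ}
    {k : ℕ → ℕ → ℕ → ℕ → Bool} (hx : x + 5 < 12) (hm : m < 2 ^ 16)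
    (hr : nq z x ≤ nq z (x + 3))
    (h : IA z w P N cp cm) (hk : eOx x L H e m P N cp cm k = true) : Cn z (w + 2 ^ 44) k := by
  change t3 e x m P N cp cm
    (fun P N cp cm => sq L H m (x + 3) P N cp cm
    (fun P N cp cm => sq L H m (x + 4) P N cp cm
    (fun P N cp cm => sq L H m (x + 5) P N cp cm k))) = true at hk
  obtain ⟨P1, N1, cp1, cm1, hk1, h1⟩ := t3_sound (by omega) (IR_zero.2 h) hk
  obtain ⟨P2, N2, cp2, cm2, hk2, h2⟩ := sq_sound hB (by omega) h1 hk1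
  obtain ⟨P3, N3, cp3, cm3, hk3, h3⟩ := sq_sound hB (by omega) h2 hk2
  obtain ⟨P4, N4, cp4, cm4, hk4, h4⟩ := sq_sound hB (by omega) h3 hk3
  refine ent_fin hk4 h4 (by norm_num at hm ⊢; omega) ?_
  have hm0 : (0 : ℝ) ≤ m := Nat.cast_nonneg m
  have e1 : nq z (x + 3) = (z (x + 3) - 32768) ^ 2 + (z (x + 4) - 32768) ^ 2 + (z (x + 5) - 32768) ^ 2 := rfl
  rw [e1] at hr
  nlinarith [mul_nonneg hm0 (sub_nonneg.2 hr)]

private theorem ent_O {z : ℕ → ℝ} (hD : Dom z) {L H : ℕ} (hB : InB z L H) {e a m w P N cp cm : ℕ}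
    {k : ℕ → ℕ → ℕ → ℕ → Bool} (hm : m < 2 ^ 16) (h : IA z w P N cp cm)
    (hk : eO L H e a m P N cp cm k = true) : Cn z (w + 2 ^ 44) k := by
  change cond (Nat.beq a 0) (eOx 0 L H e m P N cp cm k) (eOx 3 L H e m P N cp cm k) = true at hk
  cases h0 : Nat.beq a 0 with
  | true =>
    rw [h0] at hk
    exact ent_Ox hB (by norm_num) hm hD.O0 h hk
  | false =>
    rw [h0] at hk
    exact ent_Ox hB (by norm_num) hm hD.O1 h hk

private theorem ent_U {z : ℕ → ℝ} (hD : Dom z) {m w P N cp cm : ℕ}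
    {k : ℕ → ℕ → ℕ → ℕ → Bool} (hm : m < 2 ^ 16) (h : IA z w P N cp cm)
    (hk : k (P + m * 4096) (N + at_ (m * 4096) 1) cp cm = true) : Cn z (w + 2 ^ 44) k := by
  have h1 := IR_N (IR_P (IR_zero.2 h) (m * 4096) (v := 0) (by norm_num)) (m * 4096) (v := 1) (by norm_num)
  have e : at_ (m * 4096) 0 = m * 4096 := by
    rw [at_eq]
    simp
  rw [e] at h1
  refine ent_fin hk h1 (by norm_num at hm ⊢; omega) ?_
  have hm0 : (0 : ℝ) ≤ m := Nat.cast_nonneg m
  have hU := hD.U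
  push_cast
  nlinarith [mul_nonneg hm0 (sub_nonneg.2 hU)]

theorem eN_sound {z : ℕ → ℝ} (hD : Dom z) {L H : ℕ} (hB : InB z L H) {e w P N cp cm : ℕ}
    {k : ℕ → ℕ → ℕ → ℕ → Bool} (h : IA z w P N cp cm) (hk : eN C0 L H e P N cp cm k = true) :
    ∃ P' N' cp' cm', IA z (w + 2 ^ 44) P' N' cp' cm' ∧ k P' N' cp' cm' = true := by
  change Cn z (w + 2 ^ 44) k
  set kd := Nat.land e 7 with hkd
  set a := Nat.land (Nat.shiftRight e 3) 8191 with ha
  set m := Nat.land (Nat.shiftRight e 16) 65535 with hm'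
  have hm : m < 2 ^ 16 := by
    have h1 : m ≤ 65535 := Nat.and_le_right
    omega
  change cond (Nat.beq kd 1) (eM L H a m P N cp cm k)
    (cond (Nat.beq kd 2) (eQ L H a m P N cp cm k)
    (cond (Nat.beq kd 0) (eD C0.D2 L H a m P N cp cm k)
    (cond (Nat.beq kd 3) (eB C0.Q0 C0.Q1 C0.Q2 e (Nat.land a 3) m P N cp cm k)
    (cond (Nat.beq kd 4) (eO L H e (Nat.land a 1) m P N cp cm k)
      (k (P + m * 4096) (N + at_ (m * 4096) 1) cp cm))))) = true at hk
  cases h1 : Nat.beq kd 1 with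
  | true =>
    rw [h1] at hk
    exact ent_M hD hB hm h hk
  | false =>
    rw [h1] at hk
    rw [Bool.cond_false] at hk
    cases h2 : Nat.beq kd 2 with
    | true =>
      rw [h2] at hk
      exact ent_Q hD hB hm h hk
    | false =>
      rw [h2] at hk
      rw [Bool.cond_false] at hk
      cases h3 : Nat.beq kd 0 with
      | true =>
        rw [h3] at hk
        exact ent_D hD hB hm h hk
      | false =>
        rw [h3] at hk
        rw [Bool.cond_false] at hk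
        cases h4 : Nat.beq kd 3 with
        | true =>
          rw [h4] at hk
          exact ent_B hD hm h hk
        | false =>
          rw [h4] at hk
          rw [Bool.cond_false] at hk
          cases h5 : Nat.beq kd 4 with
          | true =>
            rw [h5] at hk
            exact ent_O hD hB hm h hk
          | false =>
            rw [h5] at hk
            exact ent_U hD hm h hk

theorem goN_sound {z : ℕ → ℝ} (hD : Dom z) {L H : ℕ} (hB : InB z L H) {c n w P N cp cm : ℕ}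
    {k : ℕ → ℕ → ℕ → ℕ → Bool} (h : IA z w P N cp cm) (hk : goN C0 c L H k n P N cp cm = true) :
    ∃ P' N' cp' cm', IA z (w + n * 2 ^ 44) P' N' cp' cm' ∧ k P' N' cp' cm' = true := by
  induction n generalizing w P N cp cm with
  | zero =>
    refine ⟨P, N, cp, cm, ?_, hk⟩
    rw [Nat.zero_mul, Nat.add_zero]
    exact h
  | succ n ih =>
    change eN C0 L H (Nat.shiftRight c (Nat.mul 120 n)) P N cp cm (goN C0 c L H k n) = true at hk
    obtain ⟨P1, N1, cp1, cm1, h1, hk1⟩ := eN_sound hD hB h hk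
    obtain ⟨P2, N2, cp2, cm2, h2, hk2⟩ := ih h1 hk1
    refine ⟨P2, N2, cp2, cm2, ?_, hk2⟩
    have e : w + (n + 1) * 2 ^ 44 = w + 2 ^ 44 + n * 2 ^ 44 := by ring
    rw [e]
    exact h2

end Pool.Agent.Work.MP_77d073_nt.Q4.Bb
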