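import Pool.Agent.Work.MP_77d073_nt.Q4.Bb.FAll
import Pool.Agent.Work.MP_77d073_nt.Q4.Bb.Ent

/-!
MODULE Bb/Cls (M).  Soundness of the closing step and of the tightening step.

`acc_sound`: chain `goF_sound`, `blk3_sound`, `goN_sound` (the numbers of entries are `c &&& 15`, `(c >>> 4) &&& 15`,
both `< 16`); the coefficients are at most `2^38 + 15 * 2^44 < 2^48`, so `dh P k`, `dh N k` are the coefficients
(`dh_pk`).
`rest_sound`: induction on `n`: `rest` adds to `U` the numbers `(p - q) * dg H j` and to `V` the numbers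
`(q - p) * dg L j` (truncated subtraction), `p = dh P j`, `q = dh N j`, for `j ≠ k0`.
For each `j < 12`: `(p - q : ℝ) z_j ≤ (p - q)⁺ (dg H j) - (q - p)⁺ (dg L j)` (truncated differences, `InB`).
Closing (`k0 = 12`, all terms): `0 ≤ Σ (p_j - q_j) z_j + cp - cm ≤ U + cp - V - cm < 0`, contradiction.
Tightening, lower bound: `A = p - q > 0` for `k0`; `0 ≤ A z_{k0} + U + cp - V - cm`, so `z_{k0} ≥ (V + cm - (U + cp)) / A
≥` the natural number `v` (floor, truncated difference; if the difference is truncated `v = 0` and `z_{k0} ≥ dg L k0 ≥ 0`).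
Upper bound: `A = q - p > 0`, `A z_{k0} ≤ U + cp - V - cm`, so `z_{k0} ≤ v = floor + 1`.
If `k0 ≥ 12` then `dh P k0 = dh N k0 = 0` (`dh_pk_ge`) and the test fails.  `dg_setd` for the new box, `ev_eq`.
-/

set_option autoImplicit false

namespace Pool.Agent.Work.MP_77d073_nt.Q4.Bb

private theorem cs_cond2 {b x : Bool} (h : cond b x false = true) : b = true ∧ x = true := by
  cases b
  · exact absurd h (by simp)
  · exact ⟨rfl, h⟩

private theorem cs_cond1 {b x : Bool} (h : cond b false x = true) : b = false ∧ x = true := by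
  cases b
  · exact ⟨rfl, h⟩
  · exact absurd h (by simp)

private theorem cs_ble {a b : ℕ} (h : Nat.ble a b = false) : b < a := by
  by_contra h'
  rw [Nat.ble_eq_true_of_le (not_lt.1 h')] at h
  exact absurd h (by simp)

private theorem cs_land15 (x : ℕ) : Nat.land x 15 < 16 := by
  have h : x &&& 15 ≤ 15 := Nat.and_le_right
  have h' : Nat.land x 15 = x &&& 15 := rfl
  omega

private theorem cs_acc {z : ℕ → ℝ} (hD : Dom z) {L H SP SM : ℕ} (hB : InB z L H) (hP : SgP z SP)
    (hM : SgM z SM) {c : ℕ} {k : ℕ → ℕ → ℕ → ℕ → Bool} (hk : acc C0 c L H SP SM k = true) :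
    ∃ (a b : ℕ → ℕ) (cp cm : ℕ), (∀ j, a j < 2 ^ 48) ∧ (∀ j, b j < 2 ^ 48) ∧
      0 ≤ va z a - va z b + (cp : ℝ) - (cm : ℝ) ∧ k (pk 48 a) (pk 48 b) cp cm = true := by
  have hk' : goF (Nat.shiftRight c (nat_lit 16)) SP SM
    (fun PF NF lam =>
      addblk PF NF 0 0 0 0 (Nat.mul lam 134217728)
        fun P N cp cm => addblk PF NF 1 P N cp cm
        fun P N cp cm => addblk PF NF 2 P N cp cm
        fun P N cp cm => goN C0 (Nat.shiftRight c (Nat.add (nat_lit 16) (Nat.mul (nat_lit 120) (Nat.land c (nat_lit 15)))))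
          L H k (Nat.land (Nat.shiftRight c (nat_lit 4)) 15) P N cp cm)
    (Nat.land c 15) 0 0 0 = true := hk
  obtain ⟨PF, NF, lam, h1, h2⟩ := goF_sound hD hP hM hk'
  obtain ⟨P, N, cp, cm, h3, h4⟩ := blk3_sound h1 (cs_land15 c) h2
  obtain ⟨P', N', cp', cm', ⟨a, b, eP, eN, ha, hb, h5⟩, h6⟩ := goN_sound hD hB h3 h4
  rw [eP, eN] at h6
  have h8 := cs_land15 (Nat.shiftRight c (nat_lit 4))
  generalize Nat.land (Nat.shiftRight c (nat_lit 4)) 15 = n at h8 ha hb
  refine ⟨a, b, cp', cm', fun j => ?_, fun j => ?_, h5, h6⟩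
  · have := ha j
    omega
  · have := hb j
    omega

private theorem cs_term {x lo hi : ℝ} (h1 : lo ≤ x) (h2 : x ≤ hi) (p r : ℕ) :
    ((p : ℝ) - r) * x ≤ ((p - r : ℕ) : ℝ) * hi - ((r - p : ℕ) : ℝ) * lo := by
  rcases le_total r p with h | h
  · rw [Nat.sub_eq_zero_of_le h, Nat.cast_sub h, Nat.cast_zero, zero_mul, sub_zero]
    have h3 : (r : ℝ) ≤ p := by exact_mod_cast h
    exact mul_le_mul_of_nonneg_left h2 (sub_nonneg.2 h3)
  · rw [Nat.sub_eq_zero_of_le h, Nat.cast_sub h, Nat.cast_zero, zero_mul, zero_sub]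
    have h3 : (p : ℝ) ≤ r := by exact_mod_cast h
    have h4 := mul_le_mul_of_nonneg_left h1 (sub_nonneg.2 h3)
    linarith

private theorem cs_rest {z : ℕ → ℝ} {L H : ℕ} (hB : InB z L H) {a b : ℕ → ℕ}
    (ha : ∀ j, a j < 2 ^ 48) (hb : ∀ j, b j < 2 ^ 48) {k0 : ℕ} {k : ℕ → ℕ → Bool} (n : ℕ) :
    n ≤ 12 → ∀ U V : ℕ, rest L H (pk 48 a) (pk 48 b) k0 k n U V = true →
      ∃ U' V' : ℕ, k U' V' = true ∧
        (∑ j ∈ Finset.range n, (if j = k0 then 0 else ((a j : ℝ) - b j) * z j)) + (U : ℝ) - V ≤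
          (U' : ℝ) - V' := by
  induction n with
  | zero =>
    intro _ U V hk
    exact ⟨U, V, hk, by simp⟩
  | succ n ih =>
    intro hn U V hk
    have hk' : cond (Nat.beq n k0) (rest L H (pk 48 a) (pk 48 b) k0 k n U V)
        (rest L H (pk 48 a) (pk 48 b) k0 k n
          (U + (dh (pk 48 a) n - dh (pk 48 b) n) * dg H n)
          (V + (dh (pk 48 b) n - dh (pk 48 a) n) * dg L n)) = true := hk
    rw [dh_pk a ha (by omega), dh_pk b hb (by omega)] at hk'
    rw [Finset.sum_range_succ]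
    by_cases hnk : n = k0
    · have h1 : Nat.beq n k0 = true := by
        rw [hnk]
        exact Nat.beq_refl k0
      rw [h1] at hk'
      obtain ⟨U', V', h2, h3⟩ := ih (by omega) U V hk'
      refine ⟨U', V', h2, ?_⟩
      rw [if_pos hnk]
      linarith
    · have h1 : Nat.beq n k0 = false := by
        rw [Bool.eq_false_iff]
        intro h
        exact hnk (Nat.eq_of_beq_eq_true h)
      rw [h1] at hk'
      obtain ⟨U', V', h2, h3⟩ := ih (by omega) _ _ hk'
      refine ⟨U', V', h2, ?_⟩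
      rw [if_neg hnk]
      push_cast at h3
      obtain ⟨h4, h5⟩ := hB n (by omega)
      have h6 := cs_term h4 h5 (a n) (b n)
      linarith

private theorem cs_sum {z : ℕ → ℝ} (a b : ℕ → ℕ) (k0 : ℕ) :
    va z a - va z b = (∑ j ∈ Finset.range 12, (if j = k0 then 0 else ((a j : ℝ) - b j) * z j)) +
      (if k0 < 12 then ((a k0 : ℝ) - b k0) * z k0 else 0) := by
  have h1 : va z a - va z b = ∑ j ∈ Finset.range 12, ((a j : ℝ) - b j) * z j := by
    unfold va
    rw [← Finset.sum_sub_distrib]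
    exact Finset.sum_congr rfl fun j _ => by ring
  have h2 : (if k0 < 12 then ((a k0 : ℝ) - b k0) * z k0 else 0) =
      ∑ j ∈ Finset.range 12, (if j = k0 then ((a j : ℝ) - b j) * z j else 0) := by
    rw [Finset.sum_ite_eq']
    simp only [Finset.mem_range]
  rw [h1, h2, ← Finset.sum_add_distrib]
  refine Finset.sum_congr rfl fun j _ => ?_
  by_cases h : j = k0
  · rw [if_pos h, if_pos h, zero_add]
  · rw [if_neg h, if_neg h, add_zero]

theorem close_sound {z : ℕ → ℝ} (hD : Dom z) {L H SP SM : ℕ} (hB : InB z L H) (hP : SgP z SP) (hM : SgM z SM)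
    {c : ℕ} (hk : close C0 c L H SP SM = true) : False := by
  have hk' : (acc C0 c L H SP SM fun P N cp cm =>
    rest L H P N 12 (fun U V => Nat.ble (Nat.succ (U + cp)) (V + cm)) 12 0 0) = true := hk
  obtain ⟨a, b, cp, cm, ha, hb, h1, h2⟩ := cs_acc hD hB hP hM hk'
  obtain ⟨U, V, h3, h4⟩ := cs_rest hB ha hb 12 le_rfl 0 0 h2
  have h5 := Nat.le_of_ble_eq_true h3
  have h6 : ((U : ℝ) + cp) + 1 ≤ V + cm := by exact_mod_cast h5
  have h7 := cs_sum (z := z) a b 12
  rw [if_neg (lt_irrefl 12), add_zero] at h7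
  rw [← h7] at h4
  push_cast at h4
  linarith

private theorem cs_H {z : ℕ → ℝ} {L H k v : ℕ} (hB : InB z L H) (hv : v < 2 ^ 24)
    (h : z k ≤ v) : InB z L (setd H k v) := by
  intro j hj
  rw [dg_setd _ _ _ _ hv]
  by_cases hjk : j = k
  · subst hjk
    rw [if_pos rfl]
    exact ⟨(hB j hj).1, h⟩
  · rw [if_neg hjk]
    exact hB j hj

private theorem cs_L {z : ℕ → ℝ} {L H k v : ℕ} (hB : InB z L H) (hv : v < 2 ^ 24)
    (h : (v : ℝ) ≤ z k) : InB z (setd L k v) H := by
  intro j hj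
  rw [dg_setd _ _ _ _ hv]
  by_cases hjk : j = k
  · subst hjk
    rw [if_pos rfl]
    exact ⟨h, (hB j hj).2⟩
  · rw [if_neg hjk]
    exact hB j hj

private theorem cs_tight {z : ℕ → ℝ} (hD : Dom z) {L H SP SM : ℕ} (hB : InB z L H)
    (hP : SgP z SP) (hM : SgM z SM) {c k0 sd : ℕ} {kk : ℕ → ℕ → Bool}
    (hk : (acc C0 c L H SP SM fun P N cp cm =>
      rest L H P N k0 (fun U V =>
        cond (Nat.beq sd 0)
          (cond (Nat.ble (dh P k0) (dh N k0)) false
            (cond (Nat.ble ((V + cm - (U + cp)) / (dh P k0 - dh N k0)) 65535)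
              (ev (setd L k0 ((V + cm - (U + cp)) / (dh P k0 - dh N k0))) fun L' => kk L' H) false))
          (cond (Nat.ble (dh N k0) (dh P k0)) false
            (cond (Nat.ble ((U + cp - (V + cm)) / (dh N k0 - dh P k0) + 1) 65535)
              (ev (setd H k0 ((U + cp - (V + cm)) / (dh N k0 - dh P k0) + 1)) fun H' => kk L H')
              false)))
        12 0 0) = true) :
    ∃ L' H', InB z L' H' ∧ kk L' H' = true := by
  obtain ⟨a, b, cp, cm, ha, hb, h1, h2⟩ := cs_acc hD hB hP hM hk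
  obtain ⟨U, V, h3, h4⟩ := cs_rest hB ha hb 12 le_rfl 0 0 h2
  have h7 := cs_sum (z := z) a b k0
  by_cases hk0 : k0 < 12
  · rw [if_pos hk0] at h7
    rw [dh_pk a ha hk0, dh_pk b hb hk0] at h3
    push_cast at h4
    by_cases hsd : sd = 0
    · have h5 : Nat.beq sd 0 = true := by rw [hsd]; rfl
      rw [h5] at h3
      obtain ⟨h8, h9⟩ := cs_cond1 (x := cond _ _ false) h3
      obtain ⟨h10, h11⟩ := cs_cond2 h9
      rw [ev_eq] at h11
      have h12 := cs_ble h8
      have h13 := Nat.le_of_ble_eq_true h10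
      refine ⟨_, _, cs_L hB (by omega) ?_, h11⟩
      have hA : (0 : ℝ) < (a k0 : ℝ) - b k0 := sub_pos.2 (by exact_mod_cast h12)
      rcases le_total (V + cm) (U + cp) with h14 | h14
      · rw [Nat.sub_eq_zero_of_le h14, Nat.zero_div, Nat.cast_zero]
        exact (Nat.cast_nonneg _).trans (hB k0 hk0).1
      · have h15 : ((V + cm - (U + cp)) / (a k0 - b k0)) * (a k0 - b k0) ≤ V + cm - (U + cp) :=
          Nat.div_mul_le_self _ _
        have h16 : ((((V + cm - (U + cp)) / (a k0 - b k0) : ℕ) : ℝ)) * ((a k0 : ℝ) - b k0) ≤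
            ((V : ℝ) + cm) - (U + cp) := by
          have h17 : (((((V + cm - (U + cp)) / (a k0 - b k0)) * (a k0 - b k0) : ℕ)) : ℝ) ≤
            ((V + cm - (U + cp) : ℕ) : ℝ) := by exact_mod_cast h15
          rw [Nat.cast_mul, Nat.cast_sub h12.le, Nat.cast_sub h14] at h17
          push_cast at h17
          exact h17
        by_contra hcon
        have h18 := mul_lt_mul_of_pos_right (not_le.1 hcon) hA
        nlinarith
    · have h5 : Nat.beq sd 0 = false := by
        rw [Bool.eq_false_iff]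
        intro h
        exact hsd (Nat.eq_of_beq_eq_true h)
      rw [h5] at h3
      obtain ⟨h8, h9⟩ := cs_cond1 (x := cond _ _ false) h3
      obtain ⟨h10, h11⟩ := cs_cond2 h9
      rw [ev_eq] at h11
      have h12 := cs_ble h8
      have h13 := Nat.le_of_ble_eq_true h10
      refine ⟨_, _, cs_H hB (by omega) ?_, h11⟩
      have hA : (0 : ℝ) < (b k0 : ℝ) - a k0 := sub_pos.2 (by exact_mod_cast h12)
      have h14 : U + cp - (V + cm) < ((U + cp - (V + cm)) / (b k0 - a k0) + 1) * (b k0 - a k0) := by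
        have := Nat.lt_div_mul_add (a := U + cp - (V + cm)) (b := b k0 - a k0) (by omega)
        rw [add_mul, one_mul]
        exact this
      have h15 : ((U : ℝ) + cp) - (V + cm) ≤ ((U + cp - (V + cm) : ℕ) : ℝ) := by
        rcases le_total (V + cm) (U + cp) with h16 | h16
        · rw [Nat.cast_sub h16]
          push_cast
          exact le_rfl
        · rw [Nat.sub_eq_zero_of_le h16]
          have h17 : ((U : ℝ) + cp) ≤ V + cm := by exact_mod_cast h16
          push_cast
          linarith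
      have h16 : ((U + cp - (V + cm) : ℕ) : ℝ) <
          ((((U + cp - (V + cm)) / (b k0 - a k0) + 1 : ℕ)) : ℝ) * ((b k0 : ℝ) - a k0) := by
        rw [← Nat.cast_sub h12.le, ← Nat.cast_mul]
        exact_mod_cast h14
      by_contra hcon
      have h18 := mul_lt_mul_of_pos_right (not_le.1 hcon) hA
      nlinarith
  · rw [dh_pk_ge a ha (not_lt.1 hk0), dh_pk_ge b hb (not_lt.1 hk0)] at h3
    have h8 : Nat.ble 0 0 = true := rfl
    rw [h8] at h3
    cases hbs : Nat.beq sd 0 <;> rw [hbs] at h3 <;> exact absurd h3 (by simp)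

theorem tight_sound {z : ℕ → ℝ} (hD : Dom z) {L H SP SM : ℕ} (hB : InB z L H) (hP : SgP z SP) (hM : SgM z SM)
    {c : ℕ} {kk : ℕ → ℕ → Bool} (hk : tight C0 c L H SP SM kk = true) :
    ∃ L' H', InB z L' H' ∧ kk L' H' = true :=
  cs_tight (k0 := Nat.land (Nat.shiftRight c (nat_lit 8)) (nat_lit 15))
    (sd := Nat.land (Nat.shiftRight c (nat_lit 12)) (nat_lit 1)) hD hB hP hM hk

end Pool.Agent.Work.MP_77d073_nt.Q4.Bb
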