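import Pool.Agent.Work.MP_77d073_nt.Q4.Bb.Sem

/-!
MODULE Bb/Dig (S-M, naturals only).  Digits of packed numbers.

Hints: `dg x k` is by definition `(x >>> (24 * k)) % 16777216` (raw literals; `dg_eq` by `unfold dg; show
(x >>> (24 * k)) % 16777216 = _; rw [Nat.shiftRight_eq_div_pow]`).  `Nat.land x y` is `x &&& y`; digits of `&&&`:
`Nat.eq_of_testBit_eq`, `Nat.testBit_mod_two_pow`, `Nat.testBit_shiftRight`.  `pk`: induction on the number of digits
(generalize 12), or expand the twelve summands and use `Nat.add_mul_div_left`, `Nat.add_mul_mod_self_left`, `omega`.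
`setd X k v = X + v * 2^(24 k) - dg X k * 2^(24 k)`; write `X = r + 2^(24 k) * (d + 2^24 * q)` with `r < 2^(24 k)`,
`d = dg X k < 2^24`; the result is `r + 2^(24 k) * (v + 2^24 * q)`; for `j < k` compare modulo, for `j > k` divide.
-/

set_option autoImplicit false

namespace Pool.Agent.Work.MP_77d073_nt.Q4.Bb

theorem dg_eq (x k : ℕ) : dg x k = x / 2 ^ (24 * k) % 2 ^ 24 := by
  unfold dg
  show (x >>> (24 * k)) % 16777216 = _
  rw [Nat.shiftRight_eq_div_pow]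
  norm_num

theorem dh_eq (x k : ℕ) : dh x k = x / 2 ^ (48 * k) % 2 ^ 48 := by
  unfold dh
  show (x >>> (48 * k)) % 281474976710656 = _
  rw [Nat.shiftRight_eq_div_pow]
  norm_num

theorem at_eq (m k : ℕ) : at_ m k = m * 2 ^ (48 * k) := by
  unfold at_
  show m <<< (48 * k) = _
  rw [Nat.shiftLeft_eq]

theorem dg_lt (x k : ℕ) : dg x k < 2 ^ 24 := by
  rw [dg_eq]
  exact Nat.mod_lt _ (by positivity)

private theorem dig_lt (W : ℕ) (a : ℕ → ℕ) (h : ∀ k, a k < 2 ^ W) (n : ℕ) :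
    ∑ k ∈ Finset.range n, a k * 2 ^ (W * k) < 2 ^ (W * n) := by
  induction n with
  | zero => simp
  | succ n ih =>
    rw [Finset.sum_range_succ, Nat.mul_succ, pow_add]
    have h1 : a n + 1 ≤ 2 ^ W := h n
    have h2 : (a n + 1) * 2 ^ (W * n) ≤ 2 ^ W * 2 ^ (W * n) := Nat.mul_le_mul_right _ h1
    have h3 : (a n + 1) * 2 ^ (W * n) = a n * 2 ^ (W * n) + 2 ^ (W * n) := by ring
    have h4 : 2 ^ W * 2 ^ (W * n) = 2 ^ (W * n) * 2 ^ W := by ring
    omega

/-- a low digit does not see a high multiple -/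
private theorem dig_low (W r m : ℕ) {j k : ℕ} (h : j < k) :
    (r + 2 ^ (W * k) * m) / 2 ^ (W * j) % 2 ^ W = r / 2 ^ (W * j) % 2 ^ W := by
  obtain ⟨d, rfl⟩ := Nat.exists_eq_add_of_lt h
  have h1 : r + 2 ^ (W * (j + d + 1)) * m = r + 2 ^ (W * j) * (2 ^ W * (2 ^ (W * d) * m)) := by
    rw [show W * (j + d + 1) = W * j + (W + W * d) by ring, pow_add, pow_add]
    ring
  rw [h1, Nat.add_mul_div_left _ _ (by positivity), Nat.add_mul_mod_self_left]

private theorem dig_sum (W : ℕ) (a : ℕ → ℕ) (h : ∀ k, a k < 2 ^ W) (n : ℕ) {k : ℕ} (hk : k < n) :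
    (∑ k ∈ Finset.range n, a k * 2 ^ (W * k)) / 2 ^ (W * k) % 2 ^ W = a k := by
  induction n with
  | zero => omega
  | succ n ih =>
    rw [Finset.sum_range_succ, mul_comm (a n)]
    rcases Nat.lt_succ_iff_lt_or_eq.1 hk with h1 | h1
    · rw [dig_low W _ _ h1, ih h1]
    · subst h1
      rw [Nat.add_mul_div_left _ _ (by positivity), Nat.div_eq_of_lt (dig_lt W a h k), zero_add,
        Nat.mod_eq_of_lt (h k)]

theorem dg_pk (a : ℕ → ℕ) (h : ∀ k, a k < 2 ^ 24) {k : ℕ} (hk : k < 12) : dg (pk 24 a) k = a k := by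
  rw [dg_eq]
  exact dig_sum 24 a h 12 hk

theorem dh_pk (a : ℕ → ℕ) (h : ∀ k, a k < 2 ^ 48) {k : ℕ} (hk : k < 12) : dh (pk 48 a) k = a k := by
  rw [dh_eq]
  exact dig_sum 48 a h 12 hk

theorem dh_pk_ge (a : ℕ → ℕ) (h : ∀ k, a k < 2 ^ 48) {k : ℕ} (hk : 12 ≤ k) : dh (pk 48 a) k = 0 := by
  rw [dh_eq]
  have h1 : pk 48 a < 2 ^ (48 * k) :=
    (dig_lt 48 a h 12).trans_le (Nat.pow_le_pow_right (by norm_num) (Nat.mul_le_mul_left _ hk))
  rw [Nat.div_eq_of_lt h1, Nat.zero_mod]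

theorem dg_shift (x m k : ℕ) : dg (Nat.shiftRight x (24 * m)) k = dg x (m + k) := by
  rw [dg_eq, dg_eq]
  show (x >>> (24 * m)) / 2 ^ (24 * k) % 2 ^ 24 = _
  rw [Nat.shiftRight_eq_div_pow, Nat.div_div_eq_div_mul, ← pow_add, ← Nat.mul_add]

theorem dg_land (x y k : ℕ) : dg (Nat.land x y) k = Nat.land (dg x k) (dg y k) := by
  rw [dg_eq, dg_eq, dg_eq]
  show (x &&& y) / 2 ^ (24 * k) % 2 ^ 24 = (x / 2 ^ (24 * k) % 2 ^ 24) &&& (y / 2 ^ (24 * k) % 2 ^ 24)
  rw [← Nat.shiftRight_eq_div_pow, ← Nat.shiftRight_eq_div_pow, ← Nat.shiftRight_eq_div_pow]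
  apply Nat.eq_of_testBit_eq
  intro i
  simp only [Nat.testBit_mod_two_pow, Nat.testBit_and, Nat.testBit_shiftRight]
  by_cases h : i < 24 <;> simp [h]

private theorem setd_eq (X k v : ℕ) :
    setd X k v = X % 2 ^ (24 * k) +
      2 ^ (24 * k) * (v + 2 ^ 24 * (X / 2 ^ (24 * k) / 2 ^ 24)) := by
  unfold setd
  show X + v <<< (24 * k) - (dg X k) <<< (24 * k) = _
  rw [Nat.shiftLeft_eq, Nat.shiftLeft_eq, dg_eq]
  set P := 2 ^ (24 * k) with hP
  have h1 : P * (X / P) + X % P = X := Nat.div_add_mod X P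
  have h2 : 2 ^ 24 * (X / P / 2 ^ 24) + X / P % 2 ^ 24 = X / P := Nat.div_add_mod (X / P) (2 ^ 24)
  have h3 : P * (X / P) = P * (2 ^ 24 * (X / P / 2 ^ 24)) + X / P % 2 ^ 24 * P := by
    conv_lhs => rw [← h2]
    ring
  have h4 : P * (v + 2 ^ 24 * (X / P / 2 ^ 24)) = v * P + P * (2 ^ 24 * (X / P / 2 ^ 24)) := by ring
  rw [h4]
  generalize P * (2 ^ 24 * (X / P / 2 ^ 24)) = u at h3 ⊢
  generalize P * (X / P) = w at h1 h3
  generalize X / P % 2 ^ 24 * P = d at h3 ⊢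
  generalize X % P = r at h1 ⊢
  generalize v * P = e
  omega

private theorem self_eq (X k : ℕ) :
    X = X % 2 ^ (24 * k) +
      2 ^ (24 * k) * (dg X k + 2 ^ 24 * (X / 2 ^ (24 * k) / 2 ^ 24)) := by
  rw [dg_eq, Nat.mod_add_div (X / 2 ^ (24 * k)) (2 ^ 24), Nat.mod_add_div]

private theorem dig_high (r v q k j : ℕ) (hr : r < 2 ^ (24 * k)) (hv : v < 2 ^ 24) (h : k < j) :
    dg (r + 2 ^ (24 * k) * (v + 2 ^ 24 * q)) j = q / 2 ^ (24 * (j - k - 1)) % 2 ^ 24 := by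
  obtain ⟨d, rfl⟩ := Nat.exists_eq_add_of_lt h
  rw [dg_eq, show k + d + 1 - k - 1 = d by omega,
    show 24 * (k + d + 1) = 24 * k + (24 + 24 * d) by ring, pow_add, pow_add,
    ← Nat.div_div_eq_div_mul, ← Nat.div_div_eq_div_mul,
    Nat.add_mul_div_left _ _ (by positivity), Nat.div_eq_of_lt hr, zero_add,
    Nat.add_mul_div_left _ _ (by positivity), Nat.div_eq_of_lt hv, zero_add]

theorem dg_setd (X k v j : ℕ) (hv : v < 2 ^ 24) : dg (setd X k v) j = if j = k then v else dg X j := by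
  have hr : X % 2 ^ (24 * k) < 2 ^ (24 * k) := Nat.mod_lt _ (by positivity)
  rw [setd_eq]
  split_ifs with h
  · subst h
    rw [dg_eq, Nat.add_mul_div_left _ _ (by positivity), Nat.div_eq_of_lt hr, zero_add,
      Nat.add_mul_mod_self_left, Nat.mod_eq_of_lt hv]
  · conv_rhs => rw [self_eq X k]
    rcases Nat.lt_or_gt_of_ne h with h1 | h1
    · rw [dg_eq, dg_eq, dig_low 24 _ _ h1, dig_low 24 _ _ h1]
    · rw [dig_high _ _ _ _ _ hr hv h1, dig_high _ _ _ _ _ hr (dg_lt X k) h1]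

theorem four_dig (x : ℕ) (h : x < 2 ^ 96) :
    x = dg x 0 + dg x 1 * 2 ^ 24 + dg x 2 * 2 ^ 48 + dg x 3 * 2 ^ 72 := by
  rw [dg_eq, dg_eq, dg_eq, dg_eq]
  norm_num at h ⊢
  omega

theorem ev_eq (n : ℕ) (k : ℕ → Bool) : ev n k = k n := by
  cases n with
  | zero => rfl
  | succ n => rfl

theorem pk_add (W : ℕ) (a b : ℕ → ℕ) : pk W (fun k => a k + b k) = pk W a + pk W b := by
  unfold pk
  rw [← Finset.sum_add_distrib]
  refine Finset.sum_congr rfl fun k _ => ?_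
  ring

theorem pk_single (W m : ℕ) {x : ℕ} (hx : x < 12) : pk W (fun k => if k = x then m else 0) = m * 2 ^ (W * x) := by
  unfold pk
  rw [Finset.sum_eq_single x]
  · simp only [if_true]
  · intro b _ hb
    simp only [if_neg hb, zero_mul]
  · intro h
    exact absurd (Finset.mem_range.2 hx) h

theorem va_add (z : ℕ → ℝ) (a b : ℕ → ℕ) : va z (fun k => a k + b k) = va z a + va z b := by
  unfold va
  rw [← Finset.sum_add_distrib]
  refine Finset.sum_congr rfl fun k _ => ?_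
  push_cast
  ring

theorem va_single (z : ℕ → ℝ) (m : ℕ) {x : ℕ} (hx : x < 12) :
    va z (fun k => if k = x then m else 0) = (m : ℝ) * z x := by
  unfold va
  rw [Finset.sum_eq_single x]
  · simp only [if_true]
  · intro b _ hb
    simp only [if_neg hb, Nat.cast_zero, zero_mul]
  · intro h
    exact absurd (Finset.mem_range.2 hx) h

end Pool.Agent.Work.MP_77d073_nt.Q4.Bb
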