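import Pool.Agent.Work.MP_77d073_nt.Q4.Bb.FStp

/-!
MODULE Bb/FAll (S-M).  Soundness of all linear entries, and conversion to coordinates.

`goF_sound`: induction on `n` (`goF ... (n+1) = fS ... (goF ... n)` by `rfl`), using `fS_sound`; the start value is
`IF z 0 0 0 0` with `a = b = 0`.

`blk3_sound`.  `addblk PF NF j P N cp cm k` is by `rfl` equal to `k (P + (pu + (pv <<< 48 + pw <<< 96)) <<< (144 j + 12))
...` with `pu = a1 + a2 + (b3 + b4)` etc., where `a1, ..., a4` are the digits `4 j, ..., 4 j + 3` of `PF` (`dg_shift`: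
`PF >>> (96 j)`, `96 j = 24 (4 j)`) and `b1, ..., b4` those of `NF`; by `dg_pk` (bounds `n * 2^17 < 2^24`) they are the
coefficients `a`, `b` of `IF`.  The new packed vector has the coefficient `4096 pu` at `3 j`, `4096 pv` at `3 j + 1`,
`4096 pw` at `3 j + 2` (`2^12 * 2^(144 j) = 2^12 * 2^(48 * 3 j)`), all `< 2^12 * 2^26 = 2^38`.  The value: for each `j`,
`Σ_{i<4} (a_{4j+i} - b_{4j+i}) Y z j i = (pu - nu) (z (3j) - 32768) + (pv - nv) (z (3j+1) - 32768) + (pw - nw)
(z (3j+2) - 32768)` by the definition of `Y` (`ring`); multiply by `4096`; `4096 * 32768 = 134217728`.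
-/

set_option autoImplicit false

namespace Pool.Agent.Work.MP_77d073_nt.Q4.Bb

private theorem fa_go {z : ℕ → ℝ} (hD : Dom z) {SP SM : ℕ} (hP : SgP z SP) (hM : SgM z SM) {c : ℕ}
    {k : ℕ → ℕ → ℕ → Bool} (n : ℕ) : ∀ m PF NF lam : ℕ, IF z m PF NF lam →
      goF c SP SM k n PF NF lam = true →
      ∃ PF' NF' lam', IF z (m + n) PF' NF' lam' ∧ k PF' NF' lam' = true := by
  induction n with
  | zero =>
    intro m PF NF lam h hk
    exact ⟨PF, NF, lam, h, hk⟩
  | succ n ih =>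
    intro m PF NF lam h hk
    have hk' : fS SP SM (Nat.shiftRight c (Nat.mul (nat_lit 120) n)) PF NF lam
        (goF c SP SM k n) = true := hk
    obtain ⟨PF', NF', lam', h1, h2⟩ := fS_sound hD hP hM h hk'
    have h3 := ih (m + 1) PF' NF' lam' h1 h2
    rwa [show m + 1 + n = m + (n + 1) by omega] at h3

theorem goF_sound {z : ℕ → ℝ} (hD : Dom z) {SP SM : ℕ} (hP : SgP z SP) (hM : SgM z SM) {c : ℕ}
    {k : ℕ → ℕ → ℕ → Bool} {n : ℕ} (hk : goF c SP SM k n 0 0 0 = true) :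
    ∃ PF NF lam, IF z n PF NF lam ∧ k PF NF lam = true := by
  have h0 : IF z 0 0 0 0 := by
    refine ⟨fun _ => 0, fun _ => 0, ?_, ?_, ?_, ?_, ?_⟩
    · simp [pk]
    · simp [pk]
    · intro k
      exact Nat.zero_le _
    · intro k
      exact Nat.zero_le _
    · simp
  have h := fa_go hD hP hM n 0 0 0 0 h0 hk
  rwa [Nat.zero_add] at h

private theorem fa_dg {a : ℕ → ℕ} (ha : ∀ k, a k < 2 ^ 24) {j : ℕ} (hj : j < 3) {i : ℕ}
    (hi : i < 4) : dg (Nat.shiftRight (pk 24 a) (Nat.mul 96 j)) i = a (4 * j + i) := by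
  have h : Nat.mul 96 j = 24 * (4 * j) := by
    show 96 * j = 24 * (4 * j)
    omega
  rw [h, dg_shift, dg_pk a ha (by omega)]

private theorem fa_blk {a b : ℕ → ℕ} (ha : ∀ k, a k < 2 ^ 24) (hb : ∀ k, b k < 2 ^ 24) {j : ℕ}
    (hj : j < 3) (P N cp cm : ℕ) (k : ℕ → ℕ → ℕ → ℕ → Bool) :
    addblk (pk 24 a) (pk 24 b) j P N cp cm k =
      k (P + ((a (4 * j + 0) + a (4 * j + 1) + (b (4 * j + 2) + b (4 * j + 3))) +
            ((a (4 * j + 0) + a (4 * j + 2) + (b (4 * j + 1) + b (4 * j + 3))) * 2 ^ 48 +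
            (a (4 * j + 0) + a (4 * j + 3) + (b (4 * j + 1) + b (4 * j + 2))) * 2 ^ 96)) *
            2 ^ (144 * j + 12))
        (N + ((b (4 * j + 0) + b (4 * j + 1) + (a (4 * j + 2) + a (4 * j + 3))) +
            ((b (4 * j + 0) + b (4 * j + 2) + (a (4 * j + 1) + a (4 * j + 3))) * 2 ^ 48 +
            (b (4 * j + 0) + b (4 * j + 3) + (a (4 * j + 1) + a (4 * j + 2))) * 2 ^ 96)) *
            2 ^ (144 * j + 12))
        (cp + 134217728 * ((b (4 * j + 0) + b (4 * j + 1) + (a (4 * j + 2) + a (4 * j + 3))) +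
            ((b (4 * j + 0) + b (4 * j + 2) + (a (4 * j + 1) + a (4 * j + 3))) +
            (b (4 * j + 0) + b (4 * j + 3) + (a (4 * j + 1) + a (4 * j + 2))))))
        (cm + 134217728 * ((a (4 * j + 0) + a (4 * j + 1) + (b (4 * j + 2) + b (4 * j + 3))) +
            ((a (4 * j + 0) + a (4 * j + 2) + (b (4 * j + 1) + b (4 * j + 3))) +
            (a (4 * j + 0) + a (4 * j + 3) + (b (4 * j + 1) + b (4 * j + 2)))))) := by
  rw [← fa_dg ha hj (i := 0) (by norm_num), ← fa_dg ha hj (i := 1) (by norm_num),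
    ← fa_dg ha hj (i := 2) (by norm_num), ← fa_dg ha hj (i := 3) (by norm_num),
    ← fa_dg hb hj (i := 0) (by norm_num), ← fa_dg hb hj (i := 1) (by norm_num),
    ← fa_dg hb hj (i := 2) (by norm_num), ← fa_dg hb hj (i := 3) (by norm_num),
    ← Nat.shiftLeft_eq, ← Nat.shiftLeft_eq, ← Nat.shiftLeft_eq, ← Nat.shiftLeft_eq,
    ← Nat.shiftLeft_eq, ← Nat.shiftLeft_eq]
  rfl

set_option exponentiation.threshold 1000 in
theorem blk3_sound {z : ℕ → ℝ} {PF NF lam n : ℕ} (h : IF z n PF NF lam) (hn : n < 16)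
    {k : ℕ → ℕ → ℕ → ℕ → Bool}
    (hk : (addblk PF NF 0 0 0 0 (Nat.mul lam 134217728) fun P N cp cm => addblk PF NF 1 P N cp cm
      fun P N cp cm => addblk PF NF 2 P N cp cm k) = true) :
    ∃ P N cp cm, IA z (2 ^ 38) P N cp cm ∧ k P N cp cm = true := by
  obtain ⟨a, b, rfl, rfl, ha, hb, hlam⟩ := h
  have hn' : n * 2 ^ 17 < 2 ^ 21 := by omega
  have ha' : ∀ k, a k < 2 ^ 21 := fun k => (ha k).trans_lt hn'
  have hb' : ∀ k, b k < 2 ^ 21 := fun k => (hb k).trans_lt hn'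
  have ha2 : ∀ k, a k < 2 ^ 24 := fun k => (ha' k).trans (by norm_num)
  have hb2 : ∀ k, b k < 2 ^ 24 := fun k => (hb' k).trans (by norm_num)
  rw [fa_blk ha2 hb2 (by norm_num), fa_blk ha2 hb2 (by norm_num), fa_blk ha2 hb2 (by norm_num)]
    at hk
  refine ⟨_, _, _, _, ?_, hk⟩
  refine ⟨fun k => if 9 ≤ k then 0 else
      4096 * (if k % 3 = 0 then a (4 * (k / 3) + 0) + a (4 * (k / 3) + 1) +
          (b (4 * (k / 3) + 2) + b (4 * (k / 3) + 3))
        else if k % 3 = 1 then a (4 * (k / 3) + 0) + a (4 * (k / 3) + 2) +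
          (b (4 * (k / 3) + 1) + b (4 * (k / 3) + 3))
        else a (4 * (k / 3) + 0) + a (4 * (k / 3) + 3) +
          (b (4 * (k / 3) + 1) + b (4 * (k / 3) + 2))),
    fun k => if 9 ≤ k then 0 else
      4096 * (if k % 3 = 0 then b (4 * (k / 3) + 0) + b (4 * (k / 3) + 1) +
          (a (4 * (k / 3) + 2) + a (4 * (k / 3) + 3))
        else if k % 3 = 1 then b (4 * (k / 3) + 0) + b (4 * (k / 3) + 2) +
          (a (4 * (k / 3) + 1) + a (4 * (k / 3) + 3))
        else b (4 * (k / 3) + 0) + b (4 * (k / 3) + 3) +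
          (a (4 * (k / 3) + 1) + a (4 * (k / 3) + 2))), ?_, ?_, ?_, ?_, ?_⟩
  · unfold pk
    simp only [Finset.sum_range_succ, Finset.sum_range_zero]
    norm_num
    ring
  · unfold pk
    simp only [Finset.sum_range_succ, Finset.sum_range_zero]
    norm_num
    ring
  · intro k
    have h0 := ha' (4 * (k / 3) + 0)
    have h1 := ha' (4 * (k / 3) + 1)
    have h2 := ha' (4 * (k / 3) + 2)
    have h3 := ha' (4 * (k / 3) + 3)
    have g0 := hb' (4 * (k / 3) + 0)
    have g1 := hb' (4 * (k / 3) + 1)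
    have g2 := hb' (4 * (k / 3) + 2)
    have g3 := hb' (4 * (k / 3) + 3)
    dsimp only
    split_ifs <;> omega
  · intro k
    have h0 := ha' (4 * (k / 3) + 0)
    have h1 := ha' (4 * (k / 3) + 1)
    have h2 := ha' (4 * (k / 3) + 2)
    have h3 := ha' (4 * (k / 3) + 3)
    have g0 := hb' (4 * (k / 3) + 0)
    have g1 := hb' (4 * (k / 3) + 1)
    have g2 := hb' (4 * (k / 3) + 2)
    have g3 := hb' (4 * (k / 3) + 3)
    dsimp only
    split_ifs <;> omega
  · simp only [Finset.sum_range_succ, Finset.sum_range_zero] at hlam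
    norm_num [Y] at hlam
    unfold va
    simp only [Finset.sum_range_succ, Finset.sum_range_zero]
    have hm : (Nat.mul lam 134217728 : ℕ) = lam * 134217728 := rfl
    rw [hm]
    norm_num
    nlinarith [hlam]

end Pool.Agent.Work.MP_77d073_nt.Q4.Bb
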