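import Pool.Agent.Work.MP_77d073_nt.Q4.Bb.Sem

/-!
MODULE Bb/Geo (S, Mathlib only).  The inequality of the arithmetic and geometric mean for four numbers.

Proof.  Put `w_i = al_i |T_i| ≥ 0`.  `(w0 + w1 + w2 + w3)^4 ≥ 256 w0 w1 w2 w3` (from `(a + b)^2 ≥ 4 a b` three times), and
`w0 w1 w2 w3 = (∏ al) |∏ T| ≥ lam^4 * 8192^4`.  As `256 * 8192^4 = 32768^4`, `(sum)^4 ≥ (32768 lam)^4`, and `sum ≥ 0`
(`pow_le_pow_left` / `le_of_pow_le_pow_left`).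
-/

set_option autoImplicit false

namespace Pool.Agent.Work.MP_77d073_nt.Q4.Bb

private theorem am4 {a b c d : ℝ} (ha : 0 ≤ a) (hb : 0 ≤ b) (hc : 0 ≤ c) (hd : 0 ≤ d) :
    256 * (a * b * c * d) ≤ (a + b + c + d) ^ 4 := by
  have h1 : 4 * (a * b) ≤ (a + b) ^ 2 := by nlinarith [sq_nonneg (a - b)]
  have h2 : 4 * (c * d) ≤ (c + d) ^ 2 := by nlinarith [sq_nonneg (c - d)]
  have h3 : 4 * ((a + b) * (c + d)) ≤ (a + b + c + d) ^ 2 := by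
    nlinarith [sq_nonneg (a + b - (c + d))]
  have h4 : (4 * (a * b)) * (4 * (c * d)) ≤ (a + b) ^ 2 * (c + d) ^ 2 :=
    mul_le_mul h1 h2 (by positivity) (by positivity)
  have h5 : (4 * ((a + b) * (c + d))) ^ 2 ≤ ((a + b + c + d) ^ 2) ^ 2 :=
    pow_le_pow_left₀ (by positivity) h3 2
  have e1 : ((a + b + c + d) ^ 2) ^ 2 = (a + b + c + d) ^ 4 := by ring
  have e2 : (4 * ((a + b) * (c + d))) ^ 2 = 16 * ((a + b) ^ 2 * (c + d) ^ 2) := by ring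
  have e3 : (4 * (a * b)) * (4 * (c * d)) = 16 * (a * b * c * d) := by ring
  rw [e1, e2] at h5
  rw [e3] at h4
  linarith

theorem geo {T0 T1 T2 T3 : ℝ} (hT : (8192 : ℝ) ^ 4 ≤ |T0 * T1 * T2 * T3|) {a0 a1 a2 a3 lam : ℕ}
    (hl : lam ^ 4 ≤ a0 * a1 * (a2 * a3)) :
    (32768 : ℝ) * lam ≤ a0 * |T0| + a1 * |T1| + a2 * |T2| + a3 * |T3| := by
  have h0 : (0 : ℝ) ≤ a0 * |T0| := mul_nonneg (Nat.cast_nonneg _) (abs_nonneg _)
  have h1 : (0 : ℝ) ≤ a1 * |T1| := mul_nonneg (Nat.cast_nonneg _) (abs_nonneg _)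
  have h2 : (0 : ℝ) ≤ a2 * |T2| := mul_nonneg (Nat.cast_nonneg _) (abs_nonneg _)
  have h3 : (0 : ℝ) ≤ a3 * |T3| := mul_nonneg (Nat.cast_nonneg _) (abs_nonneg _)
  have hl' : (lam : ℝ) ^ 4 ≤ a0 * a1 * (a2 * a3) := by exact_mod_cast hl
  have hp : ((32768 : ℝ) * lam) ^ 4 ≤
      256 * ((a0 * |T0|) * (a1 * |T1|) * (a2 * |T2|) * (a3 * |T3|)) := by
    have e1 : (a0 * |T0|) * (a1 * |T1|) * (a2 * |T2|) * (a3 * |T3|) =
        (a0 * a1 * (a2 * a3) : ℝ) * |T0 * T1 * T2 * T3| := by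
      rw [abs_mul, abs_mul, abs_mul]
      ring
    rw [e1]
    have e2 : ((32768 : ℝ) * lam) ^ 4 = 256 * ((lam : ℝ) ^ 4 * (8192 : ℝ) ^ 4) := by
      ring
    rw [e2]
    have h4 : (0 : ℝ) ≤ (lam : ℝ) ^ 4 := by positivity
    have h5 : (lam : ℝ) ^ 4 * (8192 : ℝ) ^ 4 ≤ (a0 * a1 * (a2 * a3) : ℝ) * |T0 * T1 * T2 * T3| :=
      mul_le_mul hl' hT (by positivity) (h4.trans hl')
    linarith
  have hq := am4 h0 h1 h2 h3
  exact le_of_pow_le_pow_left₀ (by norm_num) (by linarith) (hp.trans hq)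

end Pool.Agent.Work.MP_77d073_nt.Q4.Bb
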