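import Pool.Agent.Work.MP_77d073_nt.Q4.Bb.Dig
import Pool.Agent.Work.MP_77d073_nt.Q4.Bb.Geo

/-!
MODULE Bb/FStp (M).  Soundness of one linear entry `fS`.

Proof.  `fS SP SM e PF NF lam k` is, by definition (`rfl`), with `t = e &&& 15`, `al = (e >>> 20) &&& M16`,
`lm = (e >>> 4) &&& 65535`, `ap = al &&& (SP >>> (96 t))`, `am = al &&& (SM >>> (96 t))`,
`pp = (TP >>> (288 t)) % 2^288`, `pn = (TN >>> (288 t)) % 2^288`: two tests `ap + am = al`,
`lm^4 ≤ dg al 0 * dg al 1 * (dg al 2 * dg al 3)`, then `k (PF + (ap pp + am pn)) (NF + (ap pn + am pp)) (lam + lm)`.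
As the result is `true`, both tests succeed.

(1) `t < 16`.  By `decide` (or `interval_cases t <;> decide`): for `t < 16`, `pp = Σ_{j<3} (if pv t j = 1 then 1 else 0)
2^(96 j)`, `pn = Σ_{j<3} (if pv t j = -1 then 1 else 0) 2^(96 j)` (`pv t j = 0` for `t ≥ 13`), `pv t j ∈ {0, 1, -1}`.
(2) Digits: `al < 2^88`, every digit of `al` is `< 2^16` (land with `65535`), hence so are the digits of `ap`, `am`
(`Nat.land x y ≤ x`), and `ap, am < 2^96`; digit `i < 4` of `SP >>> (96 t)` is `dg SP (4 t + i)` (`dg_shift`, 96 = 24 * 4).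
From `ap + am = al`: `dg ap i + dg am i = dg al i` for `i < 4` (`four_dig`, no carry, `omega`).
(3) If `dg ap i ≠ 0` then `dg SP (4 t + i) ≠ 0`, so `4 t + i < 52` and `0 ≤ tau z t i`; the same for `am`, `SM`,
`tau z t i ≤ 0`.  Hence `(dg al i) |tau z t i| ≤ (dg ap i) tau z t i - (dg am i) tau z t i`.
(4) If `t < 13`: `geo` with `hD.F t` gives `32768 lm ≤ Σ_i (dg ap i - dg am i) tau z t i`.  If `t ≥ 13`: all digits of
`ap`, `am` are `0`, so `al = 0`, `lm = 0` and both sides are `0` (`pv t j = 0`).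
(5) The new packed coefficients: `a'_{4 j + i} = a_{4 j + i} + (if pv t j = 1 then dg ap i else 0) + (if pv t j = -1
then dg am i else 0)`, `b'_{4 j + i}` the same with `ap`, `am` exchanged; indeed `ap * 2^(96 j)` is
`Σ_i dg ap i 2^(24 (4 j + i))`.  The increments are `< 2^17`.  And
`Σ_q (increment of a - increment of b) Y z (q/4) (q%4) = Σ_{i<4} (dg ap i - dg am i) tau z t i`.
-/

set_option autoImplicit false

namespace Pool.Agent.Work.MP_77d073_nt.Q4.Bb

private def cP (t j : ℕ) : ℕ := if pv t j = 1 then 1 else 0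

private def cN (t j : ℕ) : ℕ := if pv t j = -1 then 1 else 0

private theorem cP_le (t j : ℕ) : cP t j ≤ 1 := by
  unfold cP
  split_ifs <;> omega

private theorem cN_le (t j : ℕ) : cN t j ≤ 1 := by
  unfold cN
  split_ifs <;> omega

private theorem TP_dig : ∀ t, t < 16 →
    Nat.mod (Nat.shiftRight TP (Nat.mul 288 t)) (Nat.pow 2 288) =
      cP t 0 + cP t 1 * 2 ^ 96 + cP t 2 * 2 ^ 192 := by
  decide +kernel

private theorem TN_dig : ∀ t, t < 16 →
    Nat.mod (Nat.shiftRight TN (Nat.mul 288 t)) (Nat.pow 2 288) =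
      cN t 0 + cN t 1 * 2 ^ 96 + cN t 2 * 2 ^ 192 := by
  decide +kernel

private theorem pv_eq : ∀ t, t < 16 → ∀ j, j < 3 → pv t j = (cP t j : ℤ) - (cN t j : ℤ) := by
  decide +kernel

private theorem land_le_left (x y : ℕ) : Nat.land x y ≤ x := Nat.and_le_left

private theorem land_le_right (x y : ℕ) : Nat.land x y ≤ y := Nat.and_le_right

private theorem M16_dig : ∀ i, i < 4 → dg M16 i = 65535 := by decide +kernel

/-- one form -/
private theorem one_form {T A B : ℝ} (h1 : A ≠ 0 → 0 ≤ T)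
    (h2 : B ≠ 0 → T ≤ 0) : (A + B) * |T| ≤ (A - B) * T := by
  by_cases hA0 : A = 0
  · by_cases hB0 : B = 0
    · rw [hA0, hB0]
      simp
    · rw [hA0, abs_of_nonpos (h2 hB0)]
      linarith
  · by_cases hB0 : B = 0
    · rw [hB0, abs_of_nonneg (h1 hA0)]
      linarith
    · have h3 : T = 0 := le_antisymm (h2 hB0) (h1 hA0)
      rw [h3]
      simp

theorem fS_sound {z : ℕ → ℝ} (hD : Dom z) {SP SM : ℕ} (hP : SgP z SP) (hM : SgM z SM) {e PF NF lam n : ℕ}
    {k : ℕ → ℕ → ℕ → Bool} (h : IF z n PF NF lam) (hk : fS SP SM e PF NF lam k = true) :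
    ∃ PF' NF' lam', IF z (n + 1) PF' NF' lam' ∧ k PF' NF' lam' = true := by
  obtain ⟨t, ht⟩ : ∃ t, t = Nat.land e 15 := ⟨_, rfl⟩
  obtain ⟨al, hal⟩ : ∃ al, al = Nat.land (Nat.shiftRight e 20) M16 := ⟨_, rfl⟩
  obtain ⟨lm, hlm⟩ : ∃ lm, lm = Nat.land (Nat.shiftRight e 4) 65535 := ⟨_, rfl⟩
  obtain ⟨ap, hap⟩ : ∃ ap, ap = Nat.land al (Nat.shiftRight SP (Nat.mul 96 t)) := ⟨_, rfl⟩
  obtain ⟨am, ham⟩ : ∃ am, am = Nat.land al (Nat.shiftRight SM (Nat.mul 96 t)) := ⟨_, rfl⟩
  obtain ⟨pp, hpp⟩ : ∃ pp, pp = Nat.mod (Nat.shiftRight TP (Nat.mul 288 t)) (Nat.pow 2 288) :=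
    ⟨_, rfl⟩
  obtain ⟨pn, hpn⟩ : ∃ pn, pn = Nat.mod (Nat.shiftRight TN (Nat.mul 288 t)) (Nat.pow 2 288) :=
    ⟨_, rfl⟩
  have hk1 : cond (Nat.beq (ap + am) al)
      (cond (Nat.ble (lm ^ 4) (dg al 0 * dg al 1 * (dg al 2 * dg al 3)))
        (k (PF + (ap * pp + am * pn)) (NF + (ap * pn + am * pp)) (lam + lm)) false) false = true := by
    rw [hpp, hpn, hap, ham, hlm, hal, ht]
    exact hk
  rcases hb1 : Nat.beq (ap + am) al with _ | _
  · rw [hb1] at hk1
    exact absurd hk1 Bool.false_ne_true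
  rw [hb1] at hk1
  change cond (Nat.ble (lm ^ 4) (dg al 0 * dg al 1 * (dg al 2 * dg al 3)))
        (k (PF + (ap * pp + am * pn)) (NF + (ap * pn + am * pp)) (lam + lm)) false = true at hk1
  rcases hb2 : Nat.ble (lm ^ 4) (dg al 0 * dg al 1 * (dg al 2 * dg al 3)) with _ | _
  · rw [hb2] at hk1
    exact absurd hk1 Bool.false_ne_true
  rw [hb2] at hk1
  have hsum : ap + am = al := Nat.eq_of_beq_eq_true hb1
  have hpow : lm ^ 4 ≤ dg al 0 * dg al 1 * (dg al 2 * dg al 3) := Nat.le_of_ble_eq_true hb2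
  have ht16 : t < 16 := by
    rw [ht]
    exact Nat.lt_succ_of_le (land_le_right e 15)
  have hTP := TP_dig t ht16
  have hTN := TN_dig t ht16
  rw [← hpp] at hTP
  rw [← hpn] at hTN
  have hal96 : al < 2 ^ 96 := by
    rw [hal]
    exact lt_of_le_of_lt (land_le_right _ _) (by decide +kernel)
  have hap96 : ap < 2 ^ 96 := by
    rw [hap]
    exact lt_of_le_of_lt (land_le_left _ _) hal96
  have ham96 : am < 2 ^ 96 := by
    rw [ham]
    exact lt_of_le_of_lt (land_le_left _ _) hal96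
  have hald : ∀ i, i < 4 → dg al i ≤ 65535 := by
    intro i hi
    rw [hal, dg_land, M16_dig i hi]
    exact land_le_right _ _
  have hmul : Nat.mul 96 t = 24 * (4 * t) := by
    show 96 * t = 24 * (4 * t)
    ring
  have hapd : ∀ i, dg ap i = Nat.land (dg al i) (dg SP (4 * t + i)) := by
    intro i
    rw [hap, dg_land, hmul, dg_shift]
  have hamd : ∀ i, dg am i = Nat.land (dg al i) (dg SM (4 * t + i)) := by
    intro i
    rw [ham, dg_land, hmul, dg_shift]
  have hA : ∀ i, i < 4 → dg ap i ≤ 65535 := fun i hi => by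
    rw [hapd i]
    exact (land_le_left _ _).trans (hald i hi)
  have hB : ∀ i, i < 4 → dg am i ≤ 65535 := fun i hi => by
    rw [hamd i]
    exact (land_le_left _ _).trans (hald i hi)
  have hA0 : ∀ i, i < 4 → dg ap i ≠ 0 → t < 13 ∧ 0 ≤ tau z t i := by
    intro i hi h0
    have h1 : dg SP (4 * t + i) ≠ 0 := by
      intro h2
      apply h0
      have h3 := land_le_right (dg al i) (dg SP (4 * t + i))
      rw [← hapd i, h2] at h3
      omega
    obtain ⟨h4, h5⟩ := hP _ h1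
    have h6 : (4 * t + i) / 4 = t := by omega
    have h7 : (4 * t + i) % 4 = i := by omega
    rw [h6, h7] at h5
    exact ⟨by omega, h5⟩
  have hB0 : ∀ i, i < 4 → dg am i ≠ 0 → t < 13 ∧ tau z t i ≤ 0 := by
    intro i hi h0
    have h1 : dg SM (4 * t + i) ≠ 0 := by
      intro h2
      apply h0
      have h3 := land_le_right (dg al i) (dg SM (4 * t + i))
      rw [← hamd i, h2] at h3
      omega
    obtain ⟨h4, h5⟩ := hM _ h1
    have h6 : (4 * t + i) / 4 = t := by omega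
    have h7 : (4 * t + i) % 4 = i := by omega
    rw [h6, h7] at h5
    exact ⟨by omega, h5⟩
  have hadd : dg ap 0 + dg am 0 = dg al 0 ∧ dg ap 1 + dg am 1 = dg al 1 ∧
      dg ap 2 + dg am 2 = dg al 2 ∧ dg ap 3 + dg am 3 = dg al 3 := by
    have h1 := four_dig ap hap96
    have h2 := four_dig am ham96
    have h3 := four_dig al hal96
    have a0 := hA 0 (by norm_num)
    have a1 := hA 1 (by norm_num)
    have a2 := hA 2 (by norm_num)
    have a3 := hA 3 (by norm_num)
    have b0 := hB 0 (by norm_num)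
    have b1 := hB 1 (by norm_num)
    have b2 := hB 2 (by norm_num)
    have b3 := hB 3 (by norm_num)
    have c0 := hald 0 (by norm_num)
    have c1 := hald 1 (by norm_num)
    have c2 := hald 2 (by norm_num)
    have c3 := hald 3 (by norm_num)
    clear hap ham hal hpp hpn hk1 hb1 hb2 hpow hk hTP hTN hlm hapd hamd hA hB hald hA0 hB0
    generalize dg ap 0 = x0 at *
    generalize dg ap 1 = x1 at *
    generalize dg ap 2 = x2 at *
    generalize dg ap 3 = x3 at *
    generalize dg am 0 = y0 at *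
    generalize dg am 1 = y1 at *
    generalize dg am 2 = y2 at *
    generalize dg am 3 = y3 at *
    generalize dg al 0 = w0 at *
    generalize dg al 1 = w1 at *
    generalize dg al 2 = w2 at *
    generalize dg al 3 = w3 at *
    norm_num at h1 h2 h3
    omega
  -- the inequality of the forms
  have hform : (32768 : ℝ) * lm ≤ ((dg ap 0 : ℝ) - dg am 0) * tau z t 0 +
      ((dg ap 1 : ℝ) - dg am 1) * tau z t 1 + ((dg ap 2 : ℝ) - dg am 2) * tau z t 2 +
      ((dg ap 3 : ℝ) - dg am 3) * tau z t 3 := by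
    have hone : ∀ i, i < 4 → ((dg ap i : ℝ) + dg am i) * |tau z t i| ≤
        ((dg ap i : ℝ) - dg am i) * tau z t i := fun i hi =>
      one_form
        (fun h0 => (hA0 i hi (fun h1 => h0 (by rw [h1, Nat.cast_zero]))).2)
        (fun h0 => (hB0 i hi (fun h1 => h0 (by rw [h1, Nat.cast_zero]))).2)
    obtain ⟨e0, e1, e2, e3⟩ := hadd
    by_cases h13 : t < 13
    · have h1 := geo (hD.F t h13) hpow
      rw [← e0, ← e1, ← e2, ← e3] at h1
      push_cast at h1
      linarith [hone 0 (by norm_num), hone 1 (by norm_num), hone 2 (by norm_num),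
        hone 3 (by norm_num)]
    · have hz1 : ∀ i, i < 4 → dg ap i = 0 := fun i hi => by
        by_contra h0
        exact h13 (hA0 i hi h0).1
      have hz2 : ∀ i, i < 4 → dg am i = 0 := fun i hi => by
        by_contra h0
        exact h13 (hB0 i hi h0).1
      rw [hz1 0 (by norm_num), hz2 0 (by norm_num)] at e0
      rw [← e0, add_zero, zero_mul, zero_mul] at hpow
      have h5 : lm = 0 := by
        have h6 : lm ^ 4 = 0 := by omega
        exact pow_eq_zero_iff (n := 4) (by norm_num) |>.1 h6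
      rw [h5, hz1 0 (by norm_num), hz2 0 (by norm_num), hz1 1 (by norm_num), hz2 1 (by norm_num),
        hz1 2 (by norm_num), hz2 2 (by norm_num), hz1 3 (by norm_num), hz2 3 (by norm_num)]
      simp
  obtain ⟨a, b, ha, hb, hale, hble, hin⟩ := h
  refine ⟨_, _, _, ⟨fun q => a q + (cP t (q / 4) * dg ap (q % 4) + cN t (q / 4) * dg am (q % 4)),
    fun q => b q + (cN t (q / 4) * dg ap (q % 4) + cP t (q / 4) * dg am (q % 4)),
    ?_, ?_, ?_, ?_, ?_⟩, hk1⟩
  · rw [pk_add, ← ha]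
    congr 1
    unfold pk
    simp only [Finset.sum_range_succ, Finset.sum_range_zero, Nat.reduceDiv, Nat.reduceMod,
      zero_add, Nat.zero_div, Nat.zero_mod, pow_mul]
    have h1 := four_dig ap hap96
    have h2 := four_dig am ham96
    have e48 : (2 : ℕ) ^ 48 = (2 ^ 24) ^ 2 := by norm_num
    have e72 : (2 : ℕ) ^ 72 = (2 ^ 24) ^ 3 := by norm_num
    have e96 : (2 : ℕ) ^ 96 = (2 ^ 24) ^ 4 := by norm_num
    have e192 : (2 : ℕ) ^ 192 = (2 ^ 24) ^ 8 := by norm_num
    rw [hTP, hTN]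
    rw [e48, e72] at h1 h2
    rw [e96, e192]
    conv_lhs => rw [h1, h2]
    generalize (2 : ℕ) ^ 24 = X
    ring
  · rw [pk_add, ← hb]
    congr 1
    unfold pk
    simp only [Finset.sum_range_succ, Finset.sum_range_zero, Nat.reduceDiv, Nat.reduceMod,
      zero_add, Nat.zero_div, Nat.zero_mod, pow_mul]
    have h1 := four_dig ap hap96
    have h2 := four_dig am ham96
    have e48 : (2 : ℕ) ^ 48 = (2 ^ 24) ^ 2 := by norm_num
    have e72 : (2 : ℕ) ^ 72 = (2 ^ 24) ^ 3 := by norm_num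
    have e96 : (2 : ℕ) ^ 96 = (2 ^ 24) ^ 4 := by norm_num
    have e192 : (2 : ℕ) ^ 192 = (2 ^ 24) ^ 8 := by norm_num
    rw [hTP, hTN]
    rw [e48, e72] at h1 h2
    rw [e96, e192]
    conv_lhs => rw [h1, h2]
    generalize (2 : ℕ) ^ 24 = X
    ring
  · intro q
    have h1 := hale q
    have h2 := hA (q % 4) (Nat.mod_lt _ (by norm_num))
    have h3 := hB (q % 4) (Nat.mod_lt _ (by norm_num))
    have h4 : cP t (q / 4) * dg ap (q % 4) ≤ 1 * 65535 := Nat.mul_le_mul (cP_le _ _) h2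
    have h5 : cN t (q / 4) * dg am (q % 4) ≤ 1 * 65535 := Nat.mul_le_mul (cN_le _ _) h3
    show a q + (cP t (q / 4) * dg ap (q % 4) + cN t (q / 4) * dg am (q % 4)) ≤ (n + 1) * 2 ^ 17
    rw [add_mul]
    norm_num at h1 ⊢
    omega
  · intro q
    have h1 := hble q
    have h2 := hA (q % 4) (Nat.mod_lt _ (by norm_num))
    have h3 := hB (q % 4) (Nat.mod_lt _ (by norm_num))
    have h4 : cN t (q / 4) * dg ap (q % 4) ≤ 1 * 65535 := Nat.mul_le_mul (cN_le _ _) h2
    have h5 : cP t (q / 4) * dg am (q % 4) ≤ 1 * 65535 := Nat.mul_le_mul (cP_le _ _) h3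
    show b q + (cN t (q / 4) * dg ap (q % 4) + cP t (q / 4) * dg am (q % 4)) ≤ (n + 1) * 2 ^ 17
    rw [add_mul]
    norm_num at h1 ⊢
    omega
  · have hpv : ∀ j, j < 3 → (pv t j : ℝ) = (cP t j : ℝ) - (cN t j : ℝ) := by
      intro j hj
      rw [pv_eq t ht16 j hj]
      push_cast
      ring
    have hsplit : ∑ q ∈ Finset.range 12,
        (((a q + (cP t (q / 4) * dg ap (q % 4) + cN t (q / 4) * dg am (q % 4)) : ℕ) : ℝ) -
          ((b q + (cN t (q / 4) * dg ap (q % 4) + cP t (q / 4) * dg am (q % 4)) : ℕ) : ℝ)) *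
          Y z (q / 4) (q % 4) =
        ∑ q ∈ Finset.range 12, ((a q : ℝ) - (b q : ℝ)) * Y z (q / 4) (q % 4) +
        ∑ q ∈ Finset.range 12, (((cP t (q / 4) : ℝ) - cN t (q / 4)) *
          ((dg ap (q % 4) : ℝ) - dg am (q % 4))) * Y z (q / 4) (q % 4) := by
      rw [← Finset.sum_add_distrib]
      refine Finset.sum_congr rfl fun q _ => ?_
      push_cast
      ring
    rw [hsplit]
    have hrest : ∑ q ∈ Finset.range 12, (((cP t (q / 4) : ℝ) - cN t (q / 4)) *
          ((dg ap (q % 4) : ℝ) - dg am (q % 4))) * Y z (q / 4) (q % 4) =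
        ((dg ap 0 : ℝ) - dg am 0) * tau z t 0 +
      ((dg ap 1 : ℝ) - dg am 1) * tau z t 1 + ((dg ap 2 : ℝ) - dg am 2) * tau z t 2 +
      ((dg ap 3 : ℝ) - dg am 3) * tau z t 3 := by
      simp only [Finset.sum_range_succ, Finset.sum_range_zero, Nat.reduceDiv, Nat.reduceMod,
        zero_add, Nat.zero_div, Nat.zero_mod]
      unfold tau
      rw [hpv 0 (by norm_num), hpv 1 (by norm_num), hpv 2 (by norm_num)]
      ring
    rw [hrest]
    push_cast
    linarith

end Pool.Agent.Work.MP_77d073_nt.Q4.Bb
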