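import Pool.Agent.Work.MP_77d073_nt.Q4.Bb.Sem

/-!
MODULE Bb/RedB (M, Mathlib only, real numbers).  Bounds for a reduced ternary form with Gram matrix
`(a, d, e; d, b, f; e, f, c)`.

`Δ = a b c + 2 d e f - a f² - b e² - c d²`, `s = a b - d² ≥ 3 a b / 4` (from `|2 d| ≤ a ≤ b`).
`red_c`: `c ≤ Δ / s + (a + b) / 4`.  Proof: put `m = (a f - d e) / s` and let `y = - round m`, `|m + y| ≤ 1/2`; then let
`n = (e + y d) / a`, `x = - round n`, `|n + x| ≤ 1/2`.  The identity (clear denominators, `field_simp; ring`)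
`c + x² a + y² b + 2 x e + 2 y f + 2 x y d = Δ / s + (m + y)² (s / a) + (n + x)² a`; `s / a ≤ b`.
`red_abc`: `3 a b c ≤ 8 Δ`: by `red_c`, `c / 2 ≤ c - (a + b)/4 ≤ Δ / s`, and `s ≥ 3 a b / 4`.
`red_num`: `3 a³ ≤ 3 a b c ≤ 8 Δ`, `12 b² ≤ 3 a b c ≤ 8 Δ`, `c ≤ Δ / 12 + (a + b)/4`, numbers with `norm_num`,
`nlinarith`.
-/

set_option autoImplicit false

namespace Pool.Agent.Work.MP_77d073_nt.Q4.Bb

private theorem rb_s {a b d : ℝ} (ha : 0 < a) (hab : a ≤ b) (hd : |2 * d| ≤ a) :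
    3 / 4 * (a * b) ≤ a * b - d ^ 2 := by
  have h1 : (2 * d) ^ 2 ≤ a ^ 2 := by
    rw [← sq_abs]
    exact pow_le_pow_left₀ (abs_nonneg _) hd 2
  nlinarith [mul_le_mul_of_nonneg_left hab ha.le]

theorem red_c {a b c d e f : ℝ} (ha : 0 < a) (hab : a ≤ b) (hd : |2 * d| ≤ a)
    (hc : ∀ x y : ℤ, c ≤ c + x ^ 2 * a + y ^ 2 * b + 2 * x * e + 2 * y * f + 2 * x * y * d) :
    c ≤ (a * b * c + 2 * d * e * f - a * f ^ 2 - b * e ^ 2 - c * d ^ 2) / (a * b - d ^ 2) + (a + b) / 4 := by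
  have hb : 0 < b := lt_of_lt_of_le ha hab
  have hs0 := rb_s ha hab hd
  have hab0 : 0 < a * b := mul_pos ha hb
  have hs : 0 < a * b - d ^ 2 := by linarith
  obtain ⟨m, hm⟩ : ∃ m : ℝ, m = (a * f - d * e) / (a * b - d ^ 2) := ⟨_, rfl⟩
  obtain ⟨y, hy⟩ : ∃ y : ℤ, y = - round m := ⟨_, rfl⟩
  obtain ⟨k, hk⟩ : ∃ k : ℝ, k = (e + y * d) / a := ⟨_, rfl⟩
  obtain ⟨x, hx⟩ : ∃ x : ℤ, x = - round k := ⟨_, rfl⟩
  have h1 : (m + y) ^ 2 ≤ 1 / 4 := by
    have h := abs_sub_round m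
    have e1 : m + y = m - round m := by
      rw [hy]
      push_cast
      ring
    rw [e1, ← sq_abs]
    calc |m - round m| ^ 2 ≤ (1 / 2) ^ 2 := pow_le_pow_left₀ (abs_nonneg _) h 2
      _ = 1 / 4 := by norm_num
  have h2 : (k + x) ^ 2 ≤ 1 / 4 := by
    have h := abs_sub_round k
    have e1 : k + x = k - round k := by
      rw [hx]
      push_cast
      ring
    rw [e1, ← sq_abs]
    calc |k - round k| ^ 2 ≤ (1 / 2) ^ 2 := pow_le_pow_left₀ (abs_nonneg _) h 2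
      _ = 1 / 4 := by norm_num
  have hid : c + x ^ 2 * a + y ^ 2 * b + 2 * x * e + 2 * y * f + 2 * x * y * d =
      (a * b * c + 2 * d * e * f - a * f ^ 2 - b * e ^ 2 - c * d ^ 2) / (a * b - d ^ 2) +
      (m + y) ^ 2 * ((a * b - d ^ 2) / a) + (k + x) ^ 2 * a := by
    rw [hm, hk]
    have hs' := hs.ne'
    have ha' := ha.ne'
    field_simp
    ring
  have h3 : (a * b - d ^ 2) / a ≤ b := by
    rw [div_le_iff₀ ha]
    nlinarith [sq_nonneg d]
  have h4 : 0 ≤ (a * b - d ^ 2) / a := (div_pos hs ha).le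
  have h5 : (m + y) ^ 2 * ((a * b - d ^ 2) / a) ≤ 1 / 4 * b :=
    (mul_le_mul_of_nonneg_right h1 h4).trans (mul_le_mul_of_nonneg_left h3 (by norm_num))
  have h6 : (k + x) ^ 2 * a ≤ 1 / 4 * a := mul_le_mul_of_nonneg_right h2 ha.le
  have h7 := hc x y
  rw [hid] at h7
  linarith

theorem red_abc {a b c d e f : ℝ} (ha : 0 < a) (hab : a ≤ b) (hbc : b ≤ c) (hd : |2 * d| ≤ a)
    (hc : ∀ x y : ℤ, c ≤ c + x ^ 2 * a + y ^ 2 * b + 2 * x * e + 2 * y * f + 2 * x * y * d) :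
    3 * (a * b * c) ≤ 8 * (a * b * c + 2 * d * e * f - a * f ^ 2 - b * e ^ 2 - c * d ^ 2) := by
  have hb : 0 < b := lt_of_lt_of_le ha hab
  have hs0 := rb_s ha hab hd
  have hab0 : 0 < a * b := mul_pos ha hb
  have hs : 0 < a * b - d ^ 2 := by linarith
  have h1 := red_c ha hab hd hc
  have h2 : c / 2 ≤ (a * b * c + 2 * d * e * f - a * f ^ 2 - b * e ^ 2 - c * d ^ 2) /
      (a * b - d ^ 2) := by linarith
  rw [le_div_iff₀ hs] at h2
  have h3 : 0 ≤ c := (hb.le.trans hbc)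
  have h4 := mul_le_mul_of_nonneg_left hs0 h3
  nlinarith [h4, h2]

theorem red_num {a b c d e f : ℝ} (ha : 4 ≤ a) (hab : a ≤ b) (hbc : b ≤ c) (hd : |2 * d| ≤ a)
    (hc : ∀ x y : ℤ, c ≤ c + x ^ 2 * a + y ^ 2 * b + 2 * x * e + 2 * y * f + 2 * x * y * d)
    (hΔ : a * b * c + 2 * d * e * f - a * f ^ 2 - b * e ^ 2 - c * d ^ 2 ≤ (10379 / 1000) ^ 2) :
    4096 ^ 2 * a ≤ 110700000 ∧ 4096 ^ 2 * b ≤ 142180000 ∧ 4096 ^ 2 * c ≤ 213830000 := by
  have ha0 : 0 < a := by linarith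
  have hb : 0 < b := lt_of_lt_of_le ha0 hab
  have hc0 : 0 < c := lt_of_lt_of_le hb hbc
  have h1 := red_c ha0 hab hd hc
  have h2 := red_abc ha0 hab hbc hd hc
  have h3 : 3 * (a * b * c) ≤ 8 * (10379 / 1000) ^ 2 := by linarith
  have hbb : b * b ≤ b * c := mul_le_mul_of_nonneg_left hbc hb.le
  have haa : a * a ≤ a * b := mul_le_mul_of_nonneg_left hab ha0.le
  have hA : 4096 ^ 2 * a ≤ 110700000 := by
    have h5 : a ^ 3 ≤ a * b * c := by
      calc a ^ 3 = a * (a * a) := by ring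
        _ ≤ a * (b * c) := mul_le_mul_of_nonneg_left
            (mul_le_mul hab (hab.trans hbc) ha0.le hb.le) ha0.le
        _ = a * b * c := by ring
    by_contra h
    have h6 : 110700000 / 4096 ^ 2 < a := by
      rw [div_lt_iff₀ (by norm_num)]
      linarith [not_le.1 h]
    have h7 := pow_lt_pow_left₀ h6 (by norm_num) (n := 3) (by norm_num)
    norm_num at h7 h3
    linarith
  have hB : 4096 ^ 2 * b ≤ 142180000 := by
    have h5 : 4 * b ^ 2 ≤ a * b * c := by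
      calc 4 * b ^ 2 = 4 * (b * b) := by ring
        _ ≤ a * (b * c) := mul_le_mul ha hbb (mul_pos hb hb).le ha0.le
        _ = a * b * c := by ring
    by_contra h
    have h6 : 142180000 / 4096 ^ 2 < b := by
      rw [div_lt_iff₀ (by norm_num)]
      linarith [not_le.1 h]
    have h7 := pow_lt_pow_left₀ h6 (by norm_num) (n := 2) (by norm_num)
    norm_num at h7 h3
    linarith
  refine ⟨hA, hB, ?_⟩
  have hs0 := rb_s ha0 hab hd
  have h16 : 16 ≤ a * b := by nlinarith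
  have hs : 12 ≤ a * b - d ^ 2 := by linarith
  have hpos : 0 ≤ a * b * c + 2 * d * e * f - a * f ^ 2 - b * e ^ 2 - c * d ^ 2 := by
    have := mul_pos (mul_pos ha0 hb) hc0
    linarith
  have h8 : (a * b * c + 2 * d * e * f - a * f ^ 2 - b * e ^ 2 - c * d ^ 2) / (a * b - d ^ 2) ≤
      (10379 / 1000) ^ 2 / 12 :=
    div_le_div₀ (by norm_num) hΔ (by norm_num) hs
  have h9 : c ≤ (10379 / 1000) ^ 2 / 12 + (a + b) / 4 := by linarith
  norm_num at h9 hA hB ⊢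
  linarith

end Pool.Agent.Work.MP_77d073_nt.Q4.Bb
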