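import Pool.Agent.Work.MP_77d073_nt.Q4.Bb.RedA
import Pool.Agent.Work.MP_77d073_nt.Q4.Bb.RedB
import Pool.Agent.Work.MP_77d073_nt.Q4.Bb.Axi

/-!
MODULE Bb/RedC (M-L).  Every admissible system with small determinant is equivalent to one satisfying the hypotheses of
the branch and bound.

Proof.  `exists_red` gives `U`; `a = qf (col 0)`, `b`, `c`, `d = bf (col 0) (col 1)`, `e = bf (col 0) (col 2)`,
`f = bf (col 1) (col 2)`.  `qf (p + x q) = qf p + 2 x bf p q + x² qf q`.  The Gram determinant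
`a b c + 2 d e f - a f² - b e² - c d²` is `4 (dt X')²` for `X' i j = ∑ k, X i k U k j` (polynomial identity in the
entries, the fourth row being minus the sum of the first three) and `(dt X')² = (dt X)²`.  `4 ≤ a` by the inequality of
the arithmetic and geometric mean (`∏ x_i² ≥ 1`).  `|2 d| ≤ a`, `|2 e| ≤ a`, `|2 f| ≤ b` from the minimality (`x, y = ± 1`).
`red_num` gives the bounds of the lengths.  `axis` for `x i = lf X (col 0) i` gives `σ`, `ε`; replace column 0 by `ε`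
times it, column 1 by `± ` it so that `uu ≥ 0`, column 2 by `±` it so that `vv ≥ 0` (diagonal matrix of signs; nothing
else changes); the permutation `σ` of the forms does not change `qf`, `bf`.
`Dom (zof X')`: `tau (zof X') t i = 4096 * 2 * lf X' p i'` for the vector `p = (pv t 0, pv t 1, pv t 2) ≠ 0`, for `i = 0, 1,
2, 3`: `Y (zof X') j i = 4096 * 2 * X' i j` (sum zero); so the product is `8192^4 ∏ lf`, `≥ 8192^4`.
`nq (zof X') (3 j) = 4096² (uu² + vv² + ww²) = 4096² qf (col j)`, `ip = 4096² bf`.  `D`: the sum is `4096² * 2 * dt X'`.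
`InB`: the digits of `L0`, `H0` by `decide`/`norm_num` (they are
`L0: 32768 32768 40960 32768 20844 20844 18145 32768 18145 2048 2048 2048`,
`H0: 37479 36086 43295 44692 44692 44692 47391 47391 47391 63488 63488 63488`); `|b_j|` bounds its coordinates, e.g.
`(11924/4096)² ≥ 142180000/4096²`, `14623² ≥ 213830000`; the cross product is bounded by `|b_0| |b_1|` (Lagrange's
identity), `110700000 * 142180000 ≤ (4096 * 30720)²`.
`SP0`, `SM0`: only the digits `8, 11` resp. `9, 10` are nonzero (`t = 2`, the vector `(1, 0, 0)`).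
-/

set_option autoImplicit false

namespace Pool.Agent.Work.MP_77d073_nt.Q4.Bb

private theorem lf_add' (X : Fin 4 → Fin 3 → ℝ) (p q : Fin 3 → ℤ) (x : ℤ) (i : Fin 4) :
    lf X (fun k => p k + x * q k) i = lf X p i + x * lf X q i := by
  unfold lf
  rw [Finset.mul_sum, ← Finset.sum_add_distrib]
  refine Finset.sum_congr rfl (fun j _ => ?_)
  push_cast
  ring

private theorem qf_add' (X : Fin 4 → Fin 3 → ℝ) (p q : Fin 3 → ℤ) (x : ℤ) :
    qf X (fun k => p k + x * q k) = qf X p + 2 * x * bf X q p + x ^ 2 * qf X q := by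
  unfold qf bf
  simp only [lf_add', Fin.sum_univ_four]
  ring

private theorem qf_add2' (X : Fin 4 → Fin 3 → ℝ) (p q r : Fin 3 → ℤ) (x y : ℤ) :
    qf X (fun k => p k + x * q k + y * r k) =
      qf X p + x ^ 2 * qf X q + y ^ 2 * qf X r + 2 * x * bf X q p + 2 * y * bf X r p +
        2 * x * y * bf X q r := by
  have h : (fun k => p k + x * q k + y * r k) = fun k => (fun k => p k + x * q k) k + y * r k := rfl
  rw [h, qf_add']
  unfold qf bf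
  simp only [lf_add', Fin.sum_univ_four]
  ring

private theorem uvw {A : Fin 4 → Fin 3 → ℝ} (hs : ∀ j, ∑ i, A i j = 0) (j : Fin 3) :
    A 0 j = (uu A j + vv A j + ww A j) / 2 ∧ A 1 j = (uu A j - vv A j - ww A j) / 2 ∧
      A 2 j = (-uu A j + vv A j - ww A j) / 2 ∧ A 3 j = (-uu A j - vv A j + ww A j) / 2 := by
  have h := hs j
  rw [Fin.sum_univ_four] at h
  unfold uu vv ww
  refine ⟨?_, ?_, ?_, ?_⟩ <;> linarith

private theorem inner {A : Fin 4 → Fin 3 → ℝ} (hs : ∀ j, ∑ i, A i j = 0) (j k : Fin 3) :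
    ∑ i, A i j * A i k = uu A j * uu A k + vv A j * vv A k + ww A j * ww A k := by
  obtain ⟨h0, h1, h2, h3⟩ := uvw hs j
  obtain ⟨g0, g1, g2, g3⟩ := uvw hs k
  rw [Fin.sum_univ_four, h0, h1, h2, h3, g0, g1, g2, g3]
  ring

private theorem dtA {A : Fin 4 → Fin 3 → ℝ} (hs : ∀ j, ∑ i, A i j = 0) :
    uu A 2 * (vv A 0 * ww A 1 - ww A 0 * vv A 1) + vv A 2 * (ww A 0 * uu A 1 - uu A 0 * ww A 1) +
      ww A 2 * (uu A 0 * vv A 1 - vv A 0 * uu A 1) = 2 * dt A := by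
  obtain ⟨h0, h1, h2, -⟩ := uvw hs 0
  obtain ⟨g0, g1, g2, -⟩ := uvw hs 1
  obtain ⟨k0, k1, k2, -⟩ := uvw hs 2
  unfold dt
  rw [Matrix.det_fin_three]
  simp only [Matrix.of_apply]
  have e0 : (Fin.castSucc (0 : Fin 3) : Fin 4) = 0 := rfl
  have e1 : (Fin.castSucc (1 : Fin 3) : Fin 4) = 1 := rfl
  have e2 : (Fin.castSucc (2 : Fin 3) : Fin 4) = 2 := rfl
  rw [e0, e1, e2, h0, h1, h2, g0, g1, g2, k0, k1, k2]
  ring

private theorem gram {A : Fin 4 → Fin 3 → ℝ} (hs : ∀ j, ∑ i, A i j = 0) {a b c d e f : ℝ}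
    (ha : a = ∑ i, A i 0 * A i 0) (hb : b = ∑ i, A i 1 * A i 1) (hc : c = ∑ i, A i 2 * A i 2)
    (hd : d = ∑ i, A i 0 * A i 1) (he : e = ∑ i, A i 0 * A i 2) (hf : f = ∑ i, A i 1 * A i 2) :
    a * b * c + 2 * d * e * f - a * f ^ 2 - b * e ^ 2 - c * d ^ 2 = (2 * dt A) ^ 2 := by
  rw [ha, hb, hc, hd, he, hf, ← dtA hs, inner hs, inner hs, inner hs, inner hs, inner hs, inner hs]
  ring

private theorem amgm {x : Fin 4 → ℝ} (h : 1 ≤ |∏ i, x i|) : 4 ≤ ∑ i, x i ^ 2 := by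
  rw [Fin.prod_univ_four] at h
  rw [Fin.sum_univ_four]
  have h1 : |x 0 * x 1 * x 2 * x 3| = |x 0 * x 1| * |x 2 * x 3| := by
    rw [← abs_mul]; congr 1; ring
  rw [h1] at h
  have h2 : 2 * |x 0 * x 1| ≤ x 0 ^ 2 + x 1 ^ 2 := by
    rw [abs_mul]
    nlinarith [sq_nonneg (|x 0| - |x 1|), sq_abs (x 0), sq_abs (x 1)]
  have h3 : 2 * |x 2 * x 3| ≤ x 2 ^ 2 + x 3 ^ 2 := by
    rw [abs_mul]
    nlinarith [sq_nonneg (|x 2| - |x 3|), sq_abs (x 2), sq_abs (x 3)]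
  have h4 : 2 ≤ |x 0 * x 1| + |x 2 * x 3| := by
    have h5 := abs_nonneg (x 0 * x 1)
    have h6 := abs_nonneg (x 2 * x 3)
    nlinarith [sq_nonneg (|x 0 * x 1| - |x 2 * x 3|)]
  linarith

private theorem Yz (A : Fin 4 → Fin 3 → ℝ) (hs : ∀ j, ∑ i, A i j = 0) (j : Fin 3) :
    Y (zof A) j 0 = 8192 * A 0 j ∧ Y (zof A) j 1 = 8192 * A 1 j ∧ Y (zof A) j 2 = 8192 * A 2 j ∧
      Y (zof A) j 3 = 8192 * A 3 j := by
  obtain ⟨h0, h1, h2, h3⟩ := uvw hs j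
  rw [h0, h1, h2, h3]
  unfold Y
  fin_cases j <;> simp [zof] <;> refine ⟨?_, ?_, ?_, ?_⟩ <;> ring

private theorem tauz (A : Fin 4 → Fin 3 → ℝ) (hs : ∀ j, ∑ i, A i j = 0) (t : ℕ) (i : Fin 4) :
    tau (zof A) t i = 8192 * lf A ![pv t 0, pv t 1, pv t 2] i := by
  obtain ⟨h0, h1, h2, h3⟩ := Yz A hs 0
  obtain ⟨g0, g1, g2, g3⟩ := Yz A hs 1
  obtain ⟨k0, k1, k2, k3⟩ := Yz A hs 2
  unfold tau lf
  rw [Fin.sum_univ_three]
  simp only [Matrix.cons_val_zero, Matrix.cons_val_one, Matrix.cons_val]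
  fin_cases i
  · have e1 : Y (zof A) 0 0 = 8192 * A 0 0 := h0
    have e2 : Y (zof A) 1 0 = 8192 * A 0 1 := g0
    have e3 : Y (zof A) 2 0 = 8192 * A 0 2 := k0
    show (pv t 0 : ℝ) * Y (zof A) 0 0 + (pv t 1 : ℝ) * Y (zof A) 1 0 + (pv t 2 : ℝ) * Y (zof A) 2 0 =
      8192 * (A 0 0 * (pv t 0 : ℝ) + A 0 1 * (pv t 1 : ℝ) + A 0 2 * (pv t 2 : ℝ))
    rw [e1, e2, e3]; ring
  · have e1 : Y (zof A) 0 1 = 8192 * A 1 0 := h1
    have e2 : Y (zof A) 1 1 = 8192 * A 1 1 := g1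
    have e3 : Y (zof A) 2 1 = 8192 * A 1 2 := k1
    show (pv t 0 : ℝ) * Y (zof A) 0 1 + (pv t 1 : ℝ) * Y (zof A) 1 1 + (pv t 2 : ℝ) * Y (zof A) 2 1 =
      8192 * (A 1 0 * (pv t 0 : ℝ) + A 1 1 * (pv t 1 : ℝ) + A 1 2 * (pv t 2 : ℝ))
    rw [e1, e2, e3]; ring
  · have e1 : Y (zof A) 0 2 = 8192 * A 2 0 := h2
    have e2 : Y (zof A) 1 2 = 8192 * A 2 1 := g2
    have e3 : Y (zof A) 2 2 = 8192 * A 2 2 := k2
    show (pv t 0 : ℝ) * Y (zof A) 0 2 + (pv t 1 : ℝ) * Y (zof A) 1 2 + (pv t 2 : ℝ) * Y (zof A) 2 2 =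
      8192 * (A 2 0 * (pv t 0 : ℝ) + A 2 1 * (pv t 1 : ℝ) + A 2 2 * (pv t 2 : ℝ))
    rw [e1, e2, e3]; ring
  · have e1 : Y (zof A) 0 3 = 8192 * A 3 0 := h3
    have e2 : Y (zof A) 1 3 = 8192 * A 3 1 := g3
    have e3 : Y (zof A) 2 3 = 8192 * A 3 2 := k3
    show (pv t 0 : ℝ) * Y (zof A) 0 3 + (pv t 1 : ℝ) * Y (zof A) 1 3 + (pv t 2 : ℝ) * Y (zof A) 2 3 =
      8192 * (A 3 0 * (pv t 0 : ℝ) + A 3 1 * (pv t 1 : ℝ) + A 3 2 * (pv t 2 : ℝ))
    rw [e1, e2, e3]; ring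

private theorem pv_ne {t : ℕ} (ht : t < 13) : (![pv t 0, pv t 1, pv t 2] : Fin 3 → ℤ) ≠ 0 := by
  have h : ∀ t : Fin 13, (![pv t 0, pv t 1, pv t 2] : Fin 3 → ℤ) ≠ 0 := by decide
  exact h ⟨t, ht⟩

private theorem z0 (A : Fin 4 → Fin 3 → ℝ) : zof A 0 - 32768 = 4096 * uu A 0 := by
  show 32768 + 4096 * uu A 0 - 32768 = _; ring
private theorem z1 (A : Fin 4 → Fin 3 → ℝ) : zof A 1 - 32768 = 4096 * vv A 0 := by
  show 32768 + 4096 * vv A 0 - 32768 = _; ring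
private theorem z2 (A : Fin 4 → Fin 3 → ℝ) : zof A 2 - 32768 = 4096 * ww A 0 := by
  show 32768 + 4096 * ww A 0 - 32768 = _; ring
private theorem z3 (A : Fin 4 → Fin 3 → ℝ) : zof A 3 - 32768 = 4096 * uu A 1 := by
  show 32768 + 4096 * uu A 1 - 32768 = _; ring
private theorem z4 (A : Fin 4 → Fin 3 → ℝ) : zof A 4 - 32768 = 4096 * vv A 1 := by
  show 32768 + 4096 * vv A 1 - 32768 = _; ring
private theorem z5 (A : Fin 4 → Fin 3 → ℝ) : zof A 5 - 32768 = 4096 * ww A 1 := by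
  show 32768 + 4096 * ww A 1 - 32768 = _; ring
private theorem z6 (A : Fin 4 → Fin 3 → ℝ) : zof A 6 - 32768 = 4096 * uu A 2 := by
  show 32768 + 4096 * uu A 2 - 32768 = _; ring
private theorem z7 (A : Fin 4 → Fin 3 → ℝ) : zof A 7 - 32768 = 4096 * vv A 2 := by
  show 32768 + 4096 * vv A 2 - 32768 = _; ring
private theorem z8 (A : Fin 4 → Fin 3 → ℝ) : zof A 8 - 32768 = 4096 * ww A 2 := by
  show 32768 + 4096 * ww A 2 - 32768 = _; ring
private theorem z9 (A : Fin 4 → Fin 3 → ℝ) :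
    zof A 9 - 32768 = 4096 * (vv A 0 * ww A 1 - ww A 0 * vv A 1) := by
  show 32768 + 4096 * (vv A 0 * ww A 1 - ww A 0 * vv A 1) - 32768 = _; ring
private theorem z10 (A : Fin 4 → Fin 3 → ℝ) :
    zof A 10 - 32768 = 4096 * (ww A 0 * uu A 1 - uu A 0 * ww A 1) := by
  show 32768 + 4096 * (ww A 0 * uu A 1 - uu A 0 * ww A 1) - 32768 = _; ring
private theorem z11 (A : Fin 4 → Fin 3 → ℝ) :
    zof A 11 - 32768 = 4096 * (uu A 0 * vv A 1 - vv A 0 * uu A 1) := by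
  show 32768 + 4096 * (uu A 0 * vv A 1 - vv A 0 * uu A 1) - 32768 = _; ring

private theorem dg_big {S : ℕ} (hS : S < 2 ^ (24 * 12)) {q : ℕ} (hq : 12 ≤ q) : dg S q = 0 := by
  have h : dg S q = (S >>> (24 * q)) % 16777216 := rfl
  rw [h, Nat.shiftRight_eq_div_pow, Nat.div_eq_of_lt, Nat.zero_mod]
  exact lt_of_lt_of_le hS (Nat.pow_le_pow_right (by norm_num) (by omega))

private theorem hSP : SP0 < 2 ^ (24 * 12) := by decide +kernel

private theorem hSM : SM0 < 2 ^ (24 * 12) := by decide +kernel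

private theorem abs_b {x y : ℝ} (hy : 0 ≤ y) (h : x ^ 2 ≤ y ^ 2) : -y ≤ x ∧ x ≤ y :=
  abs_le.1 (abs_le_of_sq_le_sq h hy)

private theorem coreDom {A : Fin 4 → Fin 3 → ℝ} (hs : ∀ j, ∑ i, A i j = 0)
    (h1 : ∀ p : Fin 3 → ℤ, p ≠ 0 → 1 ≤ |∏ i, lf A p i|) {a b c d e f : ℝ}
    (ha : a = ∑ i, A i 0 * A i 0) (hb : b = ∑ i, A i 1 * A i 1) (hc : c = ∑ i, A i 2 * A i 2)
    (hd : d = ∑ i, A i 0 * A i 1) (he : e = ∑ i, A i 0 * A i 2) (hf : f = ∑ i, A i 1 * A i 2)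
    (hab : a ≤ b) (hbc : b ≤ c) (h2d : |2 * d| ≤ a) (h2e : |2 * e| ≤ a) (h2f : |2 * f| ≤ b)
    (na : 4096 ^ 2 * a ≤ 110700000) (nb : 4096 ^ 2 * b ≤ 142180000) (nc : 4096 ^ 2 * c ≤ 213830000)
    (hD : |2 * dt A| ≤ 10379 / 1000) (vu : A 0 0 + A 2 0 ≤ A 0 0 + A 1 0) :
    Dom (zof A) := by
  rw [inner hs] at ha hb hc hd he hf
  have q0 : nq (zof A) 0 = 4096 ^ 2 * a := by
    unfold nq
    rw [show (0 : ℕ) + 1 = 1 from rfl, show (0 : ℕ) + 2 = 2 from rfl, z0, z1, z2, ha]; ring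
  have q3 : nq (zof A) 3 = 4096 ^ 2 * b := by
    unfold nq
    rw [show (3 : ℕ) + 1 = 4 from rfl, show (3 : ℕ) + 2 = 5 from rfl, z3, z4, z5, hb]; ring
  have q6 : nq (zof A) 6 = 4096 ^ 2 * c := by
    unfold nq
    rw [show (6 : ℕ) + 1 = 7 from rfl, show (6 : ℕ) + 2 = 8 from rfl, z6, z7, z8, hc]; ring
  have i03 : ip (zof A) 0 3 = 4096 ^ 2 * d := by
    unfold ip
    rw [show (0 : ℕ) + 1 = 1 from rfl, show (0 : ℕ) + 2 = 2 from rfl, show (3 : ℕ) + 1 = 4 from rfl,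
      show (3 : ℕ) + 2 = 5 from rfl, z0, z1, z2, z3, z4, z5, hd]; ring
  have i06 : ip (zof A) 0 6 = 4096 ^ 2 * e := by
    unfold ip
    rw [show (0 : ℕ) + 1 = 1 from rfl, show (0 : ℕ) + 2 = 2 from rfl, show (6 : ℕ) + 1 = 7 from rfl,
      show (6 : ℕ) + 2 = 8 from rfl, z0, z1, z2, z6, z7, z8, he]; ring
  have i36 : ip (zof A) 3 6 = 4096 ^ 2 * f := by
    unfold ip
    rw [show (3 : ℕ) + 1 = 4 from rfl, show (3 : ℕ) + 2 = 5 from rfl, show (6 : ℕ) + 1 = 7 from rfl,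
      show (6 : ℕ) + 2 = 8 from rfl, z3, z4, z5, z6, z7, z8, hf]; ring
  have habs : ∀ x : ℝ, |2 * (4096 ^ 2 * x)| = 4096 ^ 2 * |2 * x| := by
    intro x
    rw [show 2 * (4096 ^ 2 * x) = 4096 ^ 2 * (2 * x) by ring, abs_mul, abs_of_pos (by norm_num)]
  refine ⟨?_, ?_, ?_, ?_, ?_, ?_, ?_, ?_, ?_, ?_, ?_, ?_, ?_, ?_⟩
  · intro t ht
    have e0 := tauz A hs t 0
    have e1 := tauz A hs t 1
    have e2 := tauz A hs t 2
    have e3 := tauz A hs t 3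
    have hp := h1 _ (pv_ne ht)
    rw [Fin.prod_univ_four] at hp
    have f0 : tau (zof A) t 0 = 8192 * lf A ![pv t 0, pv t 1, pv t 2] 0 := e0
    have f1 : tau (zof A) t 1 = 8192 * lf A ![pv t 0, pv t 1, pv t 2] 1 := e1
    have f2 : tau (zof A) t 2 = 8192 * lf A ![pv t 0, pv t 1, pv t 2] 2 := e2
    have f3 : tau (zof A) t 3 = 8192 * lf A ![pv t 0, pv t 1, pv t 2] 3 := e3
    rw [f0, f1, f2, f3]
    clear f0 f1 f2 f3 e0 e1 e2 e3 habs i36 i06 i03 q6 q3 q0 vu hD nc nb na h2f h2e h2d hbc hab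
    generalize lf A ![pv t 0, pv t 1, pv t 2] 0 = x0 at hp ⊢
    generalize lf A ![pv t 0, pv t 1, pv t 2] 1 = x1 at hp ⊢
    generalize lf A ![pv t 0, pv t 1, pv t 2] 2 = x2 at hp ⊢
    generalize lf A ![pv t 0, pv t 1, pv t 2] 3 = x3 at hp ⊢
    rw [show 8192 * x0 * (8192 * x1) * (8192 * x2) * (8192 * x3) = 8192 ^ 4 * (x0 * x1 * x2 * x3) by ring,
      abs_mul, abs_of_pos (show (0 : ℝ) < 8192 ^ 4 by norm_num)]
    exact le_mul_of_one_le_right (by norm_num) hp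
  · rw [z9, z1, z5, z2, z4]; ring
  · rw [z10, z2, z3, z0, z5]; ring
  · rw [z11, z0, z4, z1, z3]; ring
  · rw [z6, z7, z8, z9, z10, z11]
    have h := dtA hs
    rw [show 4096 * uu A 2 * (4096 * (vv A 0 * ww A 1 - ww A 0 * vv A 1)) +
      4096 * vv A 2 * (4096 * (ww A 0 * uu A 1 - uu A 0 * ww A 1)) +
      4096 * ww A 2 * (4096 * (uu A 0 * vv A 1 - vv A 0 * uu A 1)) =
      4096 ^ 2 * (uu A 2 * (vv A 0 * ww A 1 - ww A 0 * vv A 1) +
        vv A 2 * (ww A 0 * uu A 1 - uu A 0 * ww A 1) +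
        ww A 2 * (uu A 0 * vv A 1 - vv A 0 * uu A 1)) by ring, h, abs_mul,
      abs_of_pos (show (0 : ℝ) < 4096 ^ 2 by norm_num)]
    have hC : (C0.D2 : ℝ) = 174130725 := by
      have : C0.D2 = 174130725 := rfl
      rw [this]; norm_num
    rw [hC]
    linarith
  · rw [i03, q0, habs]
    linarith
  · rw [i06, q0, habs]
    linarith
  · rw [i36, q3, habs]
    linarith
  · rw [q0]
    have hC : (C0.Q0 : ℝ) = 110700000 := by
      have : C0.Q0 = 110700000 := rfl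
      rw [this]; norm_num
    rw [hC]; exact na
  · rw [q3]
    have hC : (C0.Q1 : ℝ) = 142180000 := by
      have : C0.Q1 = 142180000 := rfl
      rw [this]; norm_num
    rw [hC]; exact nb
  · rw [q6]
    have hC : (C0.Q2 : ℝ) = 213830000 := by
      have : C0.Q2 = 213830000 := rfl
      rw [this]; norm_num
    rw [hC]; exact nc
  · rw [q0, q3]; linarith
  · rw [q3, q6]; linarith
  · have eu : uu A 0 = A 0 0 + A 1 0 := rfl
    have ev : vv A 0 = A 0 0 + A 2 0 := rfl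
    have h0 := z0 A
    have h1 := z1 A
    rw [eu] at h0
    rw [ev] at h1
    linarith

private theorem three {x y z r : ℝ} (hr : 0 ≤ r) (h : x ^ 2 + y ^ 2 + z ^ 2 ≤ r ^ 2) :
    (-r ≤ x ∧ x ≤ r) ∧ (-r ≤ y ∧ y ≤ r) ∧ (-r ≤ z ∧ z ≤ r) := by
  refine ⟨abs_b hr ?_, abs_b hr ?_, abs_b hr ?_⟩
  · linarith [sq_nonneg y, sq_nonneg z]
  · linarith [sq_nonneg x, sq_nonneg z]
  · linarith [sq_nonneg x, sq_nonneg y]

private theorem inb {z : ℕ → ℝ} (h0 : 32768 ≤ z 0 ∧ z 0 ≤ 37479) (h1 : 32768 ≤ z 1 ∧ z 1 ≤ 36086)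
    (h2 : 40960 ≤ z 2 ∧ z 2 ≤ 43295) (h3 : 32768 ≤ z 3 ∧ z 3 ≤ 44692) (h4 : 20844 ≤ z 4 ∧ z 4 ≤ 44692)
    (h5 : 20844 ≤ z 5 ∧ z 5 ≤ 44692) (h6 : 18145 ≤ z 6 ∧ z 6 ≤ 47391) (h7 : 32768 ≤ z 7 ∧ z 7 ≤ 47391)
    (h8 : 18145 ≤ z 8 ∧ z 8 ≤ 47391) (h9 : 2048 ≤ z 9 ∧ z 9 ≤ 63488) (h10 : 2048 ≤ z 10 ∧ z 10 ≤ 63488)
    (h11 : 2048 ≤ z 11 ∧ z 11 ≤ 63488) : InB z L0 H0 := by
  have l0 : dg L0 0 = 32768 := by decide
  have l1 : dg L0 1 = 32768 := by decide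
  have l2 : dg L0 2 = 40960 := by decide
  have l3 : dg L0 3 = 32768 := by decide
  have l4 : dg L0 4 = 20844 := by decide
  have l5 : dg L0 5 = 20844 := by decide
  have l6 : dg L0 6 = 18145 := by decide
  have l7 : dg L0 7 = 32768 := by decide
  have l8 : dg L0 8 = 18145 := by decide
  have l9 : dg L0 9 = 2048 := by decide
  have l10 : dg L0 10 = 2048 := by decide
  have l11 : dg L0 11 = 2048 := by decide
  have m0 : dg H0 0 = 37479 := by decide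
  have m1 : dg H0 1 = 36086 := by decide
  have m2 : dg H0 2 = 43295 := by decide
  have m3 : dg H0 3 = 44692 := by decide
  have m4 : dg H0 4 = 44692 := by decide
  have m5 : dg H0 5 = 44692 := by decide
  have m6 : dg H0 6 = 47391 := by decide
  have m7 : dg H0 7 = 47391 := by decide
  have m8 : dg H0 8 = 47391 := by decide
  have m9 : dg H0 9 = 63488 := by decide
  have m10 : dg H0 10 = 63488 := by decide
  have m11 : dg H0 11 = 63488 := by decide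
  intro k hk
  interval_cases k
  · rw [l0, m0]; exact_mod_cast h0
  · rw [l1, m1]; exact_mod_cast h1
  · rw [l2, m2]; exact_mod_cast h2
  · rw [l3, m3]; exact_mod_cast h3
  · rw [l4, m4]; exact_mod_cast h4
  · rw [l5, m5]; exact_mod_cast h5
  · rw [l6, m6]; exact_mod_cast h6
  · rw [l7, m7]; exact_mod_cast h7
  · rw [l8, m8]; exact_mod_cast h8
  · rw [l9, m9]; exact_mod_cast h9
  · rw [l10, m10]; exact_mod_cast h10
  · rw [l11, m11]; exact_mod_cast h11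

private theorem coreBox {A : Fin 4 → Fin 3 → ℝ} (hs : ∀ j, ∑ i, A i j = 0) {a b c : ℝ}
    (ha : a = ∑ i, A i 0 * A i 0) (hb : b = ∑ i, A i 1 * A i 1) (hc : c = ∑ i, A i 2 * A i 2)
    (hab : a ≤ b)
    (na : 4096 ^ 2 * a ≤ 110700000) (nb : 4096 ^ 2 * b ≤ 142180000) (nc : 4096 ^ 2 * c ≤ 213830000)
    (v0 : 0 ≤ A 0 0 + A 2 0) (vu : A 0 0 + A 2 0 ≤ A 0 0 + A 1 0) (u0 : A 0 0 + A 1 0 ≤ 115 / 100)
    (v1 : A 0 0 + A 2 0 ≤ 81 / 100) (w0 : 2 ≤ A 0 0 + A 3 0) (w1 : A 0 0 + A 3 0 ≤ 257 / 100)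
    (g1 : 0 ≤ uu A 1) (g2 : 0 ≤ vv A 2) :
    InB (zof A) L0 H0 := by
  rw [inner hs] at ha hb hc
  have eu : uu A 0 = A 0 0 + A 1 0 := rfl
  have ev : vv A 0 = A 0 0 + A 2 0 := rfl
  have ew : ww A 0 = A 0 0 + A 3 0 := rfl
  rw [← ev] at v0 vu v1
  rw [← eu] at vu u0
  rw [← ew] at w0 w1
  have t0 := z0 A
  have t1 := z1 A
  have t2 := z2 A
  have t3 := z3 A
  have t4 := z4 A
  have t5 := z5 A
  have t6 := z6 A
  have t7 := z7 A
  have t8 := z8 A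
  have t9 := z9 A
  have t10 := z10 A
  have t11 := z11 A
  have nb' : (4096 * uu A 1) ^ 2 + (4096 * vv A 1) ^ 2 + (4096 * ww A 1) ^ 2 ≤ 11924 ^ 2 := by
    have : (4096 * uu A 1) ^ 2 + (4096 * vv A 1) ^ 2 + (4096 * ww A 1) ^ 2 = 4096 ^ 2 * b := by
      rw [hb]; ring
    rw [this]; linarith
  have nc' : (4096 * uu A 2) ^ 2 + (4096 * vv A 2) ^ 2 + (4096 * ww A 2) ^ 2 ≤ 14623 ^ 2 := by
    have : (4096 * uu A 2) ^ 2 + (4096 * vv A 2) ^ 2 + (4096 * ww A 2) ^ 2 = 4096 ^ 2 * c := by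
      rw [hc]; ring
    rw [this]; linarith
  obtain ⟨b3, b4, b5⟩ := three (by norm_num) nb'
  obtain ⟨b6, b7, b8⟩ := three (by norm_num) nc'
  have ha0 : 0 ≤ a := by
    rw [ha]
    linarith [mul_self_nonneg (uu A 0), mul_self_nonneg (vv A 0), mul_self_nonneg (ww A 0)]
  have hb0 : 0 ≤ b := ha0.trans hab
  have hprod : (4096 ^ 2 * a) * (4096 ^ 2 * b) ≤ 125829120 ^ 2 := by
    have := mul_le_mul na nb (by positivity) (by norm_num)
    refine this.trans (by norm_num)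
  have hcr : (vv A 0 * ww A 1 - ww A 0 * vv A 1) ^ 2 + (ww A 0 * uu A 1 - uu A 0 * ww A 1) ^ 2 +
      (uu A 0 * vv A 1 - vv A 0 * uu A 1) ^ 2 ≤ a * b := by
    have : a * b = (vv A 0 * ww A 1 - ww A 0 * vv A 1) ^ 2 + (ww A 0 * uu A 1 - uu A 0 * ww A 1) ^ 2 +
      (uu A 0 * vv A 1 - vv A 0 * uu A 1) ^ 2 +
      (uu A 0 * uu A 1 + vv A 0 * vv A 1 + ww A 0 * ww A 1) ^ 2 := by
      rw [ha, hb]; ring
    rw [this]
    linarith [sq_nonneg (uu A 0 * uu A 1 + vv A 0 * vv A 1 + ww A 0 * ww A 1)]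
  have hcr' : (4096 ^ 2 * (vv A 0 * ww A 1 - ww A 0 * vv A 1)) ^ 2 +
      (4096 ^ 2 * (ww A 0 * uu A 1 - uu A 0 * ww A 1)) ^ 2 +
      (4096 ^ 2 * (uu A 0 * vv A 1 - vv A 0 * uu A 1)) ^ 2 ≤ 125829120 ^ 2 := by
    have e1 : (4096 ^ 2 * (vv A 0 * ww A 1 - ww A 0 * vv A 1)) ^ 2 +
      (4096 ^ 2 * (ww A 0 * uu A 1 - uu A 0 * ww A 1)) ^ 2 +
      (4096 ^ 2 * (uu A 0 * vv A 1 - vv A 0 * uu A 1)) ^ 2 = 4096 ^ 4 *
      ((vv A 0 * ww A 1 - ww A 0 * vv A 1) ^ 2 + (ww A 0 * uu A 1 - uu A 0 * ww A 1) ^ 2 +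
      (uu A 0 * vv A 1 - vv A 0 * uu A 1) ^ 2) := by ring
    have e2 : 4096 ^ 4 * (a * b) = (4096 ^ 2 * a) * (4096 ^ 2 * b) := by ring
    rw [e1]
    refine le_trans (mul_le_mul_of_nonneg_left hcr (by norm_num)) ?_
    rw [e2]; exact hprod
  obtain ⟨b9, b10, b11⟩ := three (by norm_num) hcr'
  clear hcr' hcr hprod nb' nc' ha hb hc na nb nc
  refine inb ⟨?_, ?_⟩ ⟨?_, ?_⟩ ⟨?_, ?_⟩ ⟨?_, ?_⟩ ⟨?_, ?_⟩ ⟨?_, ?_⟩ ⟨?_, ?_⟩ ⟨?_, ?_⟩ ⟨?_, ?_⟩ ⟨?_, ?_⟩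
    ⟨?_, ?_⟩ ⟨?_, ?_⟩
  · linarith only [t0, v0, vu]
  · linarith only [t0, u0]
  · linarith only [t1, v0]
  · linarith only [t1, v1]
  · linarith only [t2, w0]
  · linarith only [t2, w1]
  · linarith only [t3, g1]
  · linarith only [t3, b3.2]
  · linarith only [t4, b4.1]
  · linarith only [t4, b4.2]
  · linarith only [t5, b5.1]
  · linarith only [t5, b5.2]
  · linarith only [t6, b6.1]
  · linarith only [t6, b6.2]
  · linarith only [t7, g2]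
  · linarith only [t7, b7.2]
  · linarith only [t8, b8.1]
  · linarith only [t8, b8.2]
  · linarith only [t9, b9.1]
  · linarith only [t9, b9.2]
  · linarith only [t10, b10.1]
  · linarith only [t10, b10.2]
  · linarith only [t11, b11.1]
  · linarith only [t11, b11.2]

private theorem tau2 {A : Fin 4 → Fin 3 → ℝ} (i : ℕ) : tau (zof A) 2 i = Y (zof A) 0 i := by
  have p0 : pv 2 0 = 1 := by decide
  have p1 : pv 2 1 = 0 := by decide
  have p2 : pv 2 2 = 0 := by decide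
  unfold tau
  rw [p0, p1, p2]
  push_cast
  ring

private theorem coreP {A : Fin 4 → Fin 3 → ℝ} (hs : ∀ j, ∑ i, A i j = 0)
    (s0 : 0 < A 0 0) (s3 : 0 < A 3 0) : SgP (zof A) SP0 := by
  obtain ⟨y0, y1, y2, y3⟩ := Yz A hs 0
  intro q hq
  by_cases h12 : 12 ≤ q
  · exact absurd (dg_big hSP h12) hq
  · have hq' : q = 8 ∨ q = 11 := by
      have : ∀ q : Fin 12, dg SP0 q ≠ 0 → (q : ℕ) = 8 ∨ (q : ℕ) = 11 := by decide +kernel
      exact this ⟨q, by omega⟩ hq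
    rcases hq' with rfl | rfl
    · refine ⟨by norm_num, ?_⟩
      show 0 ≤ tau (zof A) 2 0
      rw [tau2, show Y (zof A) 0 0 = 8192 * A 0 0 from y0]
      linarith
    · refine ⟨by norm_num, ?_⟩
      show 0 ≤ tau (zof A) 2 3
      rw [tau2, show Y (zof A) 0 3 = 8192 * A 3 0 from y3]
      linarith

private theorem coreM {A : Fin 4 → Fin 3 → ℝ} (hs : ∀ j, ∑ i, A i j = 0)
    (s1 : A 1 0 < 0) (s2 : A 2 0 < 0) : SgM (zof A) SM0 := by
  obtain ⟨y0, y1, y2, y3⟩ := Yz A hs 0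
  intro q hq
  by_cases h12 : 12 ≤ q
  · exact absurd (dg_big hSM h12) hq
  · have hq' : q = 9 ∨ q = 10 := by
      have : ∀ q : Fin 12, dg SM0 q ≠ 0 → (q : ℕ) = 9 ∨ (q : ℕ) = 10 := by decide +kernel
      exact this ⟨q, by omega⟩ hq
    rcases hq' with rfl | rfl
    · refine ⟨by norm_num, ?_⟩
      show tau (zof A) 2 1 ≤ 0
      rw [tau2, show Y (zof A) 0 1 = 8192 * A 1 0 from y1]
      linarith
    · refine ⟨by norm_num, ?_⟩
      show tau (zof A) 2 2 ≤ 0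
      rw [tau2, show Y (zof A) 0 2 = 8192 * A 2 0 from y2]
      linarith

private theorem lf_sum {X : Fin 4 → Fin 3 → ℝ} (hX : ∀ j, ∑ i, X i j = 0) (p : Fin 3 → ℤ) :
    ∑ i, lf X p i = 0 := by
  unfold lf
  rw [Finset.sum_comm]
  refine Finset.sum_eq_zero (fun j _ => ?_)
  rw [← Finset.sum_mul, hX j, zero_mul]

private theorem col_ne {U : Matrix (Fin 3) (Fin 3) ℤ} (hU : U.det = 1 ∨ U.det = -1) (j : Fin 3) :
    (fun k => U k j) ≠ 0 := by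
  intro h
  have : U.det = 0 := Matrix.det_eq_zero_of_column_eq_zero j (fun k => congrFun h k)
  rcases hU with h1 | h1 <;> rw [this] at h1 <;> norm_num at h1

private theorem mv_ne {V : Matrix (Fin 3) (Fin 3) ℤ} (hV : V.det = 1 ∨ V.det = -1) {p : Fin 3 → ℤ}
    (hp : p ≠ 0) : V.mulVec p ≠ 0 := by
  intro h
  apply hp
  have hne : V.det ≠ 0 := by rcases hV with h1 | h1 <;> rw [h1] <;> norm_num
  exact Matrix.eq_zero_of_mulVec_eq_zero hne h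

private theorem sgn {s : ℤ} (h : s = 1 ∨ s = -1) : (s : ℝ) * s = 1 := by
  rcases h with rfl | rfl <;> norm_num

private theorem sgn_abs {s t : ℤ} (h : s = 1 ∨ s = -1) (h' : t = 1 ∨ t = -1) (x : ℝ) :
    |2 * ((s : ℝ) * t * x)| = |2 * x| := by
  rcases h with rfl | rfl <;> rcases h' with rfl | rfl <;> push_cast
  · congr 1; ring
  · rw [show 2 * ((1 : ℝ) * -1 * x) = -(2 * x) by ring, abs_neg]
  · rw [show 2 * ((-1 : ℝ) * 1 * x) = -(2 * x) by ring, abs_neg]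
  · congr 1; ring

private theorem dt_mul (X : Fin 4 → Fin 3 → ℝ) (U : Matrix (Fin 3) (Fin 3) ℤ)
    (hU : U.det = 1 ∨ U.det = -1) :
    (2 * dt (fun i j => lf X (fun k => U k j) i)) ^ 2 = (2 * dt X) ^ 2 := by
  have h : (Matrix.of fun i j : Fin 3 => lf X (fun k => U k j) i.castSucc) =
      (Matrix.of fun i j : Fin 3 => X i.castSucc j) * U.map (Int.cast : ℤ → ℝ) := by
    ext i j
    rw [Matrix.mul_apply]
    rfl
  have hdet : (U.map (Int.cast : ℤ → ℝ)).det = (U.det : ℝ) := by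
    have := (Int.castRingHom ℝ).map_det U
    simpa using this.symm
  have h2 : dt (fun i j => lf X (fun k => U k j) i) = dt X * (U.det : ℝ) := by
    unfold dt
    rw [h, Matrix.det_mul, hdet]
  rw [h2]
  have h3 : (U.det : ℝ) ^ 2 = 1 := by
    rcases hU with h1 | h1 <;> rw [h1] <;> norm_num
  calc (2 * (dt X * (U.det : ℝ))) ^ 2 = (2 * dt X) ^ 2 * (U.det : ℝ) ^ 2 := by ring
    _ = (2 * dt X) ^ 2 := by rw [h3, mul_one]

private theorem exsgn (x : ℝ) : ∃ s : ℤ, (s = 1 ∨ s = -1) ∧ 0 ≤ (s : ℝ) * x := by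
  rcases le_total 0 x with h | h
  · exact ⟨1, Or.inl rfl, by push_cast; linarith⟩
  · exact ⟨-1, Or.inr rfl, by push_cast; linarith⟩

theorem reduce {X : Fin 4 → Fin 3 → ℝ} (hX : Adm X) (hd : |2 * dt X| ≤ 10379 / 1000) :
    ∃ (σ : Equiv.Perm (Fin 4)) (U : Matrix (Fin 3) (Fin 3) ℤ), (U.det = 1 ∨ U.det = -1) ∧
      Dom (zof fun i j => ∑ k, X (σ i) k * (U k j : ℝ)) ∧
      InB (zof fun i j => ∑ k, X (σ i) k * (U k j : ℝ)) L0 H0 ∧
      SgP (zof fun i j => ∑ k, X (σ i) k * (U k j : ℝ)) SP0 ∧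
      SgM (zof fun i j => ∑ k, X (σ i) k * (U k j : ℝ)) SM0 := by
  obtain ⟨U, hU, hm0, hm12, hm1, hm2⟩ := exists_red hX
  obtain ⟨p0, hp0⟩ : ∃ p : Fin 3 → ℤ, p = fun k => U k 0 := ⟨_, rfl⟩
  obtain ⟨p1, hp1⟩ : ∃ p : Fin 3 → ℤ, p = fun k => U k 1 := ⟨_, rfl⟩
  obtain ⟨p2, hp2⟩ : ∃ p : Fin 3 → ℤ, p = fun k => U k 2 := ⟨_, rfl⟩
  have n0 : p0 ≠ 0 := hp0 ▸ col_ne hU 0
  have n1 : p1 ≠ 0 := hp1 ▸ col_ne hU 1
  have k0 : ∀ k, U k 0 = p0 k := fun k => by rw [hp0]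
  have k1 : ∀ k, U k 1 = p1 k := fun k => by rw [hp1]
  have k2 : ∀ k, U k 2 = p2 k := fun k => by rw [hp2]
  simp only [k0, k1, k2] at hm0 hm12 hm1 hm2
  have hab : qf X p0 ≤ qf X p1 := hm0 p1 n1
  have hbc : qf X p1 ≤ qf X p2 := hm12
  have hm1' : ∀ x : ℤ, qf X p1 ≤ qf X p1 + 2 * x * bf X p0 p1 + x ^ 2 * qf X p0 := by
    intro x; rw [← qf_add']; exact hm1 x
  have hm2' : ∀ x y : ℤ, qf X p2 ≤ qf X p2 + x ^ 2 * qf X p0 + y ^ 2 * qf X p1 + 2 * x * bf X p0 p2 +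
      2 * y * bf X p1 p2 + 2 * x * y * bf X p0 p1 := by
    intro x y; rw [← qf_add2']; exact hm2 x y
  obtain ⟨a, ha⟩ : ∃ a, a = qf X p0 := ⟨_, rfl⟩
  obtain ⟨b, hb⟩ : ∃ a, a = qf X p1 := ⟨_, rfl⟩
  obtain ⟨c, hc⟩ : ∃ a, a = qf X p2 := ⟨_, rfl⟩
  obtain ⟨d, hd'⟩ : ∃ a, a = bf X p0 p1 := ⟨_, rfl⟩
  obtain ⟨e, he⟩ : ∃ a, a = bf X p0 p2 := ⟨_, rfl⟩
  obtain ⟨f, hf⟩ : ∃ a, a = bf X p1 p2 := ⟨_, rfl⟩
  rw [← ha, ← hb, ← hd'] at hm1'
  rw [← ha, ← hb, ← hc, ← hd', ← he, ← hf] at hm2'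
  rw [← ha, ← hb] at hab
  rw [← hb, ← hc] at hbc
  have h4 : 4 ≤ a := by
    rw [ha]; exact amgm (hX.one p0 n0)
  have h2d : |2 * d| ≤ a := by
    rw [abs_le]
    have h1 := hm1' 1
    have h2 := hm1' (-1)
    push_cast at h1 h2
    constructor <;> linarith
  have h2e : |2 * e| ≤ a := by
    rw [abs_le]
    have h1 := hm2' 1 0
    have h2 := hm2' (-1) 0
    push_cast at h1 h2
    constructor <;> linarith
  have h2f : |2 * f| ≤ b := by
    rw [abs_le]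
    have h1 := hm2' 0 1
    have h2 := hm2' 0 (-1)
    push_cast at h1 h2
    constructor <;> linarith
  -- the Gram determinant
  have hGs : ∀ j, ∑ i, (fun i j => lf X (fun k => U k j) i) i j = 0 := fun j => lf_sum hX.sum _
  have hG := gram (A := fun i j => lf X (fun k => U k j) i) hGs (a := a) (b := b) (c := c) (d := d)
    (e := e) (f := f)
    (by rw [ha, qf, hp0]; exact Finset.sum_congr rfl fun i _ => by ring)
    (by rw [hb, qf, hp1]; exact Finset.sum_congr rfl fun i _ => by ring)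
    (by rw [hc, qf, hp2]; exact Finset.sum_congr rfl fun i _ => by ring)
    (by rw [hd', bf, hp0, hp1])
    (by rw [he, bf, hp0, hp2])
    (by rw [hf, bf, hp1, hp2])
  rw [dt_mul X U hU] at hG
  have hdt : (2 * dt X) ^ 2 ≤ (10379 / 1000) ^ 2 := by
    rw [← sq_abs]
    exact pow_le_pow_left₀ (abs_nonneg _) hd 2
  obtain ⟨na, nb, nc⟩ := red_num h4 hab hbc h2d hm2' (by rw [hG]; exact hdt)
  obtain ⟨σ, ε, hε, s0, s1, s2, s3, v0, vu, u0, v1, w0, w1⟩ := axis (fun i => lf X p0 i)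
    (lf_sum hX.sum p0) (hX.one p0 n0) (by rw [ha] at na; exact na)
  obtain ⟨ε1, hε1, g1⟩ := exsgn (lf X p1 (σ 0) + lf X p1 (σ 1))
  obtain ⟨ε2, hε2, g2⟩ := exsgn (lf X p2 (σ 0) + lf X p2 (σ 2))
  obtain ⟨s, hs⟩ : ∃ s : Fin 3 → ℤ, s = ![ε, ε1, ε2] := ⟨_, rfl⟩
  have hs0 : s 0 = ε := by rw [hs]; rfl
  have hs1 : s 1 = ε1 := by rw [hs]; rfl
  have hs2 : s 2 = ε2 := by rw [hs]; rfl
  obtain ⟨V, hV⟩ : ∃ V : Matrix (Fin 3) (Fin 3) ℤ, V = U * Matrix.diagonal s := ⟨_, rfl⟩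
  have hVd : V.det = 1 ∨ V.det = -1 := by
    rw [hV, Matrix.det_mul, Matrix.det_diagonal, Fin.prod_univ_three, hs0, hs1, hs2]
    rcases hU with h1 | h1 <;> rcases hε with h2 | h2 <;> rcases hε1 with h3 | h3 <;>
      rcases hε2 with h4 | h4 <;> rw [h1, h2, h3, h4] <;> norm_num
  have hVe : ∀ k j, V k j = U k j * s j := by
    intro k j; rw [hV, Matrix.mul_diagonal]
  obtain ⟨A, hA⟩ : ∃ A : Fin 4 → Fin 3 → ℝ, A = fun i j => ∑ k, X (σ i) k * (V k j : ℝ) := ⟨_, rfl⟩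
  have hAe : ∀ i j, A i j = (s j : ℝ) * lf X (fun k => U k j) (σ i) := by
    intro i j
    rw [hA]
    unfold lf
    rw [Finset.mul_sum]
    refine Finset.sum_congr rfl (fun k _ => ?_)
    rw [hVe]; push_cast; ring
  have hA0 : ∀ i, A i 0 = (ε : ℝ) * lf X p0 (σ i) := by
    intro i; rw [hAe, hs0, hp0]
  have hA1 : ∀ i, A i 1 = (ε1 : ℝ) * lf X p1 (σ i) := by
    intro i; rw [hAe, hs1, hp1]
  have hA2 : ∀ i, A i 2 = (ε2 : ℝ) * lf X p2 (σ i) := by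
    intro i; rw [hAe, hs2, hp2]
  have hAs : ∀ j, ∑ i, A i j = 0 := by
    intro j
    simp only [hAe]
    rw [← Finset.mul_sum, Equiv.sum_comp σ (fun i => lf X (fun k => U k j) i), lf_sum hX.sum, mul_zero]
  have hAadm : ∀ p : Fin 3 → ℤ, p ≠ 0 → 1 ≤ |∏ i, lf A p i| := by
    intro p hp
    have h1 : ∀ i, lf A p i = lf X (V.mulVec p) (σ i) := by
      intro i
      rw [hA]
      unfold lf Matrix.mulVec dotProduct
      push_cast
      simp only [Finset.sum_mul, Finset.mul_sum]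
      rw [Finset.sum_comm]
      refine Finset.sum_congr rfl (fun k _ => Finset.sum_congr rfl (fun j _ => by ring))
    simp only [h1]
    rw [Equiv.prod_comp σ (fun i => lf X (V.mulVec p) i)]
    exact hX.one _ (mv_ne hVd hp)
  have ga : a = ∑ i, A i 0 * A i 0 := by
    simp only [hA0]
    have : ∀ i, (ε : ℝ) * lf X p0 (σ i) * ((ε : ℝ) * lf X p0 (σ i)) = (lf X p0 (σ i)) ^ 2 := by
      intro i
      have := sgn hε
      calc (ε : ℝ) * lf X p0 (σ i) * ((ε : ℝ) * lf X p0 (σ i))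
          = ((ε : ℝ) * ε) * (lf X p0 (σ i)) ^ 2 := by ring
        _ = _ := by rw [this, one_mul]
    simp only [this]
    rw [Equiv.sum_comp σ (fun i => (lf X p0 i) ^ 2), ha, qf]
  have gb : b = ∑ i, A i 1 * A i 1 := by
    simp only [hA1]
    have : ∀ i, (ε1 : ℝ) * lf X p1 (σ i) * ((ε1 : ℝ) * lf X p1 (σ i)) = (lf X p1 (σ i)) ^ 2 := by
      intro i
      have := sgn hε1
      calc (ε1 : ℝ) * lf X p1 (σ i) * ((ε1 : ℝ) * lf X p1 (σ i))
          = ((ε1 : ℝ) * ε1) * (lf X p1 (σ i)) ^ 2 := by ring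
        _ = _ := by rw [this, one_mul]
    simp only [this]
    rw [Equiv.sum_comp σ (fun i => (lf X p1 i) ^ 2), hb, qf]
  have gc : c = ∑ i, A i 2 * A i 2 := by
    simp only [hA2]
    have : ∀ i, (ε2 : ℝ) * lf X p2 (σ i) * ((ε2 : ℝ) * lf X p2 (σ i)) = (lf X p2 (σ i)) ^ 2 := by
      intro i
      have := sgn hε2
      calc (ε2 : ℝ) * lf X p2 (σ i) * ((ε2 : ℝ) * lf X p2 (σ i))
          = ((ε2 : ℝ) * ε2) * (lf X p2 (σ i)) ^ 2 := by ring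
        _ = _ := by rw [this, one_mul]
    simp only [this]
    rw [Equiv.sum_comp σ (fun i => (lf X p2 i) ^ 2), hc, qf]
  have gd : (ε : ℝ) * ε1 * d = ∑ i, A i 0 * A i 1 := by
    simp only [hA0, hA1]
    have : ∀ i, (ε : ℝ) * lf X p0 (σ i) * ((ε1 : ℝ) * lf X p1 (σ i)) =
        (ε : ℝ) * ε1 * (lf X p0 (σ i) * lf X p1 (σ i)) := fun i => by ring
    simp only [this]
    rw [← Finset.mul_sum, Equiv.sum_comp σ (fun i => lf X p0 i * lf X p1 i), hd', bf]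
  have ge : (ε : ℝ) * ε2 * e = ∑ i, A i 0 * A i 2 := by
    simp only [hA0, hA2]
    have : ∀ i, (ε : ℝ) * lf X p0 (σ i) * ((ε2 : ℝ) * lf X p2 (σ i)) =
        (ε : ℝ) * ε2 * (lf X p0 (σ i) * lf X p2 (σ i)) := fun i => by ring
    simp only [this]
    rw [← Finset.mul_sum, Equiv.sum_comp σ (fun i => lf X p0 i * lf X p2 i), he, bf]
  have gf : (ε1 : ℝ) * ε2 * f = ∑ i, A i 1 * A i 2 := by
    simp only [hA1, hA2]
    have : ∀ i, (ε1 : ℝ) * lf X p1 (σ i) * ((ε2 : ℝ) * lf X p2 (σ i)) =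
        (ε1 : ℝ) * ε2 * (lf X p1 (σ i) * lf X p2 (σ i)) := fun i => by ring
    simp only [this]
    rw [← Finset.mul_sum, Equiv.sum_comp σ (fun i => lf X p1 i * lf X p2 i), hf, bf]
  have hGA := gram hAs ga gb gc gd ge gf
  have hD : |2 * dt A| ≤ 10379 / 1000 := by
    have h1 : (2 * dt A) ^ 2 = (2 * dt X) ^ 2 := by
      rw [← hGA, ← hG]
      have e0 := sgn hε
      have e1 := sgn hε1
      have e2 := sgn hε2
      linear_combination (2 * d * e * f * (ε1 * ε1) * (ε2 * ε2) - b * e ^ 2 * (ε2 * ε2) - c * d ^ 2 * (ε1 * ε1)) * e0 +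
        (2 * d * e * f * (ε2 * ε2) - a * f ^ 2 * (ε2 * ε2) - c * d ^ 2) * e1 +
        (2 * d * e * f - a * f ^ 2 - b * e ^ 2) * e2
    rw [← Real.sqrt_sq_eq_abs, h1, Real.sqrt_sq_eq_abs]
    exact hd
  refine ⟨σ, V, hVd, ?_⟩
  rw [← hA]
  rw [← hA0 0] at s0
  rw [← hA0 1] at s1
  rw [← hA0 2] at s2
  rw [← hA0 3] at s3
  rw [← hA0 0, ← hA0 2] at v0 v1
  rw [← hA0 0, ← hA0 2, ← hA0 1] at vu
  rw [← hA0 0, ← hA0 1] at u0
  rw [← hA0 0, ← hA0 3] at w0 w1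
  have g1' : 0 ≤ uu A 1 := by
    show 0 ≤ A 0 1 + A 1 1
    rw [hA1, hA1, ← mul_add]; exact g1
  have g2' : 0 ≤ vv A 2 := by
    show 0 ≤ A 0 2 + A 2 2
    rw [hA2, hA2, ← mul_add]; exact g2
  exact ⟨coreDom hAs hAadm ga gb gc gd ge gf hab hbc (by rw [sgn_abs hε hε1]; exact h2d)
      (by rw [sgn_abs hε hε2]; exact h2e) (by rw [sgn_abs hε1 hε2]; exact h2f) na nb nc hD vu,
    coreBox hAs ga gb gc hab na nb nc v0 vu u0 v1 w0 w1 g1' g2', coreP hAs s0 s3, coreM hAs s1 s2⟩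

end Pool.Agent.Work.MP_77d073_nt.Q4.Bb
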