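import Pool.Agent.Work.MP_77d073_nt.Q4.Bb.BB
import Pool.Agent.Work.MP_77d073_nt.Q4.Bb.RedC
import Pool.Agent.Work.MP_77d073_nt.Q4.CrI

/-!
MODULE Bb/Fin (S-M, for helper32).  The theorem in dimension three from the reduction, the branch and bound and the
exact local lemma.

Proof.  If `725 < Dt X ^ 4` there is nothing to prove.  Otherwise `|2 * dt X| ≤ 10379/1000` (`(10.379/2)^4 > 725`;
`Dt X = dt X` by `rfl` or by unfolding, `lf X p i = ∑ j, X i j * p j`).  `reduce` gives `σ`, `U`; put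
`X' i j = ∑ k, X (σ i) k * U k j` (`sub (fun i => X (σ i)) U`), `z = zof X'`; by `bb` the nine coordinates
`z (3 j + c) = 32768 + 4096 * (uu, vv, ww) X' j` are in one of the two boxes (`60 / 4096 ≤ 0.0147`, `285 / 4096 ≤ 0.0696`).
First box: with `V = diag(1, 1, -1)`, `sub X' V` satisfies `k1, ..., k9` of `loc_T3` (`b3 → -b3`:
`4392/4096 = 1.07227`, `9505/4096 = 2.32056`, `1586/4096 = 0.38721`).
Second box: `X'' i = - X' (τ i)`, `τ = (0 2)(1 3)`: `uu X'' = - (X' 2 + X' 3) = X' 0 + X' 1 = uu X'`,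
`vv X'' = - (X' 2 + X' 0) = - vv X'`, `ww X'' = - (X' 2 + X' 1) = X' 0 + X' 3 = ww X'`; so `v → -v`, and `loc_T3` applies.
Then `cn_perm`, `cn_neg`, `cn_base`.
-/

set_option autoImplicit false

namespace Pool.Agent.Work.MP_77d073_nt.Q4.Bb

open Pool.Agent.Work.MP_77d073_nt.Q4.Cr

/-- the coordinates in a box of `bb` -/
private theorem coord {X : Fin 4 → Fin 3 → ℝ} {a b : List ℤ} (h : InL (zof X) a b) :
    (((32768 + a.getD 0 0 : ℤ) : ℝ) ≤ 32768 + 4096 * (X 0 0 + X 1 0) ∧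
      32768 + 4096 * (X 0 0 + X 1 0) ≤ ((32768 + b.getD 0 0 : ℤ) : ℝ)) ∧
    (((32768 + a.getD 1 0 : ℤ) : ℝ) ≤ 32768 + 4096 * (X 0 0 + X 2 0) ∧
      32768 + 4096 * (X 0 0 + X 2 0) ≤ ((32768 + b.getD 1 0 : ℤ) : ℝ)) ∧
    (((32768 + a.getD 2 0 : ℤ) : ℝ) ≤ 32768 + 4096 * (X 0 0 + X 3 0) ∧
      32768 + 4096 * (X 0 0 + X 3 0) ≤ ((32768 + b.getD 2 0 : ℤ) : ℝ)) ∧
    (((32768 + a.getD 3 0 : ℤ) : ℝ) ≤ 32768 + 4096 * (X 0 1 + X 1 1) ∧
      32768 + 4096 * (X 0 1 + X 1 1) ≤ ((32768 + b.getD 3 0 : ℤ) : ℝ)) ∧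
    (((32768 + a.getD 4 0 : ℤ) : ℝ) ≤ 32768 + 4096 * (X 0 1 + X 2 1) ∧
      32768 + 4096 * (X 0 1 + X 2 1) ≤ ((32768 + b.getD 4 0 : ℤ) : ℝ)) ∧
    (((32768 + a.getD 5 0 : ℤ) : ℝ) ≤ 32768 + 4096 * (X 0 1 + X 3 1) ∧
      32768 + 4096 * (X 0 1 + X 3 1) ≤ ((32768 + b.getD 5 0 : ℤ) : ℝ)) ∧
    (((32768 + a.getD 6 0 : ℤ) : ℝ) ≤ 32768 + 4096 * (X 0 2 + X 1 2) ∧
      32768 + 4096 * (X 0 2 + X 1 2) ≤ ((32768 + b.getD 6 0 : ℤ) : ℝ)) ∧
    (((32768 + a.getD 7 0 : ℤ) : ℝ) ≤ 32768 + 4096 * (X 0 2 + X 2 2) ∧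
      32768 + 4096 * (X 0 2 + X 2 2) ≤ ((32768 + b.getD 7 0 : ℤ) : ℝ)) ∧
    (((32768 + a.getD 8 0 : ℤ) : ℝ) ≤ 32768 + 4096 * (X 0 2 + X 3 2) ∧
      32768 + 4096 * (X 0 2 + X 3 2) ≤ ((32768 + b.getD 8 0 : ℤ) : ℝ)) :=
  ⟨h 0 (by norm_num), h 1 (by norm_num), h 2 (by norm_num), h 3 (by norm_num), h 4 (by norm_num),
    h 5 (by norm_num), h 6 (by norm_num), h 7 (by norm_num), h 8 (by norm_num)⟩

private def V1 : Matrix (Fin 3) (Fin 3) ℤ := !![1, 0, 0; 0, 1, 0; 0, 0, -1]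

private theorem V1_det : V1.det = -1 := by
  unfold V1
  rw [Matrix.det_fin_three]
  rfl

private theorem sub_V1 (X : Fin 4 → Fin 3 → ℝ) (i : Fin 4) :
    sub X V1 i 0 = X i 0 ∧ sub X V1 i 1 = X i 1 ∧ sub X V1 i 2 = -X i 2 := by
  unfold sub V1
  refine ⟨?_, ?_, ?_⟩
  · rw [Fin.sum_univ_three]
    simp
  · rw [Fin.sum_univ_three]
    simp
  · rw [Fin.sum_univ_three]
    simp

theorem fin_T3 : ∀ (th : Fin 4 → ℝ) (X : Fin 4 → Fin 3 → ℝ), IsTh th → Hyp X → Cn th X := by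
  intro th X ht hX
  by_cases hc : 725 < Dt X ^ 4
  · exact ⟨hc.le, fun h => absurd h (ne_of_gt hc)⟩
  have hc' : Dt X ^ 4 ≤ 725 := not_lt.1 hc
  have hd : |2 * dt X| ≤ 10379 / 1000 := by
    by_contra hn
    have hn' : (10379 / 1000 : ℝ) < |2 * Dt X| := not_le.1 hn
    have h1 : (10379 / 1000 : ℝ) ^ 4 < |2 * Dt X| ^ 4 :=
      pow_lt_pow_left₀ hn' (by norm_num) (by norm_num)
    have h2 : |2 * Dt X| ^ 4 = 16 * Dt X ^ 4 := by
      rw [Even.pow_abs (by decide)]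
      ring
    rw [h2] at h1
    norm_num at h1
    linarith
  obtain ⟨σ, U, hU, hDom, hInB, hSP, hSM⟩ := reduce (X := X) ⟨hX.h0, hX.h1⟩ hd
  have hX' : Hyp (sub (fun i => X (σ i)) U) := hyp_base hU (hyp_perm σ hX)
  refine cn_perm σ hX.h0 (cn_base hU ?_)
  have hbb := bb hDom hInB hSP hSM
  have hbb' : InL (zof (sub (fun i => X (σ i)) U)) [786, -4, 8176, 8725, -60, -3232, -4452, 9445,
      1526] [906, 285, 8296, 8845, 60, -3112, -4332, 9565, 1646] ∨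
      InL (zof (sub (fun i => X (σ i)) U)) [786, -4, 8176, 8725, -60, -3232, 4332, 9445, -1646]
        [906, 60, 8296, 8845, 60, -3112, 4452, 9565, -1526] := hbb
  clear hbb hDom hInB hSP hSM
  generalize sub (fun i => X (σ i)) U = Y at hX' hbb' ⊢
  rcases hbb' with h | h
  · obtain ⟨⟨l0, r0⟩, ⟨l1, r1⟩, ⟨l2, r2⟩, ⟨l3, r3⟩, ⟨l4, r4⟩, ⟨l5, r5⟩, ⟨l6, r6⟩, ⟨l7, r7⟩,
      ⟨l8, r8⟩⟩ := coord h
    clear h
    simp at l0 r0 l1 r1 l2 r2 l3 r3 l4 r4 l5 r5 l6 r6 l7 r7 l8 r8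
    refine cn_base (V := V1) (Or.inr V1_det) ?_
    have hY : Hyp (sub Y V1) := hyp_base (Or.inr V1_det) hX'
    obtain ⟨a0, b0, c0⟩ := sub_V1 Y 0
    obtain ⟨a1, b1, c1⟩ := sub_V1 Y 1
    obtain ⟨a2, b2, c2⟩ := sub_V1 Y 2
    obtain ⟨a3, b3, c3⟩ := sub_V1 Y 3
    refine loc_T3 ht hY ?_ ?_ ?_ ?_ ?_ ?_ ?_ ?_ ?_
    · rw [a0, a1, abs_le]; constructor <;> linarith only [l0, r0]
    · rw [a0, a2, abs_le]; constructor <;> linarith only [l1, r1]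
    · rw [a0, a3, abs_le]; constructor <;> linarith only [l2, r2]
    · rw [b0, b1, abs_le]; constructor <;> linarith only [l3, r3]
    · rw [b0, b2, abs_le]; constructor <;> linarith only [l4, r4]
    · rw [b0, b3, abs_le]; constructor <;> linarith only [l5, r5]
    · rw [c0, c1, abs_le]; constructor <;> linarith only [l6, r6]
    · rw [c0, c2, abs_le]; constructor <;> linarith only [l7, r7]
    · rw [c0, c3, abs_le]; constructor <;> linarith only [l8, r8]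
  · obtain ⟨⟨l0, r0⟩, ⟨l1, r1⟩, ⟨l2, r2⟩, ⟨l3, r3⟩, ⟨l4, r4⟩, ⟨l5, r5⟩, ⟨l6, r6⟩, ⟨l7, r7⟩,
      ⟨l8, r8⟩⟩ := coord h
    clear h
    simp at l0 r0 l1 r1 l2 r2 l3 r3 l4 r4 l5 r5 l6 r6 l7 r7 l8 r8
    have z0 := hX'.h0 0
    have z1 := hX'.h0 1
    have z2 := hX'.h0 2
    rw [Fin.sum_univ_four] at z0 z1 z2
    refine cn_perm (Equiv.swap 0 2 * Equiv.swap 1 3) hX'.h0 (cn_neg ?_)
    have hY : Hyp (fun i j => -Y ((Equiv.swap 0 2 * Equiv.swap 1 3 : Equiv.Perm (Fin 4)) i) j) :=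
      hyp_neg (hyp_perm (Equiv.swap 0 2 * Equiv.swap 1 3) hX')
    have t0 : (Equiv.swap 0 2 * Equiv.swap 1 3 : Equiv.Perm (Fin 4)) 0 = 2 := by decide
    have t1 : (Equiv.swap 0 2 * Equiv.swap 1 3 : Equiv.Perm (Fin 4)) 1 = 3 := by decide
    have t2 : (Equiv.swap 0 2 * Equiv.swap 1 3 : Equiv.Perm (Fin 4)) 2 = 0 := by decide
    have t3 : (Equiv.swap 0 2 * Equiv.swap 1 3 : Equiv.Perm (Fin 4)) 3 = 1 := by decide
    refine loc_T3 ht hY ?_ ?_ ?_ ?_ ?_ ?_ ?_ ?_ ?_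
    · simp only [t0, t1]; rw [abs_le]; constructor <;> linarith only [l0, r0, z0]
    · simp only [t0, t2]; rw [abs_le]; constructor <;> linarith only [l1, r1, z0]
    · simp only [t0, t3]; rw [abs_le]; constructor <;> linarith only [l2, r2, z0]
    · simp only [t0, t1]; rw [abs_le]; constructor <;> linarith only [l3, r3, z1]
    · simp only [t0, t2]; rw [abs_le]; constructor <;> linarith only [l4, r4, z1]
    · simp only [t0, t3]; rw [abs_le]; constructor <;> linarith only [l5, r5, z1]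
    · simp only [t0, t1]; rw [abs_le]; constructor <;> linarith only [l6, r6, z2]
    · simp only [t0, t2]; rw [abs_le]; constructor <;> linarith only [l7, r7, z2]
    · simp only [t0, t3]; rw [abs_le]; constructor <;> linarith only [l8, r8, z2]

end Pool.Agent.Work.MP_77d073_nt.Q4.Bb
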