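import Pool.Agent.Work.MP_77d073_nt.Q4.Bb.Chk

/-!
The two local boxes of the branch and bound (around the two positions of the critical lattice) and the check of the
corresponding leaves.
-/

set_option autoImplicit false

namespace Pool.Agent.Work.MP_77d073_nt.Q4.Bb

/-- the lower bounds of the first local box -/
def A0 : Nat := nat_lit 0x85f600a4e5006e9c007360007fc400a215009ff0007ffc008312

/-- the upper bounds of the first local box -/
def B0 : Nat := nat_lit 0x866e00a55d006f140073d800803c00a28d00a06800811d00838a

/-- the lower bounds of the second local box -/
def A1 : Nat := nat_lit 0x799200a4e50090ec007360007fc400a215009ff0007ffc008312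

/-- the upper bounds of the second local box -/
def B1 : Nat := nat_lit 0x7a0a00a55d0091640073d800803c00a28d00a06800803c00838a

/-- the check of a local leaf -/
noncomputable def hlc (i L H _SP _SM : Nat) : Bool :=
  cond (Nat.beq i (nat_lit 0)) (win A0 B0 L H (nat_lit 9)) (cond (Nat.beq i (nat_lit 1)) (win A1 B1 L H (nat_lit 9)) false)

end Pool.Agent.Work.MP_77d073_nt.Q4.Bb
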