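import Pool.Agent.Work.MP_77d073_nt.Q4.Bb.Dig

/-!
MODULE Bb/Prd (M).  The elementary steps `pr`, `sq`, `tg`, `t3`.

`IR z w P N cp cm r` is the invariant with the lower bound `r` instead of `0`.  All steps are by `rfl` of the form
`k P' N' cp' cm'` (`pr`: after a case distinction on `s = 0`), with `at_ m k = m * 2^(48 k)` (`at_eq`).

`pr`, `s = 0`: with `cx = bd L H β x`, `cy = bd L H β y` (both lower bounds or both upper bounds, as reals
`cx ≤ z x`, `cy ≤ z y` or both `≥`): the added value is `m (32768 (z x + z y) - cx z y - cy z x + cx cy - 32768^2)`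
and `(z x - cx)(z y - cy) ≥ 0` gives `≥ - m (z x - 32768)(z y - 32768)`.  `s ≠ 0`: the corners are of opposite kind,
the added value is `m (cx z y + cy z x - cx cy - 32768 (z x + z y) + 32768^2) ≥ m (z x - 32768)(z y - 32768)`.
The coefficients increase by at most `m * 2^24` (`x ≠ y`, digits `< 2^24`).
`sq`: `(z x - l)(h - z x) ≥ 0`, i.e. `(l + h) z x - l h ≥ z x ^2`.  `tg`: `(z x - c)^2 ≥ 0`.
The new coefficient vectors: `fun k => a k + (if k = x then .. else 0) + (if k = y then .. else 0)`; use `pk_add`,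
`pk_single`, `va_add`, `va_single`.
-/

set_option autoImplicit false

namespace Pool.Agent.Work.MP_77d073_nt.Q4.Bb

/-- The invariant with a lower bound. -/
def IR (z : ℕ → ℝ) (w P N cp cm : ℕ) (r : ℝ) : Prop :=
  ∃ a b : ℕ → ℕ, P = pk 48 a ∧ N = pk 48 b ∧ (∀ k, a k ≤ w) ∧ (∀ k, b k ≤ w) ∧
    r ≤ va z a - va z b + (cp : ℝ) - (cm : ℝ)

theorem IR_zero {z : ℕ → ℝ} {w P N cp cm : ℕ} : IR z w P N cp cm 0 ↔ IA z w P N cp cm := Iff.rfl

theorem IR_mono {z : ℕ → ℝ} {w w' P N cp cm : ℕ} {r r' : ℝ} (h : IR z w P N cp cm r) (hw : w ≤ w') (hr : r' ≤ r) :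
    IR z w' P N cp cm r' := by
  obtain ⟨a, b, h1, h2, h3, h4, h5⟩ := h
  exact ⟨a, b, h1, h2, fun k => (h3 k).trans hw, fun k => (h4 k).trans hw, hr.trans h5⟩

private theorem IR_gen {z : ℕ → ℝ} {w P N cp cm : ℕ} {r : ℝ} (h : IR z w P N cp cm r)
    (da db : ℕ → ℕ) {u : ℕ} (hda : ∀ k, da k ≤ u) (hdb : ∀ k, db k ≤ u)
    {P' N' cp' cm' : ℕ} {r' : ℝ} (hP : P' = P + pk 48 da) (hN : N' = N + pk 48 db)
    (hr : r' ≤ r + (va z da - va z db) + ((cp' : ℝ) - cp) - ((cm' : ℝ) - cm)) :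
    IR z (w + u) P' N' cp' cm' r' := by
  obtain ⟨a, b, h1, h2, h3, h4, h5⟩ := h
  refine ⟨fun k => a k + da k, fun k => b k + db k, ?_, ?_, fun k => add_le_add (h3 k) (hda k),
    fun k => add_le_add (h4 k) (hdb k), ?_⟩
  · rw [hP, h1, pk_add]
  · rw [hN, h2, pk_add]
  · rw [va_add, va_add]
    linarith

private theorem pk_zero : pk 48 (fun _ => 0) = 0 := by
  unfold pk
  exact Finset.sum_eq_zero fun k _ => by rw [zero_mul]

private theorem va_zero (z : ℕ → ℝ) : va z (fun _ => 0) = 0 := by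
  unfold va
  exact Finset.sum_eq_zero fun k _ => by rw [Nat.cast_zero, zero_mul]

theorem IR_cp {z : ℕ → ℝ} {w P N cp cm : ℕ} {r : ℝ} (h : IR z w P N cp cm r) (m : ℕ) :
    IR z w P N (cp + m) cm (r + m) := by
  obtain ⟨a, b, h1, h2, h3, h4, h5⟩ := h
  refine ⟨a, b, h1, h2, h3, h4, ?_⟩
  push_cast
  linarith

theorem IR_cm {z : ℕ → ℝ} {w P N cp cm : ℕ} {r : ℝ} (h : IR z w P N cp cm r) (m : ℕ) :
    IR z w P N cp (cm + m) (r - m) := by
  obtain ⟨a, b, h1, h2, h3, h4, h5⟩ := h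
  refine ⟨a, b, h1, h2, h3, h4, ?_⟩
  push_cast
  linarith

private theorem single_le (m v k : ℕ) : (if k = v then m else 0) ≤ m := by
  split_ifs
  · exact le_rfl
  · exact Nat.zero_le _

theorem IR_P {z : ℕ → ℝ} {w P N cp cm : ℕ} {r : ℝ} (h : IR z w P N cp cm r) (m : ℕ) {v : ℕ} (hv : v < 12) :
    IR z (w + m) (P + at_ m v) N cp cm (r + m * z v) := by
  refine IR_gen h (fun k => if k = v then m else 0) (fun _ => 0) (single_le m v)
    (fun _ => Nat.zero_le _) ?_ ?_ ?_
  · rw [pk_single 48 m hv, at_eq]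
  · rw [pk_zero, add_zero]
  · rw [va_single z m hv, va_zero]
    linarith

theorem IR_N {z : ℕ → ℝ} {w P N cp cm : ℕ} {r : ℝ} (h : IR z w P N cp cm r) (m : ℕ) {v : ℕ} (hv : v < 12) :
    IR z (w + m) P (N + at_ m v) cp cm (r - m * z v) := by
  refine IR_gen h (fun _ => 0) (fun k => if k = v then m else 0) (fun _ => Nat.zero_le _)
    (single_le m v) ?_ ?_ ?_
  · rw [pk_zero, add_zero]
  · rw [pk_single 48 m hv, at_eq]
  · rw [va_single z m hv, va_zero]
    linarith

private theorem two_le {m x y p q u : ℕ} (hxy : x ≠ y) (hp : p ≤ u) (hq : q ≤ u) (k : ℕ) :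
    (if k = x then m * p else 0) + (if k = y then m * q else 0) ≤ m * u := by
  by_cases h1 : k = x
  · have h2 : k ≠ y := fun h => hxy (h1.symm.trans h)
    rw [if_pos h1, if_neg h2, add_zero]
    exact Nat.mul_le_mul_left _ hp
  · rw [if_neg h1, zero_add]
    by_cases h2 : k = y
    · rw [if_pos h2]
      exact Nat.mul_le_mul_left _ hq
    · rw [if_neg h2]
      exact Nat.zero_le _

private theorem bd_zero (L H x : ℕ) : bd L H 0 x = dg L x := rfl

private theorem bd_succ (L H β x : ℕ) : bd L H (β + 1) x = dg H x := rfl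

private theorem bd_lt (L H β x : ℕ) : bd L H β x ≤ 2 ^ 24 := by
  cases β with
  | zero => exact (dg_lt L x).le
  | succ β => exact (dg_lt H x).le

private theorem pS_sound {z : ℕ → ℝ} {m x y w P N cp cm cx cy : ℕ} (hx : x < 12) (hy : y < 12)
    (hxy : x ≠ y) (hcx : cx ≤ 2 ^ 24) (hcy : cy ≤ 2 ^ 24)
    (hc : 0 ≤ (z x - cx) * (z y - cy)) {r : ℝ} {k : ℕ → ℕ → ℕ → ℕ → Bool}
    (h : IR z w P N cp cm r) (hk : pS m x y cx cy P N cp cm k = true) :
    ∃ P' N' cp' cm', k P' N' cp' cm' = true ∧ IR z (w + m * 2 ^ 24) P' N' cp' cm'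
      (r - m * ((z x - 32768) * (z y - 32768))) := by
  refine ⟨_, _, _, _, hk, ?_⟩
  refine IR_gen h (fun k => (if k = x then m * 32768 else 0) + (if k = y then m * 32768 else 0))
    (fun k => (if k = x then m * cy else 0) + (if k = y then m * cx else 0))
    (two_le hxy (by norm_num) (by norm_num)) (two_le hxy hcy hcx) ?_ ?_ ?_
  · rw [pk_add, pk_single 48 _ hx, pk_single 48 _ hy]
    show P + (m * 32768) * (at_ 1 x + at_ 1 y) = _
    rw [at_eq, at_eq]
    ring
  · rw [pk_add, pk_single 48 _ hx, pk_single 48 _ hy]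
    show N + m * (at_ cx y + at_ cy x) = _
    rw [at_eq, at_eq]
    ring
  · rw [va_add, va_add, va_single z _ hx, va_single z _ hy, va_single z _ hx, va_single z _ hy]
    have e1 : ((Nat.add cp (Nat.mul m (Nat.mul cx cy)) : ℕ) : ℝ) = cp + m * (cx * cy) := by
      show ((cp + m * (cx * cy) : ℕ) : ℝ) = _
      push_cast
      ring
    have e2 : ((Nat.add cm (Nat.mul m 1073741824) : ℕ) : ℝ) = cm + m * 1073741824 := by
      show ((cm + m * 1073741824 : ℕ) : ℝ) = _
      push_cast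
      ring
    rw [e1]
    erw [e2]
    push_cast
    have h3 : 0 ≤ (m : ℝ) * ((z x - cx) * (z y - cy)) := mul_nonneg (Nat.cast_nonneg m) hc
    nlinarith [h3]

private theorem pA_sound {z : ℕ → ℝ} {m x y w P N cp cm cx cy : ℕ} (hx : x < 12) (hy : y < 12)
    (hxy : x ≠ y) (hcx : cx ≤ 2 ^ 24) (hcy : cy ≤ 2 ^ 24)
    (hc : (z x - cx) * (z y - cy) ≤ 0) {r : ℝ} {k : ℕ → ℕ → ℕ → ℕ → Bool}
    (h : IR z w P N cp cm r) (hk : pA m x y cx cy P N cp cm k = true) :
    ∃ P' N' cp' cm', k P' N' cp' cm' = true ∧ IR z (w + m * 2 ^ 24) P' N' cp' cm'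
      (r + m * ((z x - 32768) * (z y - 32768))) := by
  refine ⟨_, _, _, _, hk, ?_⟩
  refine IR_gen h (fun k => (if k = x then m * cy else 0) + (if k = y then m * cx else 0))
    (fun k => (if k = x then m * 32768 else 0) + (if k = y then m * 32768 else 0))
    (two_le hxy hcy hcx) (two_le hxy (by norm_num) (by norm_num)) ?_ ?_ ?_
  · rw [pk_add, pk_single 48 _ hx, pk_single 48 _ hy]
    show P + m * (at_ cx y + at_ cy x) = _
    rw [at_eq, at_eq]
    ring
  · rw [pk_add, pk_single 48 _ hx, pk_single 48 _ hy]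
    show N + (m * 32768) * (at_ 1 x + at_ 1 y) = _
    rw [at_eq, at_eq]
    ring
  · rw [va_add, va_add, va_single z _ hx, va_single z _ hy, va_single z _ hx, va_single z _ hy]
    have e1 : ((Nat.add cm (Nat.mul m (Nat.mul cx cy)) : ℕ) : ℝ) = cm + m * (cx * cy) := by
      show ((cm + m * (cx * cy) : ℕ) : ℝ) = _
      push_cast
      ring
    have e2 : ((Nat.add cp (Nat.mul m 1073741824) : ℕ) : ℝ) = cp + m * 1073741824 := by
      show ((cp + m * 1073741824 : ℕ) : ℝ) = _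
      push_cast
      ring
    rw [e1]
    erw [e2]
    push_cast
    have h3 : (m : ℝ) * ((z x - cx) * (z y - cy)) ≤ 0 :=
      mul_nonpos_of_nonneg_of_nonpos (Nat.cast_nonneg m) hc
    nlinarith [h3]

theorem pr_sound {z : ℕ → ℝ} {L H : ℕ} (hB : InB z L H) {s β m x y w P N cp cm : ℕ} (hx : x < 12) (hy : y < 12)
    (hxy : x ≠ y) {r : ℝ} {k : ℕ → ℕ → ℕ → ℕ → Bool} (h : IR z w P N cp cm r)
    (hk : pr s L H β m x y P N cp cm k = true) :
    ∃ P' N' cp' cm', k P' N' cp' cm' = true ∧ IR z (w + m * 2 ^ 24) P' N' cp' cm'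
      (if s = 0 then r - m * ((z x - 32768) * (z y - 32768)) else r + m * ((z x - 32768) * (z y - 32768))) := by
  have hBx := hB x hx
  have hBy := hB y hy
  cases s with
  | zero =>
    rw [if_pos rfl]
    have hk' : pS m x y (bd L H β x) (bd L H β y) P N cp cm k = true := hk
    refine pS_sound hx hy hxy (bd_lt _ _ _ _) (bd_lt _ _ _ _) ?_ h hk'
    cases β with
    | zero =>
      rw [bd_zero, bd_zero]
      exact mul_nonneg (by linarith [hBx.1]) (by linarith [hBy.1])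
    | succ β =>
      rw [bd_succ, bd_succ]
      exact mul_nonneg_of_nonpos_of_nonpos (by linarith [hBx.2]) (by linarith [hBy.2])
  | succ s =>
    rw [if_neg (Nat.succ_ne_zero s)]
    have hk' : pA m x y (bd L H β x) (bd L H (1 - β) y) P N cp cm k = true := hk
    refine pA_sound hx hy hxy (bd_lt _ _ _ _) (bd_lt _ _ _ _) ?_ h hk'
    cases β with
    | zero =>
      rw [bd_zero, show 1 - 0 = 0 + 1 from rfl, bd_succ]
      exact mul_nonpos_of_nonneg_of_nonpos (by linarith [hBx.1]) (by linarith [hBy.2])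
    | succ β =>
      rw [bd_succ, show 1 - (β + 1) = 0 by omega, bd_zero]
      exact mul_nonpos_of_nonpos_of_nonneg (by linarith [hBx.2]) (by linarith [hBy.1])

theorem sq_sound {z : ℕ → ℝ} {L H : ℕ} (hB : InB z L H) {m x w P N cp cm : ℕ} (hx : x < 12)
    {r : ℝ} {k : ℕ → ℕ → ℕ → ℕ → Bool} (h : IR z w P N cp cm r)
    (hk : sq L H m x P N cp cm k = true) :
    ∃ P' N' cp' cm', k P' N' cp' cm' = true ∧ IR z (w + m * 2 ^ 25) P' N' cp' cm' (r + m * (z x - 32768) ^ 2) := by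
  have hBx := hB x hx
  have hL := dg_lt L x
  have hH := dg_lt H x
  refine ⟨_, _, _, _, hk, ?_⟩
  refine IR_gen h (fun k => if k = x then m * (dg L x + dg H x) else 0)
    (fun k => if k = x then m * 65536 else 0)
    (fun k => (single_le _ x k).trans (Nat.mul_le_mul_left _ (by omega)))
    (fun k => (single_le _ x k).trans (Nat.mul_le_mul_left _ (by norm_num))) ?_ ?_ ?_
  · rw [pk_single 48 _ hx]
    show P + at_ (m * (dg L x + dg H x)) x = _
    rw [at_eq]
  · rw [pk_single 48 _ hx]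
    show N + at_ (m * 65536) x = _
    rw [at_eq]
  · rw [va_single z _ hx, va_single z _ hx]
    have e1 : ((Nat.add cm (Nat.mul m (Nat.mul (dg L x) (dg H x))) : ℕ) : ℝ) =
        cm + m * (dg L x * dg H x) := by
      show ((cm + m * (dg L x * dg H x) : ℕ) : ℝ) = _
      push_cast
      ring
    have e2 : ((Nat.add cp (Nat.mul m 1073741824) : ℕ) : ℝ) = cp + m * 1073741824 := by
      show ((cp + m * 1073741824 : ℕ) : ℝ) = _
      push_cast
      ring
    rw [e1]
    erw [e2]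
    push_cast
    have h3 : 0 ≤ (m : ℝ) * ((z x - dg L x) * (dg H x - z x)) :=
      mul_nonneg (Nat.cast_nonneg m) (mul_nonneg (by linarith [hBx.1]) (by linarith [hBx.2]))
    nlinarith [h3]

private theorem tg_sound {z : ℕ → ℝ} {m x c w P N cp cm : ℕ} (hx : x < 12) (hc : c ≤ 65535)
    {r : ℝ} {k : ℕ → ℕ → ℕ → ℕ → Bool} (h : IR z w P N cp cm r)
    (hk : tg m x c P N cp cm k = true) :
    ∃ P' N' cp' cm', k P' N' cp' cm' = true ∧
      IR z (w + m * 2 ^ 17) P' N' cp' cm' (r - m * (z x - 32768) ^ 2) := by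
  refine ⟨_, _, _, _, hk, ?_⟩
  refine IR_gen h (fun k => if k = x then m * 65536 else 0)
    (fun k => if k = x then m * (2 * c) else 0)
    (fun k => (single_le _ x k).trans (Nat.mul_le_mul_left _ (by norm_num)))
    (fun k => (single_le _ x k).trans (Nat.mul_le_mul_left _ (by omega))) ?_ ?_ ?_
  · rw [pk_single 48 _ hx]
    show P + at_ (m * 65536) x = _
    rw [at_eq]
  · rw [pk_single 48 _ hx]
    show N + at_ (m * (2 * c)) x = _
    rw [at_eq]
  · rw [va_single z _ hx, va_single z _ hx]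
    have e1 : ((Nat.add cp (Nat.mul m (Nat.mul c c)) : ℕ) : ℝ) = cp + m * (c * c) := by
      show ((cp + m * (c * c) : ℕ) : ℝ) = _
      push_cast
      ring
    have e2 : ((Nat.add cm (Nat.mul m 1073741824) : ℕ) : ℝ) = cm + m * 1073741824 := by
      show ((cm + m * 1073741824 : ℕ) : ℝ) = _
      push_cast
      ring
    rw [e1]
    erw [e2]
    push_cast
    have h3 : 0 ≤ (m : ℝ) * (z x - c) ^ 2 := mul_nonneg (Nat.cast_nonneg m) (sq_nonneg _)
    nlinarith [h3]

private theorem land_le (a : ℕ) : Nat.land a 65535 ≤ 65535 := Nat.and_le_right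

/-- three tangents at the variables `x, x+1, x+2` -/
theorem t3_sound {z : ℕ → ℝ} {e m x w P N cp cm : ℕ} (hx : x + 2 < 12)
    {r : ℝ} {k : ℕ → ℕ → ℕ → ℕ → Bool} (h : IR z w P N cp cm r)
    (hk : t3 e x m P N cp cm k = true) :
    ∃ P' N' cp' cm', k P' N' cp' cm' = true ∧ IR z (w + 3 * m * 2 ^ 17) P' N' cp' cm' (r - m * nq z x) := by
  unfold t3 at hk
  obtain ⟨P1, N1, p1, q1, hk1, h1⟩ := tg_sound (by omega) (land_le _) h hk
  obtain ⟨P2, N2, p2, q2, hk2, h2⟩ := tg_sound (show x + 1 < 12 by omega) (land_le _) h1 hk1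
  obtain ⟨P3, N3, p3, q3, hk3, h3⟩ := tg_sound hx (land_le _) h2 hk2
  refine ⟨P3, N3, p3, q3, hk3, IR_mono h3 (by omega) ?_⟩
  unfold nq
  nlinarith

end Pool.Agent.Work.MP_77d073_nt.Q4.Bb
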