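import Pool.Agent.Work.MP_77d073_nt.Q4.Bb.Sem

/-!
MODULE Bb/RedA (M).  Existence of a reduced basis.

`det_ne_zero`: if `dt X = 0`, the four forms (the fourth is minus the sum of the first three) have rank `≤ 2`: there is a
real vector `x ≠ 0` with `X i x = 0` for all `i`.  By Dirichlet's theorem (pigeonhole for the points `k x`, e.g. the
theorem `minkowski_forms` used in `Q4/Nz.lean`, or Minkowski's theorem in Mathlib, applied to the thin box around the line
`ℝ x`; or directly: the `N + 1` vectors `k x - floor` ...) there are integer vectors `p ≠ 0` with all `|X i p|` smaller than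
`1/2`, so the product is `< 1`, a contradiction.
`finite_le`: with `M = Matrix.of (X i.castSucc j)` invertible, `p = M⁻¹ (X_0 p, X_1 p, X_2 p)`, so `qf X p ≤ R` bounds all
coordinates of `p`.
`exists_red`: let `e_0` be a nonzero integer vector with minimal `qf` (finiteness; it is primitive, because a proper
divisor would be shorter; a primitive vector is the first column of a matrix of determinant `±1`).  Among all integer
matrices `U` of determinant `±1` with first column `e_0` choose one whose second column `e_1` has minimal `qf`; among those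
with first two columns `e_0`, `e_1` one whose third column has minimal `qf`.  The conditions: adding multiples of earlier
columns to a column does not change the determinant; exchanging the last two columns changes its sign.
-/

set_option autoImplicit false

namespace Pool.Agent.Work.MP_77d073_nt.Q4.Bb

/-- Simultaneous approximation of the multiples of a real vector. -/
private theorem dirichlet (x : Fin 3 → ℝ) (hx : x ≠ 0) (m : ℕ) (hm : 0 < m) :
    ∃ (p : Fin 3 → ℤ) (c : ℝ), p ≠ 0 ∧ ∀ j, |(p j : ℝ) - c * x j| * m < 1 := by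
  obtain ⟨j0, hj0⟩ : ∃ j, x j ≠ 0 := by
    by_contra h
    push Not at h
    exact hx (funext h)
  have ha : 0 < |x j0| := abs_pos.2 hj0
  have hm' : (0 : ℝ) < m := Nat.cast_pos.2 hm
  let y : Fin 3 → ℝ := fun j => |x j0|⁻¹ * x j
  have hfl : ∀ (k : ℕ) (j : Fin 3), 0 ≤ ⌊(m : ℝ) * Int.fract ((k : ℝ) * y j)⌋ := fun k j =>
    Int.floor_nonneg.2 (mul_nonneg hm'.le (Int.fract_nonneg _))
  have hfl2 : ∀ (k : ℕ) (j : Fin 3), ⌊(m : ℝ) * Int.fract ((k : ℝ) * y j)⌋ < m := fun k j => by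
    rw [Int.floor_lt]
    have h1 := Int.fract_lt_one ((k : ℝ) * y j)
    push_cast
    nlinarith
  let f : ℕ → (Fin 3 → Fin m) := fun k j =>
    ⟨⌊(m : ℝ) * Int.fract ((k : ℝ) * y j)⌋.toNat, by
      have h1 := hfl k j
      have h2 := hfl2 k j
      omega⟩
  obtain ⟨k, l, hkl, hf⟩ := Finite.exists_ne_map_eq_of_infinite f
  have hfj : ∀ j, ⌊(m : ℝ) * Int.fract ((k : ℝ) * y j)⌋ = ⌊(m : ℝ) * Int.fract ((l : ℝ) * y j)⌋ := by
    intro j
    have h1 := congrArg Fin.val (congrFun hf j)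
    have h2 : ⌊(m : ℝ) * Int.fract ((k : ℝ) * y j)⌋.toNat =
        ⌊(m : ℝ) * Int.fract ((l : ℝ) * y j)⌋.toNat := h1
    have h3 := hfl k j
    have h4 := hfl l j
    omega
  have key : ∀ j, |((⌊(k : ℝ) * y j⌋ - ⌊(l : ℝ) * y j⌋ : ℤ) : ℝ) - ((k : ℝ) - l) * y j| * m < 1 := by
    intro j
    have h1 := Int.abs_sub_lt_one_of_floor_eq_floor (hfj j)
    have h2 := Int.floor_add_fract ((k : ℝ) * y j)
    have h3 := Int.floor_add_fract ((l : ℝ) * y j)
    have h4 : ((⌊(k : ℝ) * y j⌋ - ⌊(l : ℝ) * y j⌋ : ℤ) : ℝ) - ((k : ℝ) - l) * y j =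
        -(Int.fract ((k : ℝ) * y j) - Int.fract ((l : ℝ) * y j)) := by
      push_cast
      linarith
    have h5 : |Int.fract ((k : ℝ) * y j) - Int.fract ((l : ℝ) * y j)| * m =
        |(m : ℝ) * Int.fract ((k : ℝ) * y j) - m * Int.fract ((l : ℝ) * y j)| := by
      rw [← mul_sub, abs_mul, abs_of_pos hm', mul_comm]
    rw [h4, abs_neg, h5]
    exact h1
  refine ⟨fun j => ⌊(k : ℝ) * y j⌋ - ⌊(l : ℝ) * y j⌋, ((k : ℝ) - l) * |x j0|⁻¹, ?_, ?_⟩
  · intro h0
    have h1 : ⌊(k : ℝ) * y j0⌋ - ⌊(l : ℝ) * y j0⌋ = 0 := congrFun h0 j0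
    have h2 := key j0
    rw [h1, Int.cast_zero, zero_sub, abs_neg, abs_mul] at h2
    have h3 : |y j0| = 1 := by
      show |(|x j0|⁻¹ * x j0)| = 1
      rw [abs_mul, abs_inv, abs_abs, inv_mul_cancel₀ ha.ne']
    rw [h3, mul_one] at h2
    have h4 : (1 : ℝ) ≤ |(k : ℝ) - l| := by
      have h5 : (1 : ℤ) ≤ |(k : ℤ) - l| := by
        have h6 : (k : ℤ) - l ≠ 0 := by
          intro h
          exact hkl (by omega)
        exact Int.one_le_abs h6
      have h7 : ((1 : ℤ) : ℝ) ≤ ((|(k : ℤ) - l| : ℤ) : ℝ) := Int.cast_le.2 h5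
      push_cast at h7
      exact h7
    have h5 : (1 : ℝ) ≤ m := by exact_mod_cast hm
    nlinarith
  · intro j
    have h1 := key j
    have h2 : ((k : ℝ) - l) * |x j0|⁻¹ * x j = ((k : ℝ) - l) * y j := by
      show _ = ((k : ℝ) - l) * (|x j0|⁻¹ * x j)
      ring
    rw [h2]
    exact h1

theorem det_ne_zero {X : Fin 4 → Fin 3 → ℝ} (hX : Adm X) : dt X ≠ 0 := by
  intro hd
  unfold dt at hd
  obtain ⟨x, hx, hMx⟩ := Matrix.exists_mulVec_eq_zero_iff.2 hd
  have h3 : ∀ i : Fin 3, ∑ j, X i.castSucc j * x j = 0 := fun i => congrFun hMx i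
  have hall : ∀ i : Fin 4, ∑ j, X i j * x j = 0 := by
    intro i
    refine Fin.lastCases ?_ (fun i => h3 i) i
    have h5 : ∀ j, X (Fin.last 3) j = -∑ i : Fin 3, X i.castSucc j := by
      intro j
      have := hX.sum j
      rw [Fin.sum_univ_castSucc] at this
      linarith
    simp only [h5, neg_mul, Finset.sum_neg_distrib, Finset.sum_mul]
    rw [Finset.sum_comm, Finset.sum_eq_zero (fun i _ => h3 i), neg_zero]
  -- a bound for the coefficients
  let B : ℝ := ∑ i : Fin 4, ∑ j : Fin 3, |X i j|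
  have hB : 0 ≤ B := Finset.sum_nonneg fun i _ => Finset.sum_nonneg fun j _ => abs_nonneg _
  obtain ⟨m, hm⟩ := exists_nat_gt (2 * B + 1)
  have hm0 : 0 < m := by
    have : (0 : ℝ) < m := by linarith
    exact_mod_cast this
  have hmr : (0 : ℝ) < m := by exact_mod_cast hm0
  obtain ⟨p, c, hp, hc⟩ := dirichlet x hx m hm0
  have hl : ∀ i, |lf X p i| ≤ 1 / 2 := by
    intro i
    have e1 : lf X p i = ∑ j, X i j * ((p j : ℝ) - c * x j) := by
      have e2 : ∑ j, X i j * ((p j : ℝ) - c * x j) = lf X p i - c * ∑ j, X i j * x j := by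
        unfold lf
        rw [Finset.mul_sum, ← Finset.sum_sub_distrib]
        refine Finset.sum_congr rfl fun j _ => ?_
        ring
      rw [e2, hall i, mul_zero, sub_zero]
    have e3 : |lf X p i| ≤ ∑ j, |X i j| * (1 / m) := by
      rw [e1]
      refine (Finset.abs_sum_le_sum_abs _ _).trans (Finset.sum_le_sum fun j _ => ?_)
      rw [abs_mul]
      refine mul_le_mul_of_nonneg_left ?_ (abs_nonneg _)
      rw [le_div_iff₀ hmr]
      exact (hc j).le
    have e4 : ∑ j, |X i j| * (1 / m) ≤ B * (1 / m) := by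
      rw [← Finset.sum_mul]
      refine mul_le_mul_of_nonneg_right ?_ (by positivity)
      exact Finset.single_le_sum (f := fun i : Fin 4 => ∑ j : Fin 3, |X i j|)
        (fun i _ => Finset.sum_nonneg fun j _ => abs_nonneg _) (Finset.mem_univ i)
    have e5 : B * (1 / m) ≤ 1 / 2 := by
      rw [mul_one_div, div_le_iff₀ hmr]
      linarith
    exact e3.trans (e4.trans e5)
  have h1 := hX.one p hp
  rw [Finset.abs_prod] at h1
  have h2 : ∏ i, |lf X p i| ≤ ∏ _i : Fin 4, (1 / 2 : ℝ) :=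
    Finset.prod_le_prod (fun i _ => abs_nonneg _) (fun i _ => hl i)
  rw [Finset.prod_const, Finset.card_univ, Fintype.card_fin] at h2
  norm_num at h2
  linarith

theorem finite_le {X : Fin 4 → Fin 3 → ℝ} (hX : dt X ≠ 0) (R : ℝ) : {p : Fin 3 → ℤ | qf X p ≤ R}.Finite := by
  let M : Matrix (Fin 3) (Fin 3) ℝ := Matrix.of fun i j : Fin 3 => X i.castSucc j
  have hM : IsUnit M.det := isUnit_iff_ne_zero.2 hX
  let B : ℝ := ∑ j : Fin 3, ∑ i : Fin 3, |M⁻¹ j i| * (|R| + 1)
  refine Set.Finite.subset (Set.finite_Icc (fun _ : Fin 3 => -⌈B⌉) (fun _ => ⌈B⌉)) ?_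
  intro p hp
  have hp' : qf X p ≤ R := hp
  have hl : ∀ i, |lf X p i| ≤ |R| + 1 := by
    intro i
    have h1 : (lf X p i) ^ 2 ≤ R := by
      refine le_trans ?_ hp'
      unfold qf
      exact Finset.single_le_sum (f := fun i => (lf X p i) ^ 2) (fun i _ => sq_nonneg _)
        (Finset.mem_univ i)
    have h2 : R ≤ |R| := le_abs_self R
    have h3 : 0 ≤ |R| := abs_nonneg R
    have h4 : |lf X p i| ^ 2 ≤ |R| := by
      rw [sq_abs]
      exact h1.trans h2
    nlinarith [abs_nonneg (lf X p i)]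
  have hpj : ∀ j, (p j : ℝ) = ∑ i : Fin 3, M⁻¹ j i * lf X p i.castSucc := by
    intro j
    have h1 : M.mulVec (fun j => (p j : ℝ)) = fun i : Fin 3 => lf X p i.castSucc := rfl
    have h2 : M⁻¹.mulVec (M.mulVec (fun j => (p j : ℝ))) = fun j => (p j : ℝ) := by
      rw [Matrix.mulVec_mulVec, Matrix.nonsing_inv_mul _ hM, Matrix.one_mulVec]
    rw [h1] at h2
    exact (congrFun h2 j).symm
  have hb : ∀ j, |(p j : ℝ)| ≤ B := by
    intro j
    rw [hpj j]
    refine (Finset.abs_sum_le_sum_abs _ _).trans ?_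
    refine le_trans (Finset.sum_le_sum (g := fun i => |M⁻¹ j i| * (|R| + 1)) fun i _ => ?_) ?_
    · rw [abs_mul]
      exact mul_le_mul_of_nonneg_left (hl _) (abs_nonneg _)
    · exact Finset.single_le_sum (f := fun j : Fin 3 => ∑ i : Fin 3, |M⁻¹ j i| * (|R| + 1))
        (fun j _ => Finset.sum_nonneg fun i _ => mul_nonneg (abs_nonneg _)
          (add_nonneg (abs_nonneg _) zero_le_one)) (Finset.mem_univ j)
  rw [Set.mem_Icc]
  constructor
  · intro j
    have h1 := (abs_le.1 (hb j)).1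
    have h2 := Int.le_ceil B
    have h3 : ((-⌈B⌉ : ℤ) : ℝ) ≤ (p j : ℝ) := by
      push_cast
      linarith
    exact Int.cast_le.1 h3
  · intro j
    have h1 := (abs_le.1 (hb j)).2
    have h2 := Int.le_ceil B
    have h3 : (p j : ℝ) ≤ ((⌈B⌉ : ℤ) : ℝ) := h1.trans h2
    exact Int.cast_le.1 h3

private theorem exists_min {X : Fin 4 → Fin 3 → ℝ} (hX : dt X ≠ 0) {S : Set (Fin 3 → ℤ)}
    (hS : S.Nonempty) : ∃ p ∈ S, ∀ r ∈ S, qf X p ≤ qf X r := by
  obtain ⟨s, hs⟩ := hS
  have hfin : (S ∩ {p | qf X p ≤ qf X s}).Finite := (finite_le hX (qf X s)).subset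
    Set.inter_subset_right
  obtain ⟨p, hp, hmin⟩ := Set.exists_min_image _ (qf X) hfin ⟨s, hs, le_refl (qf X s)⟩
  refine ⟨p, hp.1, fun r hr => ?_⟩
  rcases le_or_gt (qf X r) (qf X s) with h | h
  · exact hmin r ⟨hr, h⟩
  · exact (show qf X p ≤ qf X s from hp.2).trans h.le

/-- The determinant with the columns `a`, `b`, `c`. -/
private def D (a b c : Fin 3 → ℤ) : ℤ :=
  a 0 * (b 1 * c 2 - b 2 * c 1) - a 1 * (b 0 * c 2 - b 2 * c 0) + a 2 * (b 0 * c 1 - b 1 * c 0)

private theorem D_eq (a b c : Fin 3 → ℤ) :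
    (Matrix.of fun k j : Fin 3 => (![a, b, c] : Fin 3 → Fin 3 → ℤ) j k).det = D a b c := by
  rw [Matrix.det_fin_three]
  simp only [Matrix.of_apply, Matrix.cons_val_zero, Matrix.cons_val_one, Matrix.cons_val]
  unfold D
  ring

private theorem two_gcd (a b : ℤ) : ∃ g a' b' u v : ℤ, a = g * a' ∧ b = g * b' ∧
    u * a' + v * b' = 1 := by
  by_cases h : a = 0 ∧ b = 0
  · exact ⟨0, 1, 0, 1, 0, by rw [h.1]; ring, by rw [h.2]; ring, by ring⟩
  · have hg : (Int.gcd a b : ℤ) ≠ 0 := by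
      intro h0
      have h1 : Int.gcd a b = 0 := by exact_mod_cast h0
      exact h (Int.gcd_eq_zero_iff.1 h1)
    obtain ⟨a', ha'⟩ := Int.gcd_dvd_left a b
    obtain ⟨b', hb'⟩ := Int.gcd_dvd_right a b
    refine ⟨Int.gcd a b, a', b', Int.gcdA a b, Int.gcdB a b, ha', hb', ?_⟩
    have h1 := Int.gcd_eq_gcd_ab a b
    have h2 : (Int.gcd a b : ℤ) * (Int.gcdA a b * a' + Int.gcdB a b * b') =
        (Int.gcd a b : ℤ) * 1 := by
      calc (Int.gcd a b : ℤ) * (Int.gcdA a b * a' + Int.gcdB a b * b')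
          = (Int.gcd a b * a') * Int.gcdA a b + (Int.gcd a b * b') * Int.gcdB a b := by ring
        _ = a * Int.gcdA a b + b * Int.gcdB a b := by rw [← ha', ← hb']
        _ = Int.gcd a b := h1.symm
        _ = (Int.gcd a b : ℤ) * 1 := by ring
    exact mul_left_cancel₀ hg h2

/-- A vector which is not a proper multiple is the first column of a unimodular matrix. -/
private theorem extend (a : Fin 3 → ℤ) (h : ∀ (d : ℤ) (r : Fin 3 → ℤ), (∀ k, a k = d * r k) →
    d = 1 ∨ d = -1) : ∃ b c : Fin 3 → ℤ, D a b c = 1 ∨ D a b c = -1 := by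
  obtain ⟨g, a', b', u, v, h0, h1, huv⟩ := two_gcd (a 0) (a 1)
  obtain ⟨d, g', c', s, t, h2, h3, hst⟩ := two_gcd g (a 2)
  have hd := h d ![g' * a', g' * b', c'] (by
    intro k
    fin_cases k
    · show a 0 = d * (g' * a')
      rw [h0, h2]
      ring
    · show a 1 = d * (g' * b')
      rw [h1, h2]
      ring
    · show a 2 = d * c'
      exact h3)
  refine ⟨![-v, u, 0], ![-(t * a'), -(t * b'), s], ?_⟩
  have hD : D a ![-v, u, 0] ![-(t * a'), -(t * b'), s] = d := by
    unfold D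
    show a 0 * (u * s - 0 * -(t * b')) - a 1 * (-v * s - 0 * -(t * a')) +
      a 2 * (-v * -(t * b') - u * -(t * a')) = d
    have e : a 0 * (u * s - 0 * -(t * b')) - a 1 * (-v * s - 0 * -(t * a')) +
      a 2 * (-v * -(t * b') - u * -(t * a')) =
      s * (g * (u * a' + v * b')) + t * a 2 * (u * a' + v * b') := by
      rw [h0, h1]
      ring
    rw [e, huv, h2, h3]
    calc s * (d * g' * 1) + t * (d * c') * 1 = d * (s * g' + t * c') := by ring
      _ = d := by rw [hst, mul_one]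
  rw [hD]
  exact hd

theorem exists_red {X : Fin 4 → Fin 3 → ℝ} (hX : Adm X) :
    ∃ U : Matrix (Fin 3) (Fin 3) ℤ, (U.det = 1 ∨ U.det = -1) ∧
      (∀ p : Fin 3 → ℤ, p ≠ 0 → qf X (fun k => U k 0) ≤ qf X p) ∧
      qf X (fun k => U k 1) ≤ qf X (fun k => U k 2) ∧
      (∀ x : ℤ, qf X (fun k => U k 1) ≤ qf X (fun k => U k 1 + x * U k 0)) ∧
      (∀ x y : ℤ, qf X (fun k => U k 2) ≤ qf X (fun k => U k 2 + x * U k 0 + y * U k 1)) := by
  have hd := det_ne_zero hX
  obtain ⟨e0, he0, hmin0⟩ := exists_min (X := X) hd (S := {p | p ≠ 0}) ⟨fun _ => 1, by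
    intro h
    exact absurd (congrFun h 0) one_ne_zero⟩
  have he0' : e0 ≠ 0 := he0
  have hpos : ∀ p : Fin 3 → ℤ, p ≠ 0 → 0 < qf X p := by
    intro p hp
    by_contra hq
    have h0 : qf X p = 0 := le_antisymm (not_lt.1 hq) (Finset.sum_nonneg fun i _ => sq_nonneg _)
    have h1 : ∀ i, lf X p i = 0 := by
      intro i
      unfold qf at h0
      have h2 := (Finset.sum_eq_zero_iff_of_nonneg (fun i _ => sq_nonneg (lf X p i))).1 h0 i
        (Finset.mem_univ i)
      exact pow_eq_zero_iff two_ne_zero |>.1 h2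
    have h2 := hX.one p hp
    rw [Finset.prod_eq_zero (Finset.mem_univ 0) (h1 0), abs_zero] at h2
    linarith
  have hprim : ∀ (d : ℤ) (r : Fin 3 → ℤ), (∀ k, e0 k = d * r k) → d = 1 ∨ d = -1 := by
    intro d r hr
    have hr0 : r ≠ 0 := by
      intro h
      apply he0'
      funext k
      rw [hr k, h]
      simp
    have hd0 : d ≠ 0 := by
      intro h
      apply he0'
      funext k
      rw [hr k, h]
      simp
    have hq : qf X e0 = (d : ℝ) ^ 2 * qf X r := by
      unfold qf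
      rw [Finset.mul_sum]
      refine Finset.sum_congr rfl fun i _ => ?_
      have : lf X e0 i = d * lf X r i := by
        unfold lf
        rw [Finset.mul_sum]
        refine Finset.sum_congr rfl fun j _ => ?_
        rw [hr j]
        push_cast
        ring
      rw [this]
      ring
    have h1 := hmin0 r hr0
    have h2 := hpos r hr0
    by_contra hne
    push Not at hne
    have h3 : (2 : ℤ) ≤ |d| := by
      have h4 := Int.one_le_abs hd0
      rcases abs_cases d with ⟨h5, _⟩ | ⟨h5, _⟩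
      · have h6 := hne.1
        omega
      · have h6 := hne.2
        omega
    have h4 : (2 : ℝ) ≤ |(d : ℝ)| := by
      have : ((2 : ℤ) : ℝ) ≤ ((|d| : ℤ) : ℝ) := Int.cast_le.2 h3
      push_cast at this
      exact this
    have h5 : (4 : ℝ) ≤ (d : ℝ) ^ 2 := by
      rw [← sq_abs]
      nlinarith
    rw [hq] at h1
    nlinarith
  obtain ⟨b, c, hbc⟩ := extend e0 hprim
  obtain ⟨e1, ⟨c1, hc1⟩, hmin1⟩ := exists_min (X := X) hd
    (S := {b | ∃ c, D e0 b c = 1 ∨ D e0 b c = -1}) ⟨b, c, hbc⟩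
  obtain ⟨e2, he2, hmin2⟩ := exists_min (X := X) hd
    (S := {c | D e0 e1 c = 1 ∨ D e0 e1 c = -1}) ⟨c1, hc1⟩
  have he2' : D e0 e1 e2 = 1 ∨ D e0 e1 e2 = -1 := he2
  refine ⟨Matrix.of fun k j : Fin 3 => (![e0, e1, e2] : Fin 3 → Fin 3 → ℤ) j k, ?_, ?_, ?_, ?_, ?_⟩
  · rw [D_eq]
    exact he2'
  · intro p hp
    exact hmin0 p hp
  · refine hmin1 e2 ⟨e1, ?_⟩
    have h1 : D e0 e2 e1 = -D e0 e1 e2 := by
      unfold D
      ring
    rw [h1]
    rcases he2' with h | h
    · right
      rw [h]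
    · left
      rw [h]
      ring
  · intro x
    refine hmin1 (fun k => e1 k + x * e0 k) ⟨e2, ?_⟩
    have h1 : D e0 (fun k => e1 k + x * e0 k) e2 = D e0 e1 e2 := by
      unfold D
      ring
    rw [h1]
    exact he2'
  · intro x y
    refine hmin2 (fun k => e2 k + x * e0 k + y * e1 k) ?_
    have h1 : D e0 e1 (fun k => e2 k + x * e0 k + y * e1 k) = D e0 e1 e2 := by
      unfold D
      ring
    show D e0 e1 (fun k => e2 k + x * e0 k + y * e1 k) = 1 ∨
      D e0 e1 (fun k => e2 k + x * e0 k + y * e1 k) = -1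
    rw [h1]
    exact he2'

end Pool.Agent.Work.MP_77d073_nt.Q4.Bb
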