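import Mathlib
import Pool.Agent.Work.MP_77d073_nt.Q4.Bb.Chk

/-!
Semantics of the branch and bound certificate.  The variables `z 0, ..., z 8` are the coordinates of the three basis
vectors multiplied by `4096` and shifted by `32768`; `z 9, z 10, z 11` the cross product of the first two, divided by
`4096` and shifted.
-/

set_option autoImplicit false

namespace Pool.Agent.Work.MP_77d073_nt.Q4.Bb

/-- The thirteen vectors with coordinates in `{0, 1, -1}`. -/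
def pl : List (List ℤ) := [[0, 0, 1], [0, 1, 0], [1, 0, 0], [0, 1, -1], [0, 1, 1], [1, -1, 0], [1, 0, -1],
  [1, 0, 1], [1, 1, 0], [1, -1, -1], [1, -1, 1], [1, 1, -1], [1, 1, 1]]

/-- The coordinate `j` of the vector number `t`. -/
def pv (t j : ℕ) : ℤ := (pl.getD t []).getD j 0

/-- The form `T_i` at the basis vector number `j`. -/
def Y (z : ℕ → ℝ) (j i : ℕ) : ℝ :=
  if i = 0 then (z (3 * j) - 32768) + (z (3 * j + 1) - 32768) + (z (3 * j + 2) - 32768)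
  else if i = 1 then (z (3 * j) - 32768) - (z (3 * j + 1) - 32768) - (z (3 * j + 2) - 32768)
  else if i = 2 then -(z (3 * j) - 32768) + (z (3 * j + 1) - 32768) - (z (3 * j + 2) - 32768)
  else -(z (3 * j) - 32768) - (z (3 * j + 1) - 32768) + (z (3 * j + 2) - 32768)

/-- The form `T_i` at the vector number `t`. -/
def tau (z : ℕ → ℝ) (t i : ℕ) : ℝ := (pv t 0 : ℝ) * Y z 0 i + (pv t 1 : ℝ) * Y z 1 i + (pv t 2 : ℝ) * Y z 2 i

/-- The square of the length of the basis vector starting at the variable `x`. -/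
def nq (z : ℕ → ℝ) (x : ℕ) : ℝ := (z x - 32768) ^ 2 + (z (x + 1) - 32768) ^ 2 + (z (x + 2) - 32768) ^ 2

/-- The inner product of the basis vectors starting at the variables `x`, `y`. -/
def ip (z : ℕ → ℝ) (x y : ℕ) : ℝ :=
  (z x - 32768) * (z y - 32768) + (z (x + 1) - 32768) * (z (y + 1) - 32768) +
    (z (x + 2) - 32768) * (z (y + 2) - 32768)

/-- The hypotheses on the variables. -/
structure Dom (z : ℕ → ℝ) : Prop where
  F : ∀ t, t < 13 → (8192 : ℝ) ^ 4 ≤ |tau z t 0 * tau z t 1 * tau z t 2 * tau z t 3|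
  M0 : 4096 * (z 9 - 32768) = (z 1 - 32768) * (z 5 - 32768) - (z 2 - 32768) * (z 4 - 32768)
  M1 : 4096 * (z 10 - 32768) = (z 2 - 32768) * (z 3 - 32768) - (z 0 - 32768) * (z 5 - 32768)
  M2 : 4096 * (z 11 - 32768) = (z 0 - 32768) * (z 4 - 32768) - (z 1 - 32768) * (z 3 - 32768)
  D : |(z 6 - 32768) * (z 9 - 32768) + (z 7 - 32768) * (z 10 - 32768) + (z 8 - 32768) * (z 11 - 32768)| ≤
    (C0.D2 : ℝ)
  P01 : |2 * ip z 0 3| ≤ nq z 0
  P02 : |2 * ip z 0 6| ≤ nq z 0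
  P12 : |2 * ip z 3 6| ≤ nq z 3
  B0 : nq z 0 ≤ (C0.Q0 : ℝ)
  B1 : nq z 3 ≤ (C0.Q1 : ℝ)
  B2 : nq z 6 ≤ (C0.Q2 : ℝ)
  O0 : nq z 0 ≤ nq z 3
  O1 : nq z 3 ≤ nq z 6
  U : z 1 ≤ z 0

/-- The box. -/
def InB (z : ℕ → ℝ) (L H : ℕ) : Prop := ∀ k, k < 12 → (dg L k : ℝ) ≤ z k ∧ z k ≤ (dg H k : ℝ)

/-- The known signs. -/
def SgP (z : ℕ → ℝ) (S : ℕ) : Prop := ∀ q, dg S q ≠ 0 → q < 52 ∧ 0 ≤ tau z (q / 4) (q % 4)

/-- The known signs, negative. -/
def SgM (z : ℕ → ℝ) (S : ℕ) : Prop := ∀ q, dg S q ≠ 0 → q < 52 ∧ tau z (q / 4) (q % 4) ≤ 0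

/-- Packed number with twelve digits of `W` bits. -/
def pk (W : ℕ) (a : ℕ → ℕ) : ℕ := ∑ k ∈ Finset.range 12, a k * 2 ^ (W * k)

/-- Value of a coefficient vector. -/
def va (z : ℕ → ℝ) (a : ℕ → ℕ) : ℝ := ∑ k ∈ Finset.range 12, (a k : ℝ) * z k

/-- The invariant of the accumulators of the linear entries: `PF`, `NF` are packed coefficients of `T_i(b_j)` (digit
`4 j + i`), bounded by `n * 2 ^ 17`, and the inequality holds. -/
def IF (z : ℕ → ℝ) (n PF NF lam : ℕ) : Prop :=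
  ∃ a b : ℕ → ℕ, PF = pk 24 a ∧ NF = pk 24 b ∧ (∀ k, a k ≤ n * 2 ^ 17) ∧ (∀ k, b k ≤ n * 2 ^ 17) ∧
    (32768 : ℝ) * lam ≤ ∑ q ∈ Finset.range 12, ((a q : ℝ) - (b q : ℝ)) * Y z (q / 4) (q % 4)

/-- The invariant of the accumulators: `P`, `N` packed coefficients bounded by `w`, and the inequality
`0 ≤ (P - N) z + cp - cm`. -/
def IA (z : ℕ → ℝ) (w P N cp cm : ℕ) : Prop :=
  ∃ a b : ℕ → ℕ, P = pk 48 a ∧ N = pk 48 b ∧ (∀ k, a k ≤ w) ∧ (∀ k, b k ≤ w) ∧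
    0 ≤ va z a - va z b + (cp : ℝ) - (cm : ℝ)

/-- The variables of a system of four forms with sum zero: `u = X 0 + X 1`, `v = X 0 + X 2`, `w = X 0 + X 3` of the
three columns, and their cross product. -/
def uu (X : Fin 4 → Fin 3 → ℝ) (j : Fin 3) : ℝ := X 0 j + X 1 j
def vv (X : Fin 4 → Fin 3 → ℝ) (j : Fin 3) : ℝ := X 0 j + X 2 j
def ww (X : Fin 4 → Fin 3 → ℝ) (j : Fin 3) : ℝ := X 0 j + X 3 j

def zof (X : Fin 4 → Fin 3 → ℝ) (k : ℕ) : ℝ :=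
  32768 + 4096 * (match k with
    | 0 => uu X 0 | 1 => vv X 0 | 2 => ww X 0
    | 3 => uu X 1 | 4 => vv X 1 | 5 => ww X 1
    | 6 => uu X 2 | 7 => vv X 2 | 8 => ww X 2
    | 9 => vv X 0 * ww X 1 - ww X 0 * vv X 1
    | 10 => ww X 0 * uu X 1 - uu X 0 * ww X 1
    | 11 => uu X 0 * vv X 1 - vv X 0 * uu X 1
    | _ => 0)

/-- The value of the form number `i` at an integer vector. -/
def lf (X : Fin 4 → Fin 3 → ℝ) (p : Fin 3 → ℤ) (i : Fin 4) : ℝ := ∑ j, X i j * (p j : ℝ)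

/-- The sum of the squares of the four forms. -/
def qf (X : Fin 4 → Fin 3 → ℝ) (p : Fin 3 → ℤ) : ℝ := ∑ i, (lf X p i) ^ 2

/-- The corresponding bilinear form. -/
def bf (X : Fin 4 → Fin 3 → ℝ) (p q : Fin 3 → ℤ) : ℝ := ∑ i, lf X p i * lf X q i

/-- The determinant of the first three forms. -/
def dt (X : Fin 4 → Fin 3 → ℝ) : ℝ := (Matrix.of fun i j : Fin 3 => X i.castSucc j).det

/-- Admissible systems. -/
structure Adm (X : Fin 4 → Fin 3 → ℝ) : Prop where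
  sum : ∀ j, ∑ i, X i j = 0
  one : ∀ p : Fin 3 → ℤ, p ≠ 0 → 1 ≤ |∏ i, lf X p i|

end Pool.Agent.Work.MP_77d073_nt.Q4.Bb
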