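import Pool.Agent.Work.MP_77d073_nt.Q4.Bb.Cls

/-!
MODULE Bb/Snd (S-M).  Soundness of the whole check.

Induction on `T` (the four other variables generalized); `chk` on each constructor is by `rfl` the corresponding
expression.  `cl`: `close_sound`.  `st`: `tight_sound`.  `sp q`: `q < 52`, and `0 ≤ tau z (q/4) (q%4)` or `≤ 0`; the mask
`setd SP q 16777215` (`dg_setd`) is again `SgP`.  `bx k v`: `z k ≤ v` or `v ≤ z k` (for `k ≥ 12` nothing changes);
`dg_setd`.  `lc i`: the hypothesis `hG`.  `ev_eq`.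

`win_sound`: induction on `n`.
-/

set_option autoImplicit false

namespace Pool.Agent.Work.MP_77d073_nt.Q4.Bb

private theorem sn_cond1 {b x : Bool} (h : cond b false x = true) : b = false ∧ x = true := by
  cases b
  · exact ⟨rfl, h⟩
  · exact absurd h (by simp)

private theorem sn_cond2 {b x : Bool} (h : cond b x false = true) : b = true ∧ x = true := by
  cases b
  · exact absurd h (by simp)
  · exact ⟨rfl, h⟩

private theorem sn_ble {a b : ℕ} (h : Nat.ble a b = false) : ¬ a ≤ b := by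
  intro h'
  rw [Nat.ble_eq_true_of_le h'] at h
  exact absurd h (by simp)

private theorem sn_SgP {z : ℕ → ℝ} {S q : ℕ} (hS : SgP z S) (hq : q < 52)
    (h : 0 ≤ tau z (q / 4) (q % 4)) : SgP z (setd S q 16777215) := by
  intro j hj
  rw [dg_setd _ _ _ _ (by norm_num)] at hj
  by_cases hjq : j = q
  · subst hjq
    exact ⟨hq, h⟩
  · rw [if_neg hjq] at hj
    exact hS j hj

private theorem sn_SgM {z : ℕ → ℝ} {S q : ℕ} (hS : SgM z S) (hq : q < 52)
    (h : tau z (q / 4) (q % 4) ≤ 0) : SgM z (setd S q 16777215) := by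
  intro j hj
  rw [dg_setd _ _ _ _ (by norm_num)] at hj
  by_cases hjq : j = q
  · subst hjq
    exact ⟨hq, h⟩
  · rw [if_neg hjq] at hj
    exact hS j hj

private theorem sn_H {z : ℕ → ℝ} {L H k v : ℕ} (hB : InB z L H) (hv : v < 2 ^ 24)
    (h : z k ≤ v) : InB z L (setd H k v) := by
  intro j hj
  rw [dg_setd _ _ _ _ hv]
  by_cases hjk : j = k
  · subst hjk
    rw [if_pos rfl]
    exact ⟨(hB j hj).1, h⟩
  · rw [if_neg hjk]
    exact hB j hj

private theorem sn_L {z : ℕ → ℝ} {L H k v : ℕ} (hB : InB z L H) (hv : v < 2 ^ 24)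
    (h : (v : ℝ) ≤ z k) : InB z (setd L k v) H := by
  intro j hj
  rw [dg_setd _ _ _ _ hv]
  by_cases hjk : j = k
  · subst hjk
    rw [if_pos rfl]
    exact ⟨h, (hB j hj).2⟩
  · rw [if_neg hjk]
    exact hB j hj

theorem chk_sound {z : ℕ → ℝ} (hD : Dom z) {hl : ℕ → ℕ → ℕ → ℕ → ℕ → Bool} {G : Prop}
    (hG : ∀ i L H SP SM, hl i L H SP SM = true → InB z L H → SgP z SP → SgM z SM → G) (T : Tr) {L H SP SM : ℕ}
    (hB : InB z L H) (hP : SgP z SP) (hM : SgM z SM) (hk : chk C0 hl T L H SP SM = true) : G := by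
  induction T generalizing L H SP SM with
  | cl c =>
    have h : close C0 c L H SP SM = true := hk
    exact (close_sound hD hB hP hM h).elim
  | st c T ih =>
    have h : tight C0 c L H SP SM (fun L' H' => chk C0 hl T L' H' SP SM) = true := hk
    obtain ⟨L', H', hB', hk'⟩ := tight_sound hD hB hP hM h
    exact ih hB' hP hM hk'
  | sp q T1 T2 ih1 ih2 =>
    have h : cond (Nat.ble 52 q) false
      (cond (ev (setd SP q 16777215) fun SP' => chk C0 hl T1 L H SP' SM)
        (ev (setd SM q 16777215) fun SM' => chk C0 hl T2 L H SP SM') false) = true := hk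
    obtain ⟨h1, h2⟩ := sn_cond1 h
    obtain ⟨h3, h4⟩ := sn_cond2 h2
    rw [ev_eq] at h3 h4
    have hq : q < 52 := not_le.1 (sn_ble h1)
    rcases le_total 0 (tau z (q / 4) (q % 4)) with h5 | h5
    · exact ih1 hB (sn_SgP hP hq h5) hM h3
    · exact ih2 hB hP (sn_SgM hM hq h5) h4
  | bx k v T1 T2 ih1 ih2 =>
    have h : cond (Nat.ble v 65535)
      (cond (ev (setd H k v) fun H' => chk C0 hl T1 L H' SP SM)
        (ev (setd L k v) fun L' => chk C0 hl T2 L' H SP SM) false) false = true := hk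
    obtain ⟨h1, h2⟩ := sn_cond2 h
    obtain ⟨h3, h4⟩ := sn_cond2 h2
    rw [ev_eq] at h3 h4
    have hv : v < 2 ^ 24 := by
      have := Nat.le_of_ble_eq_true h1
      omega
    rcases le_total (z k) v with h5 | h5
    · exact ih1 (sn_H hB hv h5) hP hM h3
    · exact ih2 (sn_L hB hv h5) hP hM h4
  | lc i =>
    exact hG i L H SP SM hk hB hP hM

theorem win_sound {A B L H n : ℕ} (h : win A B L H n = true) :
    ∀ j, j < n → dg A j ≤ dg L j ∧ dg H j ≤ dg B j := by
  induction n with
  | zero =>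
    intro j hj
    exact absurd hj (Nat.not_lt_zero j)
  | succ n ih =>
    have h' : cond (Nat.ble (dg A n) (dg L n))
      (cond (Nat.ble (dg H n) (dg B n)) (win A B L H n) false) false = true := h
    obtain ⟨h1, h2⟩ := sn_cond2 h'
    obtain ⟨h3, h4⟩ := sn_cond2 h2
    intro j hj
    rcases Nat.lt_succ_iff_lt_or_eq.1 hj with hj | rfl
    · exact ih h4 j hj
    · exact ⟨Nat.le_of_ble_eq_true h1, Nat.le_of_ble_eq_true h3⟩

end Pool.Agent.Work.MP_77d073_nt.Q4.Bb
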